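import Pool.Agent.P.MP_08fd93_co.FK.K4

/-! Plans of the rows with an explicit orientation; rows without source and sink. -/

set_option autoImplicit false

namespace Pool.Agent.P.MP_08fd93_co.FR

open OV FN FK PkPrtP

variable {J : Type} {F : FD J} {X : XD J} {Pr : Set (Vx J)} {E : ED J} {A D : Set (Vx J)}

/-- `A` is the set of row vertices whose token points to the right. -/
structure Ori (F : FD J) (E : ED J) (A : Set (Vx J)) : Prop where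
  inv : ∀ a, ∀ v ∈ F.LA, tr a v ∈ A ↔ v ∈ A
  snk : ∀ y ∈ F.LA, y ∈ E.Snk → y ∈ A
  snk' : ∀ y ∈ F.LA, y ∈ E.Snk → F.nx y ∉ A
  pv : ∀ y ∈ F.LA, y ∉ E.Src → F.nx y ∈ A → y ∈ A
  nx : ∀ y ∈ F.LA, y ∉ E.Snk → y ∈ A → F.nx y ∈ A

/-- Admissible data; a row may be even and without special edges. -/
structure EOk2 (F : FD J) (E : ED J) : Prop where
  isrc : ∀ a, ∀ x ∈ E.Src, tr a x ∈ E.Src
  isnk : ∀ a, ∀ x ∈ E.Snk, tr a x ∈ E.Snk
  imo : ∀ a, ∀ x ∈ E.Mo, tr a x ∈ E.Mo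
  ifm : ∀ a, ∀ x ∈ E.Fm, tr a x ∈ E.Fm
  ipin : ∀ a, ∀ x ∈ E.Pin, tr a x ∈ E.Pin
  idl : ∀ a, ∀ x ∈ E.Dl, tr a x ∈ E.Dl
  dis : ∀ x ∈ E.Src, x ∉ E.Snk
  mo : E.Mo ⊆ E.Snk
  fm : E.Fm ⊆ E.Snk
  ne : ∀ j, (∃ m ∈ F.L j, m ∈ E.Mo) ∨ (Even (F.nn j) ∧ ∀ y ∈ F.L j, y ∉ E.Snk)
  alt : ∀ j, ∀ s ∈ F.L j, ∀ t ∈ F.L j, s ∈ E.Snk → t ∈ E.Snk → F.ρ s < F.ρ t →
    ∃ g ∈ F.L j, g ∈ E.Src ∧ F.ρ s < F.ρ g ∧ F.ρ g < F.ρ t

theorem EOk2.of (h : EOk F E) : EOk2 F E :=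
  ⟨h.isrc, h.isnk, h.imo, h.ifm, h.ipin, h.idl, h.dis, h.mo, h.fm, fun j => Or.inl (h.ne j), h.alt⟩

/-- The plan of the rows for the orientation `A`. -/
structure RP2 (F : FD J) (E : ED J) (A : Set (Vx J)) (c : J → Col) (o : Vx J → Vx J)
    (dn : Set J) : Prop where
  ori : Ori F E A
  mo : E.Mo ⊆ E.Snk
  fm : E.Fm ⊆ E.Snk
  cl : ∀ v ∈ F.LA, (c v.1).1 = decide (Even (F.f v))
  oR : ∀ v ∈ F.LA, v ∈ A → o v = F.nx v
  oL : ∀ v ∈ F.LA, v ∉ A → o v = pv F v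
  col : ∀ y ∈ F.LA, y ∉ E.Mo → (c (F.nx y).1 = c y.1 ↔ y ∈ E.Fm)
  dR : ∀ v ∈ F.LA, v ∈ A → (v.1 ∈ dn ↔ v ∈ E.Pin ∨ (v ∈ E.Snk ∧ v ∈ E.Dl))
  dL : ∀ y ∈ F.LA, F.nx y ∉ A → ((F.nx y).1 ∈ dn ↔ y ∈ E.Pin ∨ (y ∈ E.Snk ∧ y ∉ E.Dl))

/-- The rows named in `D` have no special edge; all their tokens point to the right. -/
structure Dir (F : FD J) (E : ED J) (D : Set (Vx J)) : Prop where
  inv : ∀ a, ∀ x ∈ D, tr a x ∈ D
  row : ∀ j, ∀ x ∈ F.L j, ∀ y ∈ F.L j, x ∈ D → y ∈ D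
  nsnk : ∀ x ∈ D, x ∉ E.Snk

theorem Dir.empty : Dir F E ∅ := ⟨fun _ _ h => h, fun _ _ _ _ _ h => h, fun _ h => h.elim⟩

/-- the standard orientation -/
theorem ori_as (hF : Lay F X Pr) (hE : EOk2 F E) (hD : Dir F E D) :
    Ori F E (AS F E.Src E.Snk ∪ D) := by
  refine ⟨fun a v hv => or_congr ?_ (inv_iff hD.inv a v), fun y hy h => Or.inl (as_snk hF hy h),
    fun y hy h => ?_, fun y hy h k => k.imp (as_pv hF hy h)
      (hD.row _ _ (hF.nx_mem hy).1 _ hy), fun y hy h k => k.imp (as_nx hF hy h)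
      (hD.row _ _ hy _ (hF.nx_mem hy).1)⟩
  · simp only [AS, Set.mem_ofPred_eq, sh_tr hF a hv, inv_iff hE.isrc, inv_iff hE.isnk]
  · rintro (⟨k, h1, h2⟩ | k)
    · obtain ⟨n1, n2, -⟩ := hF.nx_mem hy
      obtain ⟨m1, m2⟩ := sh_mem hF (F.nx y) k
      rw [f_nx hF] at m1
      obtain ⟨g, g1, g2, g3, g4⟩ := hE.alt (F.f y) y hy (FK.sh F (F.nx y) k) m1 h h1 (by omega)
      obtain ⟨k', rfl, e⟩ := sh_of_le hF n1 g1 (by omega)
      exact h2 k' (by omega) g2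
    · exact hD.nsnk y (hD.row _ _ (hF.nx_mem hy).1 _ hy k) h

/-- a source of a row that is not named in `D` has no token -/
theorem as_src2 (hF : Lay F X Pr) (hE : EOk2 F E) {y : Vx J} (hy : y ∈ F.LA) (h : y ∈ E.Src) :
    y ∉ AS F E.Src E.Snk := by
  rintro ⟨_ | k, h1, h2⟩
  · exact hE.dis y h (by rwa [sh_zero hF hy] at h1)
  · exact h2 0 (Nat.succ_pos k) (by rwa [sh_zero hF hy])

/-- a row without sink that is not named in `D` points to the left -/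
theorem as_none (hF : Lay F X Pr) {j : ℤ} (h : ∀ y ∈ F.L j, y ∉ E.Snk) {v : Vx J}
    (hv : v ∈ F.L j) : v ∉ AS F E.Src E.Snk := by
  rintro ⟨k, h1, -⟩
  exact h _ (hF.lf j v hv ▸ (sh_mem hF v k).1) h1

theorem nn_tr (hF : Lay F X Pr) (a : ℤ × ℤ) (j : ℤ) : F.nn (j + F.η a) = F.nn j := by
  obtain ⟨κ, hκ⟩ := hF.ltr' a j
  have h1 := hF.lw (j + F.η a) κ
  have h2 := congrArg (tr a) (hF.lw j 0)
  rw [tr_comm, hκ, hκ, zero_add, h1] at h2
  have := congrArg F.ρ h2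
  rw [hF.rho, hF.rho] at this
  omega

/-- The plan of the rows exists for every admissible orientation. -/
theorem rp_ex2 (hF : Lay F X Pr) (ev : ∀ a, Even (F.η a)) (hE : EOk2 F E) (hA : Ori F E A) :
    ∃ c o dn, RP2 F E A c o dn := by
  classical
  have la0 : ∀ v ∈ F.LA, ((v.1, 0) : Vx J) ∈ F.LA := fun v hv => tr0' v ▸ (hF.la_tr _ v).2 hv
  obtain ⟨b, b0, bd⟩ := hF.gen
  let B : Set (Vx J) := {x | ∃ j a, 0 ≤ j ∧ j < F.η b ∧ x = tr a (F.l j 0) ∧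
    ¬ ∃ m ∈ F.L j, m ∈ E.Mo}
  have iB : ∀ a, ∀ x ∈ B, tr a x ∈ B := by
    rintro a _ ⟨j, a', h1, h2, rfl, h3⟩
    exact ⟨j, a' + a, h1, h2, tr_tr _ _ _, h3⟩
  have iM : ∀ a, ∀ x ∈ E.Mo ∪ B, tr a x ∈ E.Mo ∪ B := fun a x k => k.imp (hE.imo a x) (iB a x)
  have neM : ∀ j, ∃ m ∈ F.L j, m ∈ E.Mo ∪ B := by
    intro j
    have e : j % F.η b + F.η ((j / F.η b) • b) = j := by
      rw [map_zsmul, smul_eq_mul, mul_comm, Int.emod_add_mul_ediv]
    by_cases c : ∃ m ∈ F.L (j % F.η b), m ∈ E.Mo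
    · obtain ⟨m, h1, h2⟩ := c
      exact ⟨_, e ▸ (hF.ltr _ _ m).2 h1, Or.inl (hE.imo _ m h2)⟩
    · exact ⟨_, e ▸ (hF.ltr _ _ _).2 (hF.l_mem _ 0), Or.inr ⟨_, _, Int.emod_nonneg j b0.ne',
        Int.emod_lt_of_pos j b0, rfl, c⟩⟩
  have ex := sh_ex hF iM neM
  let cnt : Vx J → ℕ := fun v => Nat.count (fun k => FK.sh F v k ∉ E.Fm) (Nat.find (ex v))
  have ctr : ∀ a, ∀ v ∈ F.LA, cnt (tr a v) = cnt v := by
    intro a v hv
    simp only [cnt, sh_tr hF a hv, inv_iff hE.ifm, inv_iff iM]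
  have c0 : ∀ v ∈ F.LA, cnt (v.1, 0) = cnt v := fun v hv => by rw [← tr0' v, ctr _ v hv]
  have f0 : ∀ v : Vx J, Even (F.f (v.1, 0)) ↔ Even (F.f v) := fun v => by
    rw [← tr0' v, hF.per, Int.even_add]
    simp [ev]
  let DN : Set (Vx J) := {v | (v ∈ A ∧ (v ∈ E.Pin ∨ (v ∈ E.Snk ∧ v ∈ E.Dl))) ∨
    (v ∉ A ∧ (pv F v ∈ E.Pin ∨ (pv F v ∈ E.Snk ∧ pv F v ∉ E.Dl)))}
  have d0 : ∀ v ∈ F.LA, ((v.1, 0) : Vx J) ∈ DN ↔ v ∈ DN := fun v hv => by
    rw [← tr0' v]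
    simp only [DN, Set.mem_ofPred_eq, hA.inv _ _ hv, pv_tr hF _ hv, inv_iff hE.ipin,
      inv_iff hE.isnk, inv_iff hE.idl]
  refine ⟨fun i => (decide (Even (F.f (i, 0))), decide (Even (cnt (i, 0)))),
    fun v => if v ∈ A then F.nx v else pv F v, {i | ((i, 0) : Vx J) ∈ DN}, hA, hE.mo, hE.fm,
    fun v _ => by simp only [f0], fun v _ h => if_pos h, fun v _ h => if_neg h, fun y hy h => ?_,
    fun v hv h => ?_, fun y hy h => ?_⟩
  · simp only [Prod.mk.injEq, f0, f_nx hF, c0 y hy, c0 _ (nx_la hF hy), true_and,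
      decide_eq_decide]
    by_cases hB : y ∈ B
    · obtain ⟨j, a, j0, j1, rfl, nm⟩ := hB
      have ml := hF.l_mem j 0
      obtain ⟨par, ns⟩ := (hE.ne j).resolve_left nm
      have n2 := hF.n2 j
      rw [hF.nx_tr a ml, ctr a _ (hF.la ml), ctr a _ (nx_la hF (hF.la ml)), inv_iff hE.ifm]
      have z : cnt (F.l j 0) = 0 := by
        simp only [cnt]
        rw [(Nat.find_eq_zero _).2 (by
          rw [sh_zero hF (hF.la ml)]
          exact Or.inr ⟨j, 0, j0, j1, (tr_zero _).symm, nm⟩), Nat.count_zero]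
      have sl : ∀ k : ℕ, FK.sh F (F.nx (F.l j 0)) k = F.l j (1 + k) := fun k => by
        unfold FK.sh
        rw [hF.nx_l, hF.f_l, hF.rho, zero_add]
      have fd : Nat.find (ex (F.nx (F.l j 0))) = (F.nn j - 1).toNat := by
        rw [Nat.find_eq_iff]
        refine ⟨Or.inr ⟨j, F.w, j0, j1, ?_, nm⟩, fun k l => ?_⟩
        · rw [sl, hF.lw]
          congr 1
          omega
        · rw [sl]
          rintro (m | ⟨j', a', i0, i1, e, -⟩)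
          · exact nm ⟨_, hF.l_mem _ _, m⟩
          · have e1 := congrArg F.f e
            rw [hF.per, hF.f_l, hF.f_l] at e1
            have z0 : F.η a' = 0 := Int.eq_zero_of_abs_lt_dvd (bd a')
              (abs_lt.2 ⟨by omega, by omega⟩)
            obtain rfl : j = j' := by omega
            exact l_ne hF j (i := 0) (i' := 1 + k) (by omega) (by omega)
              (congrArg Prod.fst e).symm
      have z' : cnt (F.nx (F.l j 0)) = (F.nn j - 1).toNat := by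
        simp only [cnt]
        rw [fd]
        exact Nat.count_iff_forall.2 fun k _ m => ns _ (by rw [sl]; exact hF.l_mem _ _) (hE.fm m)
      have od : ¬ Even (F.nn j - 1).toNat := by
        rintro ⟨r, hr⟩
        obtain ⟨r', hr'⟩ := par
        omega
      rw [z, z']
      exact ⟨fun k => absurd (k.2 ⟨0, rfl⟩) od, fun k => absurd (hE.fm k) (ns _ ml)⟩
    have e : Nat.find (ex y) = Nat.find (ex (F.nx y)) + 1 := by
      rw [Nat.find_eq_iff]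
      refine ⟨by rw [sh_succ hF]; exact Nat.find_spec (ex _), ?_⟩
      rintro (_ | k) l
      · rw [sh_zero hF hy]
        exact fun m => m.elim h hB
      · rw [sh_succ hF]
        exact Nat.find_min (ex _) (by omega)
    have e2 : cnt y = cnt (F.nx y) + if y ∉ E.Fm then 1 else 0 := by
      simp only [cnt]
      rw [e, Nat.count_succ']
      simp only [sh_succ hF, sh_zero hF hy]
    rw [e2]
    by_cases m : y ∈ E.Fm
    · simp [m]
    · simp only [m, not_false_eq_true, if_true, Nat.even_add_one, iff_false]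
      tauto
  · refine (d0 v hv).trans ⟨fun k => ?_, fun k => Or.inl ⟨h, k⟩⟩
    exact k.elim And.right fun m => absurd h m.1
  · refine (d0 _ (nx_la hF hy)).trans ?_
    simp only [DN, Set.mem_ofPred_eq, pv_nx hF hy]
    exact ⟨fun k => k.elim (fun m => absurd m.1 h) And.right, fun k => Or.inr ⟨h, k⟩⟩

theorem RP2.of (hF : Lay F X Pr) (hE : EOk F E) {c : J → Col} {o : Vx J → Vx J} {dn : Set J}
    (h : RP F E c o dn) : RP2 F E (AS F E.Src E.Snk) c o dn :=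
  ⟨by simpa using ori_as hF (EOk2.of hE) Dir.empty, hE.mo, hE.fm, h.cl, h.oR, h.oL, h.col, h.dR,
    h.dL⟩

theorem RP2.congr (hF : Lay F X Pr) {c c' : J → Col} {o o' : Vx J → Vx J} {dn dn' : Set J}
    (h : RP2 F E A c o dn) (e1 : ∀ v ∈ F.LA, c' v.1 = c v.1) (e2 : ∀ v ∈ F.LA, o' v = o v)
    (e3 : ∀ v ∈ F.LA, v.1 ∈ dn' ↔ v.1 ∈ dn) : RP2 F E A c' o' dn' :=
  ⟨h.ori, h.mo, h.fm, fun v hv => by rw [e1 v hv]; exact h.cl v hv,
    fun v hv k => by rw [e2 v hv]; exact h.oR v hv k,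
    fun v hv k => by rw [e2 v hv]; exact h.oL v hv k,
    fun y hy k => by rw [e1 y hy, e1 _ (nx_la hF hy)]; exact h.col y hy k,
    fun v hv k => (e3 v hv).trans (h.dR v hv k),
    fun y hy k => (e3 _ (nx_la hF hy)).trans (h.dL y hy k)⟩

/-- the parity of a row with one flexible edge and no forced edge -/
theorem RP2.mono_iff (hF : Lay F X Pr) {c : J → Col} {o : Vx J → Vx J} {dn : Set J}
    (h : RP2 F E A c o dn) {j : ℤ} {m : Vx J} (hm : m ∈ F.L j)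
    (u : ∀ y ∈ F.L j, y ∈ E.Mo → y.1 = m.1) (nf : ∀ y ∈ F.L j, y ∉ E.Fm) :
    c (F.nx m).1 = c m.1 ↔ Odd (F.nn j) := by
  have n2 := hF.n2 j
  have key : ∀ k : ℕ, (k : ℤ) < F.nn j →
      ((c (F.l j (F.ρ m + 1 + k)).1).2 = (c (F.l j (F.ρ m + 1)).1).2 ↔ Even k) := by
    intro k
    induction k with
    | zero => simp
    | succ k ih =>
      intro l
      push_cast at l
      have ml := hF.l_mem j (F.ρ m + 1 + k)
      have n := (h.col _ (hF.la ml) fun g => l_ne hF j (i := F.ρ m) (i' := F.ρ m + 1 + k)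
        (by omega) (by omega) (by rw [hF.l_rho hm]; exact (u _ ml g).symm)).not.2 (nf _ ml)
      have c1 := h.cl _ (hF.la ml)
      have c2 := h.cl _ (nx_la hF (hF.la ml))
      rw [f_nx hF] at c2
      rw [hF.nx_l] at n c2
      have n' : (c (F.l j (F.ρ m + 1 + k + 1)).1).2 ≠ (c (F.l j (F.ρ m + 1 + k)).1).2 :=
        fun g => n (Prod.ext (c2.trans c1.symm) g)
      rw [Nat.even_add_one, ← ih (by omega)]
      push_cast
      rw [← add_assoc]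
      revert n'
      cases (c (F.l j (F.ρ m + 1 + k + 1)).1).2 <;> cases (c (F.l j (F.ρ m + 1 + k)).1).2 <;>
        cases (c (F.l j (F.ρ m + 1)).1).2 <;> simp
  have k := key (F.nn j - 1).toNat (by omega)
  have e : F.l j (F.ρ m + 1 + ((F.nn j - 1).toNat : ℕ)) = tr F.w m := by
    conv_rhs => rw [← hF.l_rho hm, hF.lw]
    congr 1
    omega
  have e' : F.l j (F.ρ m + 1) = F.nx m := by
    conv_rhs => rw [← hF.l_rho hm, hF.nx_l]
  rw [e, e', tr_fst] at k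
  have c1 := h.cl _ (hF.la hm)
  have c2 := h.cl _ (nx_la hF (hF.la hm))
  rw [f_nx hF] at c2
  constructor
  · intro g
    obtain ⟨r, hr⟩ := k.1 (by rw [g])
    exact ⟨r, by omega⟩
  · rintro ⟨r, hr⟩
    exact Prod.ext (c2.trans c1.symm) (k.2 ⟨r.toNat, by omega⟩).symm

variable {p : PD J}

namespace RP2

theorem lt (hF : Lay F X Pr) (h : RP2 F E A p.c p.o p.dn) {v : Vx J} (hv : v ∈ F.LA)
    (k : v ∉ A) : p.Lt F v := (FK.Lt_iff hF hv).2 (h.oL v hv k)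

theorem R_iff (hF : Lay F X Pr) (h : RP2 F E A p.c p.o p.dn) {v : Vx J} (hv : v ∈ F.LA) :
    p.R F v ↔ v ∈ A :=
  ⟨fun k => by_contra fun m => not_R_Lt hF hv k (h.lt hF hv m), h.oR v hv⟩

theorem Lt_iff' (hF : Lay F X Pr) (h : RP2 F E A p.c p.o p.dn) {v : Vx J} (hv : v ∈ F.LA) :
    p.Lt F v ↔ v ∉ A :=
  ⟨fun k m => not_R_Lt hF hv (h.oR v hv m) k, h.lt hF hv⟩

theorem otr (hF : Lay F X Pr) {c : J → Col} {o : Vx J → Vx J} {dn : Set J}
    (h : RP2 F E A c o dn) (a : ℤ × ℤ) {v : Vx J} (hv : v ∈ F.LA) : o (tr a v) = tr a (o v) := by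
  have hv' := (hF.la_tr a v).2 hv
  by_cases k : v ∈ A
  · rw [h.oR v hv k, h.oR _ hv' ((h.ori.inv a v hv).2 k), hF.nx_tr a hv]
  · rw [h.oL v hv k, h.oL _ hv' fun m => k ((h.ori.inv a v hv).1 m), pv_tr hF a hv]

/-- both ends of a sink point into it -/
theorem snk (hF : Lay F X Pr) (h : RP2 F E A p.c p.o p.dn) {y : Vx J}
    (hy : y ∈ F.LA) (k : y ∈ E.Snk) : p.R F y ∧ p.Lt F (F.nx y) :=
  ⟨h.oR y hy (h.ori.snk y hy k), h.lt hF (nx_la hF hy) (h.ori.snk' y hy k)⟩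

/-- an end of every edge that is not a source points into it -/
theorem pt (hF : Lay F X Pr) (h : RP2 F E A p.c p.o p.dn) {y : Vx J} (hy : y ∈ F.LA)
    (k : y ∉ E.Src) : p.R F y ∨ p.Lt F (F.nx y) := by
  by_cases m : F.nx y ∈ A
  exacts [Or.inl (h.oR y hy (h.ori.pv y hy k m)), Or.inr (h.lt hF (nx_la hF hy) m)]

/-- an edge with two tokens is a sink -/
theorem two (hF : Lay F X Pr) (h : RP2 F E A p.c p.o p.dn) {y : Vx J} (hy : y ∈ F.LA)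
    (k : p.R F y) (k' : p.Lt F (F.nx y)) : y ∈ E.Snk := by
  by_contra m
  exact (h.Lt_iff' hF (nx_la hF hy)).1 k' (h.ori.nx y hy m ((h.R_iff hF hy).1 k))

theorem mono_snk {c : J → Col} {o : Vx J → Vx J} {dn : Set J} (h : RP2 F E A c o dn)
    {y : Vx J} (hy : y ∈ F.LA) (k : c (F.nx y).1 = c y.1) : y ∈ E.Snk := by
  by_cases m : y ∈ E.Mo
  exacts [h.mo m, h.fm ((h.col y hy m).1 k)]

theorem mono (hF : Lay F X Pr) (h : RP2 F E A p.c p.o p.dn) {y : Vx J}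
    (hy : y ∈ F.LA) (k : p.c (F.nx y).1 = p.c y.1) : p.o y = F.nx y ∧ p.o (F.nx y) = y := by
  have := h.snk hF hy (h.mono_snk hy k)
  exact ⟨this.1, (FK.Lt_nx hF hy).1 this.2⟩

/-- an edge that is neither pinned nor a source is paid above -/
theorem up (hF : Lay F X Pr) (h : RP2 F E A p.c p.o p.dn) {y : Vx J} (hy : y ∈ F.LA)
    (k1 : y ∉ E.Src) (k2 : y ∉ E.Pin) :
    (p.R F y ∧ y.1 ∉ p.dn) ∨ (p.Lt F (F.nx y) ∧ (F.nx y).1 ∉ p.dn) := by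
  by_cases s : y ∈ E.Snk
  · have := h.snk hF hy s
    by_cases d : y ∈ E.Dl
    · exact Or.inr ⟨this.2, fun m => ((h.dL y hy (h.ori.snk' y hy s)).1 m).elim k2 fun g => g.2 d⟩
    · exact Or.inl ⟨this.1, fun m => ((h.dR y hy (h.ori.snk y hy s)).1 m).elim k2 fun g => d g.2⟩
  · by_cases m : F.nx y ∈ A
    · have a := h.ori.pv y hy k1 m
      exact Or.inl ⟨h.oR y hy a, fun g => ((h.dR y hy a).1 g).elim k2 fun g => s g.1⟩
    · exact Or.inr ⟨h.lt hF (nx_la hF hy) m, fun g => ((h.dL y hy m).1 g).elim k2 fun g => s g.1⟩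

/-- a pinned edge that is not a source is paid below -/
theorem down (hF : Lay F X Pr) (h : RP2 F E A p.c p.o p.dn) {y : Vx J} (hy : y ∈ F.LA)
    (k1 : y ∉ E.Src) (k2 : y ∈ E.Pin) :
    (p.R F y ∧ y.1 ∈ p.dn) ∨ (p.Lt F (F.nx y) ∧ (F.nx y).1 ∈ p.dn) := by
  by_cases m : F.nx y ∈ A
  · have a := h.ori.pv y hy k1 m
    exact Or.inl ⟨h.oR y hy a, (h.dR y hy a).2 (Or.inl k2)⟩
  · exact Or.inr ⟨h.lt hF (nx_la hF hy) m, (h.dL y hy m).2 (Or.inl k2)⟩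

/-- the left end of a pinned edge pays below if it points to the right -/
theorem down_l (h : RP2 F E A p.c p.o p.dn) {y : Vx J} (hy : y ∈ F.LA) (k : y ∈ E.Pin)
    (a : y ∈ A) : p.R F y ∧ y.1 ∈ p.dn := ⟨h.oR y hy a, (h.dR y hy a).2 (Or.inl k)⟩

/-- the right end of a pinned edge pays below if it points to the left -/
theorem down_r (hF : Lay F X Pr) (h : RP2 F E A p.c p.o p.dn) {y : Vx J} (hy : y ∈ F.LA)
    (k : y ∈ E.Pin) (a : F.nx y ∉ A) : p.Lt F (F.nx y) ∧ (F.nx y).1 ∈ p.dn :=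
  ⟨h.lt hF (nx_la hF hy) a, (h.dL y hy a).2 (Or.inl k)⟩

/-- the tokens of a sink that are used below -/
theorem snk_dn (h : RP2 F E A p.c p.o p.dn) {y : Vx J} (hy : y ∈ F.LA) (k : y ∈ E.Snk) :
    (y.1 ∈ p.dn ↔ y ∈ E.Pin ∨ y ∈ E.Dl) ∧ ((F.nx y).1 ∈ p.dn ↔ y ∈ E.Pin ∨ y ∉ E.Dl) :=
  ⟨(h.dR y hy (h.ori.snk y hy k)).trans (or_congr_right (and_iff_right k)),
    (h.dL y hy (h.ori.snk' y hy k)).trans (or_congr_right (and_iff_right k))⟩

/-- a sink is paid below -/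
theorem snk_down (hF : Lay F X Pr) (h : RP2 F E A p.c p.o p.dn) {y : Vx J}
    (hy : y ∈ F.LA) (k : y ∈ E.Snk) :
    (p.R F y ∧ y.1 ∈ p.dn) ∨ (p.Lt F (F.nx y) ∧ (F.nx y).1 ∈ p.dn) := by
  have a := h.snk hF hy k
  have b := h.snk_dn hy k
  by_cases d : y ∈ E.Dl
  exacts [Or.inl ⟨a.1, b.1.2 (Or.inr d)⟩, Or.inr ⟨a.2, b.2.2 (Or.inr d)⟩]

end RP2

end Pool.Agent.P.MP_08fd93_co.FR
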