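import Pool.Agent.P.MP_08fd93_co.FR.Sig2

/-! Depth one: the child of a flat neighbour with one parent lies on the first row. -/

set_option autoImplicit false

namespace Pool.Agent.P.MP_08fd93_co.FR

open OV FZ

variable {J : Type} {Γ : SimpleGraph (Vx J)} {η : ℤ × ℤ →+ ℤ} {f : Vx J → ℤ}
  {v x y z p : Vx J}

/-- a proper ancestor has a child in the upper part -/
theorem Anc.child (a : Anc Γ f y z) (n : f y ≠ f z) : ∃ t, Up1 Γ f y t ∧ Anc Γ f t z := by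
  rcases Relation.ReflTransGen.cases_head a with e | ⟨t, h1, h2⟩
  · exact absurd (congrArg f e) n
  · exact ⟨t, h1, h2⟩

theorem RH.in_in' (R : RH Γ η v f)
    (two : ∀ x, Sg Γ η x v → ∀ z, Sg Γ η x z → z = v ∨ Γ.Adj v z) (s : Sg Γ η x v)
    (sp : Sg Γ η p x) :
    f p = -1 ∨ (f p = 0 ∧ ∃ z t b, Sg Γ η x z ∧ Γ.Adj v z ∧ f z = 1 ∧ z ∈ UU Γ f 1 ∧
      Up1 Γ f z t ∧ Anc Γ f t (tr b p)) := by
  have H := R.d1
  have f0 := R.inn s
  obtain ⟨e, b, hb⟩ := sp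
  have w := H.wit e hb
  have l1 := R.lip _ _ e
  have l2 := R.le' b p
  by_cases hp : f p = -1
  · exact Or.inl hp
  right
  obtain ⟨z, e1, d1⟩ := H.first (x := x) (y := tr b p) (n := (η b - 1).toNat) (by omega)
  have t1 := H.tri z (H.fine.inv b _ _ e)
  have s1 : Sg Γ η x z := H.sg e1 w.1 (by omega)
  rcases two x s z s1 with rfl | a
  · omega
  have t0 := H.tri' (tr b p) a
  have p0 : f p = 0 := by omega
  rcases R.nb a with k | k
  · exfalso
    obtain ⟨z2, e2, d2⟩ := H.first (x := z) (y := tr b p) (n := (η b - 2).toNat) (by omega)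
    have t2 := H.tri z2 (H.fine.inv b _ _ e)
    have t3 := H.tri z2 (H.fine.inv b _ _ e1)
    rcases two z k.2 z2 (H.sg e2 w.1 (by omega)) with rfl | a2
    · omega
    · have := H.tri' (tr b p) a2
      omega
  · have u := R.sg_uu s1 (by omega)
    rw [k.1] at u
    have pu : p ∈ UU Γ f 0 := fun c => by
      obtain ⟨u, hu, hc⟩ := (R.root_uu s).2 c
      exact ⟨u, hu, (Conn.step (A := {u | 0 ≤ f u}) p0.ge f0.ge e).trans hc⟩
    have an : Anc Γ f z (tr b p) := R.anc _ _ _ d1 (by rw [R.per]; omega) (by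
      rw [R.per, p0]
      exact R.uu_tr b pu)
    obtain ⟨t, h1, h2⟩ := an.child (by rw [R.per]; omega)
    exact ⟨p0, z, t, b, s1, a, k.1, u, h1, h2⟩

/-- all ears: a flat neighbour of the root has two adjacent parents, or one parent and a child on
the first row that sees the root -/
theorem AllEar.par' (R : RH Γ η v f) (A : AllEar Γ η) (s : Sg Γ η x v) :
    (∃ p p', Γ.Adj p p' ∧ ∀ r, (Γ.Adj x r ∧ f r = -1) ↔ r = p ∨ r = p') ∨
      ((∃ p, ∀ r, (Γ.Adj x r ∧ f r = -1) ↔ r = p) ∧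
        ∃ z t, Sg Γ η x z ∧ Γ.Adj v z ∧ f z = 1 ∧ z ∈ UU Γ f 1 ∧ z ∈ LL Γ f 1 ∧ Up1 Γ f z t) := by
  have N := A.noLong R.d1
  obtain ⟨p, p', e, k⟩ := N.par R s
  rcases e with rfl | e
  swap
  · exact Or.inl ⟨p, p', e, k⟩
  refine Or.inr ⟨⟨p, fun r => (k r).trans or_self_iff⟩, ?_⟩
  obtain ⟨a, a', ea, E⟩ := (A x (s.inn R.d1)).1
  have two : ∀ x, Sg Γ η x v → ∀ z, Sg Γ η x z → z = v ∨ Γ.Adj v z :=
    fun x s z s' => N.out R.d1 s s'
  have sa := (E a).2 (Or.inl rfl)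
  have sa' := (E a').2 (Or.inr rfl)
  rcases R.in_in' two s sa with h1 | ⟨-, z, t, -, h1, h2, h3, h4, h5, -⟩
  · rcases R.in_in' two s sa' with h2 | ⟨-, z, t, -, h1, h2, h3, h4, h5, -⟩
    · have e1 := or_self_iff.1 ((k a).1 ⟨sa.1.symm, h1⟩)
      have e2 := or_self_iff.1 ((k a').1 ⟨sa'.1.symm, h2⟩)
      exact absurd (e1.trans e2.symm) ea.ne
    · exact ⟨z, t, h1, h2, h3, h4, h3 ▸ h5.ll, h5⟩
  · exact ⟨z, t, h1, h2, h3, h4, h3 ▸ h5.ll, h5⟩

/-- the end of an outgoing edge of the root has a child in the upper part -/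
theorem RH.out_child (R : RH Γ η v f) (s : Sg Γ η v y) : ∃ t, Up1 Γ f y t := by
  obtain ⟨x, b, s', hb, k⟩ := R.out_anc s
  obtain ⟨t, h, -⟩ := k.child (by rw [R.per, R.out s, R.inn s']; omega)
  exact ⟨t, h⟩

end Pool.Agent.P.MP_08fd93_co.FR
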