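import Pool.Agent.P.MP_08fd93_co.FR.Root1
import Pool.Agent.P.MP_08fd93_co.FR.Sig3

/-! Depth one: the root with the spikes first. -/

set_option autoImplicit false

namespace Pool.Agent.P.MP_08fd93_co.FR

open OV FZ PkDNP

variable {J : Type} {Γ : SimpleGraph (Vx J)} {η : ℤ × ℤ →+ ℤ} {x y : Vx J}

/-- No vertex is a spike, in both directions. -/
def NoSpike (Γ : SimpleGraph (Vx J)) (η : ℤ × ℤ →+ ℤ) : Prop :=
  ∀ x, ¬ Spike Γ η x ∧ ¬ Spike Γ (-η) x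

/-- without spikes every incoming edge has a companion -/
theorem NoSpike.inn (N : NoSpike Γ η) (s : Sg Γ η y x) : ∃ z, z ≠ y ∧ Sg Γ η z x := by
  by_contra k
  exact (N x).1 ⟨y, fun z => ⟨fun h => by_contra fun n => k ⟨z, n, h⟩, fun e => e ▸ s⟩⟩

/-- without spikes every outgoing edge has a companion -/
theorem NoSpike.out (H : D1 Γ η) (N : NoSpike Γ η) (s : Sg Γ η x y) : ∃ z, z ≠ y ∧ Sg Γ η x z := by
  by_contra k
  exact (N x).2 ⟨y, fun z => ⟨fun h => by_contra fun n => k ⟨z, n, (sg_neg H).1 h⟩,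
    fun e => e ▸ s.rev H⟩⟩

theorem Ear.not_spike (E : Ear Γ η x) : ¬ Spike Γ η x := by
  rintro S
  obtain ⟨p, p', e, k⟩ := E
  exact e.ne (S.eq ((k p').2 (Or.inr rfl)) ((k p).2 (Or.inl rfl)))

theorem AllEar.noSpike (H : D1 Γ η) (A : AllEar Γ η) : NoSpike Γ η := by
  refine fun x => ⟨fun k => ?_, fun k => ?_⟩
  · obtain ⟨u, hu⟩ := id k
    exact (A x ⟨u, (hu u).2 rfl⟩).1.not_spike k
  · obtain ⟨u, hu⟩ := id k
    exact (A x (((sg_neg H).1 ((hu u).2 rfl)).inn H)).2.not_spike k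

/-- The root of depth one: a spike, or long without spikes, or an ear among ears. -/
theorem root1' [Fintype J] (hJ : Nonempty J) (hG : Good Γ) (hev : ∀ a, Even (η a))
    (h : ∀ a, a ≠ 0 → η a + 1 ≤ (OV.DL Γ a : ℤ)) {c : ℤ × ℤ} (hc : c ≠ 0)
    (e : (OV.DL Γ c : ℤ) = η c + 1) :
    ∃ (θ : ℤ × ℤ →+ ℤ) (v : Vx J) (f : Vx J → ℤ), (∀ a, Even (θ a)) ∧
      IsH Γ θ {v} (fun _ => 0) f ∧ RH Γ θ v f ∧
      (Spike Γ θ v ∨ (Long Γ θ v ∧ NoSpike Γ θ) ∨ (Ear Γ θ v ∧ AllEar Γ θ)) := by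
  have H := d1_of hJ hG h
  obtain ⟨x, hx⟩ := dl_ex (Γ := Γ) hJ c
  obtain ⟨z, hz⟩ := H.start (x := x) hc (by rw [hx, e])
  obtain ⟨θ, hθ, v, k⟩ := root_cases' H ⟨x, z, hz⟩
  have H' : D1 Γ θ := by
    rcases hθ with rfl | rfl
    exacts [H, H.neg]
  obtain ⟨f, hf⟩ := H'.exists_h v
  refine ⟨θ, v, f, fun a => ?_, hf, RH.of H' hf rfl, k⟩
  rcases hθ with rfl | rfl
  exacts [hev a, (hev a).neg]

end Pool.Agent.P.MP_08fd93_co.FR
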