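import Pool.Agent.P.MP_08fd93_co.FZ.R2
import Pool.Agent.P.MP_08fd93_co.FR.Root2

/-! Depth one: the three cases of a long root when there is no spike. -/

set_option autoImplicit false

namespace Pool.Agent.P.MP_08fd93_co.FR

open OV FZ

variable {J : Type} {Γ : SimpleGraph (Vx J)} {η : ℤ × ℤ →+ ℤ} {f : Vx J → ℤ} {F : FD J}
  {v x y z p q p' q' : Vx J} {i j : ℤ}

/-- rungs are ordered -/
theorem rm_up (h : Rows F) (hi : i = j - 1) (hp : p ∈ F.L i) (hq : q ∈ F.L j) (e : F.Γ.Adj q p)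
    (hp' : p' ∈ F.L i) (hq' : q' ∈ F.L j) (e' : F.Γ.Adj q' p') (l : F.ρ p < F.ρ p') :
    F.ρ q ≤ F.ρ q' := by
  subst hi
  by_contra c
  exact (h.nc hp hq e.symm (Set.empty_subset _) isConn_empty (x := q') (y := p')
    (Or.inr ⟨hq', by omega⟩) (Or.inl ⟨hp', l⟩)).1 e'

theorem rm_dn (h : Rows F) (hi : i = j - 1) (hp : p ∈ F.L i) (hq : q ∈ F.L j) (e : F.Γ.Adj q p)
    (hp' : p' ∈ F.L i) (hq' : q' ∈ F.L j) (e' : F.Γ.Adj q' p') (l : F.ρ q < F.ρ q') :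
    F.ρ p ≤ F.ρ p' := by
  by_contra c
  have := rm_up h hi hp' hq' e' hp hq e (by omega)
  omega

/-- a lower neighbour of a level vertex lies on the line below -/
theorem par_l (h : Rows F) (hi : i = j - 1) (hx : x ∈ F.L j) (e : F.Γ.Adj x p) (hp : F.f p = i) :
    p ∈ F.L i := hi ▸ h.uw.lan j x (h.l_u hx) p e (by omega)

theorem D1.nb_orb (H : D1 Γ η) (a : Γ.Adj x p) (b : Γ.Adj x q) (k : p.1 = q.1) : p = q := by
  by_contra c
  have e : q = tr (q.2 - p.2) p := orb_eq k.symm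
  have h1 := H.g3 p (q.2 - p.2) fun k => c (by rw [e, k, tr_zero])
  have h2 := H.tri p b
  rw [← e] at h1
  rw [dist_adj a.symm] at h2
  omega

theorem D1.adj_orb (H : D1 Γ η) (a : Γ.Adj x y) : x.1 ≠ y.1 := by
  intro k
  have e : y = tr (y.2 - x.2) x := orb_eq k.symm
  have h1 := H.g3 x (y.2 - x.2) fun k => a.ne (by rw [e, k, tr_zero])
  rw [← e, dist_adj a] at h1
  omega

theorem odd_orb (h : Rows F) (e : F.f x = F.f y + 1) : x.1 ≠ y.1 := by
  intro k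
  have h1 := h.wp.per (x.2 - y.2) y
  rw [← orb_eq k] at h1
  obtain ⟨m, hm⟩ := h.wp.ev (x.2 - y.2)
  omega

theorem uu_side {a b : Vx J} (ha : a ∈ UU Γ f j) (e : Γ.Adj b a) (h1 : j ≤ f a) (h2 : j ≤ f b) :
    b ∈ UU Γ f j := fun t =>
  let ⟨u, hu, hc⟩ := ha t
  ⟨u, hu, (Conn.step (A := {u | j ≤ f u}) h2 h1 e).trans hc⟩

/-- a flat neighbour of the root with one parent that is no spike has a child on the line one -/
theorem RH.kid (R : RH Γ η v f) (s : Sg Γ η x v) (n : ¬ Spike Γ η x)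
    (u : ∀ r r', Γ.Adj x r → f r = -1 → Γ.Adj x r' → f r' = -1 → r = r') :
    ∃ z, Up1 Γ f x z ∧ z ∈ LL Γ f 1 := by
  have f0 := R.inn s
  obtain ⟨p, e, hp⟩ := R.nb_par s.1.symm
  rw [f0, zero_sub] at hp
  have sp := R.par_sg s e hp
  obtain ⟨r, nr, e', b, hb⟩ : ∃ r, r ≠ p ∧ Sg Γ η r x := by
    by_contra k
    exact n ⟨p, fun z => ⟨fun h => by_contra fun n => k ⟨z, n, h⟩, fun e => e ▸ sp⟩⟩
  have w := R.d1.wit e' hb
  have l1 := R.lip _ _ e'
  have l2 := R.dist x (tr b r)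
  rw [R.per] at l2
  have r0 : f r = 0 := by
    have : f r ≠ -1 := fun k => nr (u _ _ e'.symm k e hp)
    omega
  have an : Anc Γ f x (tr b r) := R.anc _ _ _ rfl (by rw [R.per]; omega) (by
    rw [R.per, r0]
    exact R.uu_tr b (uu_side (R.root_uu s).2 e' f0.ge r0.ge))
  obtain ⟨t, h1, h2⟩ := an.child (by rw [R.per]; omega)
  have f1 : f t = 1 := by rw [h1.2.1, f0]; rfl
  obtain ⟨t', h3, -⟩ := h2.child (by rw [R.per]; omega)
  exact ⟨t, h1, f1 ▸ h3.ll⟩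

/-- The left neighbour of the root on its line. -/
abbrev xL (F : FD J) (v : Vx J) : Vx J := F.l 0 (F.ρ v - 1)

/-- The right neighbour of the root on its line. -/
abbrev xR (F : FD J) (v : Vx J) : Vx J := F.l 0 (F.ρ v + 1)

/-- The frame of a long root; the parent map avoids the root where it can. -/
structure LF (F : FD J) (v : Vx J) : Prop where
  wf : WFrm F {x | x.1 ≠ v.1}
  rh : RH F.Γ F.η v F.f
  v0 : v ∈ F.L 0
  sl : Sg F.Γ F.η (xL F v) v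
  sr : Sg F.Γ F.η (xR F v) v
  par : ∀ x : Vx J, x.1 ≠ v.1 → F.Γ.Adj x (F.an x) ∧ F.f (F.an x) = F.f x - 1
  av : ∀ x : Vx J, x.1 ≠ v.1 → (F.an x).1 = v.1 → ∀ r, F.Γ.Adj x r → F.f r = F.f x - 1 →
    r = F.an x

/-- The bottom of the root cell is a proper part of its line with an edge. -/
def CA (F : FD J) (v : Vx J) : Prop :=
  F.ρ (F.an (xL F v)) < F.ρ (F.an (xR F v)) ∧
    F.ρ (F.an (xR F v)) < F.ρ (F.an (xL F v)) + F.nn (-1)

/-- The bottom of the root cell is a vertex. -/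
def CB (F : FD J) (v : Vx J) : Prop :=
  F.an (xL F v) = F.an (xR F v) ∧ ∃ y ∈ F.L 1, F.an y = v ∧ F.an (F.nx y) = xR F v

/-- The vertex next to the children of the root sees the root. -/
def CK (F : FD J) (v : Vx J) : Prop :=
  ∃ y ∈ F.L 1, (F.an y = v ∧ (F.an (F.nx y)).1 ≠ v.1 ∧ F.Γ.Adj v (F.nx y)) ∨
    (F.an (F.nx y) = v ∧ (F.an y).1 ≠ v.1 ∧ F.Γ.Adj v y)

/-- All parents of the vertices of the line zero lie in one orbit. -/
def Fun (Γ : SimpleGraph (Vx J)) (f : Vx J → ℤ) : Prop :=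
  ∀ x ∈ LL Γ f 0, ∀ x' ∈ LL Γ f 0, ∀ r r' : Vx J, Γ.Adj x r → f r = -1 → Γ.Adj x' r' →
    f r' = -1 → r.1 = r'.1

theorem exists_lf [Fintype J] (hJ : Nonempty J) (hL : NL Γ) (hN : NJ Γ Set.univ)
    (ev : ∀ a, Even (η a)) (R : RH Γ η v f) (E : Long Γ η v) :
    ∃ F : FD J, F.Γ = Γ ∧ F.η = η ∧ F.f = f ∧ LF F v := by
  obtain ⟨an, h1, h2⟩ := eqv_choice (fun x y : Vx J => Γ.Adj x y ∧ f y = f x - 1 ∧
    (y.1 = v.1 → ∀ r, Γ.Adj x r → f r = f x - 1 → r = y)) fun a x y hh =>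
    ⟨R.d1.fine.inv a _ _ hh.1, by rw [R.per, R.per, hh.2.1]; ring, fun k r e hr => by
      have e' := R.d1.fine.inv (-a) _ _ e
      rw [tr_neg] at e'
      rw [R.per] at hr
      rw [← hh.2.2 k _ e' (by rw [R.per, map_neg]; omega), tr_neg']⟩
  have ex : ∀ x : Vx J, x.1 ≠ v.1 → ∃ y : Vx J, Γ.Adj x y ∧ f y = f x - 1 ∧
      (y.1 = v.1 → ∀ r, Γ.Adj x r → f r = f x - 1 → r = y) := by
    intro x hx
    by_cases c : ∃ y : Vx J, Γ.Adj x y ∧ f y = f x - 1 ∧ y.1 ≠ v.1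
    · obtain ⟨y, a, b, c⟩ := c
      exact ⟨y, a, b, fun k => absurd k c⟩
    · obtain ⟨y, a, b⟩ := n_par R hx
      exact ⟨y, a, b, fun k r e hr => R.d1.nb_orb e a
        ((by_contra fun n => c ⟨r, e, hr, n⟩ : r.1 = v.1).trans k.symm)⟩
  have aa := fun x hx => h2 x (ex x hx)
  obtain ⟨w, l, ρ, nn, a1, a2, a3, a4⟩ := exists_frL hJ hL hN ev R E h1
    fun x hx => ⟨(aa x hx).1, (aa x hx).2.1⟩
  exact ⟨⟨Γ, η, f, an, w, l, ρ, nn⟩, rfl, rfl, rfl, a1, R, a2, a3, a4,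
    fun x hx => ⟨(aa x hx).1, (aa x hx).2.1⟩, fun x hx => (aa x hx).2.2⟩

open Classical in
/-- The parent of `x0` is changed to `p0`. -/
noncomputable def upd (F : FD J) (x0 p0 : Vx J) : FD J :=
  { F with an := fun x => if x.1 = x0.1 then tr (x.2 - x0.2) p0 else F.an x }

theorem upd_self : (upd F x p).an x = p := by
  simp [upd, tr_zero]

theorem upd_ne (h : y.1 ≠ x.1) : (upd F x p).an y = F.an y := if_neg h

theorem upd_orb (h : y.1 = x.1) : (upd F x p).an y = tr (y.2 - x.2) p := if_pos h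

theorem LF.upd (H : LF F v) (e : F.Γ.Adj x p) (hf : F.f p = F.f x - 1) (n : p.1 ≠ v.1) :
    LF (upd F x p) v := by
  have h := H.wf.toRows
  have h' : Rows (FR.upd F x p) :=
    ⟨h.wp, h.uw, h.nj, h.mem, h.rho, h.adj, h.lw, h.n2, h.ltr, h.blc, h.tch⟩
  have par : ∀ y : Vx J, y.1 ≠ v.1 → F.Γ.Adj y ((FR.upd F x p).an y) ∧
      F.f ((FR.upd F x p).an y) = F.f y - 1 := by
    intro y hy
    by_cases c : y.1 = x.1
    · have a := h.fine.inv (y.2 - x.2) _ _ e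
      have b := h.wp.per (y.2 - x.2) x
      rw [← orb_eq c] at a b
      rw [upd_orb c, h.wp.per]
      exact ⟨a, by omega⟩
    · rw [upd_ne c]
      exact H.par y hy
  refine ⟨h'.wfrm (fun a y => ?_) (fun a y hy => hy) par H.wf.pne, H.rh, H.v0, H.sl, H.sr, par,
    fun y hy k => ?_⟩
  · by_cases c : y.1 = x.1
    · rw [upd_orb c, upd_orb (y := tr a y) c, tr_sub]
    · rw [upd_ne c, upd_ne (y := tr a y) c, H.wf.atr]
  · by_cases c : y.1 = x.1
    · rw [upd_orb c] at k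
      exact absurd k n
    · rw [upd_ne c] at k ⊢
      exact H.av y hy k

section

variable (H : LF F v)
include H

theorem LF.one (hx : x ∈ F.L 1) : x.1 ≠ v.1 :=
  odd_orb H.wf.toRows (by rw [H.wf.uw.lf 1 x hx, H.rh.root]; rfl)

theorem LF.an1 (hx : x ∈ F.L 1) : F.Γ.Adj x (F.an x) ∧ F.an x ∈ F.L 0 :=
  H.wf.aa 1 x hx (H.one hx)

/-- a child of the root in the frame has no other parent -/
theorem LF.pure (hx : x ∈ F.L 1) (e : (F.an x).1 = v.1) (a : F.Γ.Adj x p) (hp : p ∈ F.L 0) :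
    p = F.an x :=
  H.av x (H.one hx) e p a (by rw [H.wf.uw.lf 0 p hp, H.wf.uw.lf 1 x hx]; rfl)

theorem LF.lr : (xL F v).1 ≠ (xR F v).1 := by
  intro k
  have := congrArg F.ρ (H.rh.d1.nb_orb H.sl.1.symm H.sr.1.symm k)
  rw [H.wf.rho, H.wf.rho] at this
  omega

theorem LF.n3 : 3 ≤ F.nn 0 := by
  by_contra c
  have := H.wf.n2 0
  refine H.lr ?_
  show (tr F.w (xL F v)).1 = _
  rw [H.wf.lw, show F.ρ v - 1 + F.nn 0 = F.ρ v + 1 by omega]

theorem LF.child [Fintype J] : ∃ y ∈ F.L 1, F.an y = v := by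
  have R := H.rh
  have h := H.wf
  obtain ⟨n, -, h1, h2⟩ := chain_end (Pr := {x : Vx J | x.1 ≠ v.1}) (an := F.an)
    R.d1.fine R.per (fun x a ha => by have := R.d1.sl x a ha; omega) H.par (xL F v)
  have key : ∀ i, i ≤ n → ∃ j, F.an^[i] (xL F v) ∈ F.L j := by
    intro i
    induction i with
    | zero => exact fun _ => ⟨0, h.toRows.l_mem _ _⟩
    | succ i ih =>
      intro hi
      obtain ⟨j, hj⟩ := ih (by omega)
      rw [Function.iterate_succ_apply']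
      exact ⟨j - 1, h.an_mem hj (h1 i (by omega))⟩
  rcases n with _ | n
  · exact absurd (R.d1.adj_orb H.sl.1) h2
  obtain ⟨j, hj⟩ := key n (by omega)
  have k := h1 n (by omega)
  rw [Function.iterate_succ_apply'] at h2
  set z := F.an^[n] (xL F v)
  have e : (F.an z).1 = v.1 := not_not.1 h2
  have e1 : F.an (tr (-((F.an z).2 - v.2)) z) = v := by
    rw [h.atr, orb_neg e]
  refine ⟨_, ?_, e1⟩
  have h3 := (h.uw.ltr (-((F.an z).2 - v.2)) j z).2 hj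
  have h4 := R.per (-((F.an z).2 - v.2)) (F.an z)
  rw [← h.atr, e1, R.root, (H.par z k).2, h.uw.lf j z hj] at h4
  rwa [show j + F.η (-((F.an z).2 - v.2)) = 1 by omega] at h3

/-- the children of the root form an interval of the line one -/
theorem LF.kids [Fintype J] : ∃ a ∈ F.L 1, ∃ b ∈ F.L 1, F.ρ a ≤ F.ρ b ∧
    ∀ x ∈ F.L 1, F.an x = v ↔ F.ρ a ≤ F.ρ x ∧ F.ρ x ≤ F.ρ b := by
  have h := H.wf
  have fin : {x | x ∈ F.L 1 ∧ F.an x = v}.Finite := (h.wp.fine.lf v).subset fun x hx =>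
    hx.2 ▸ (H.an1 hx.1).1.symm
  obtain ⟨y, hy⟩ := H.child
  obtain ⟨a, ha, ma⟩ := Set.exists_min_image _ F.ρ fin ⟨y, hy⟩
  obtain ⟨b, hb, mb⟩ := Set.exists_max_image _ F.ρ fin ⟨y, hy⟩
  refine ⟨a, ha.1, b, hb.1, ma b hb, fun x hx => ⟨fun k => ⟨ma x ⟨hx, k⟩, mb x ⟨hx, k⟩⟩, fun k => ?_⟩⟩
  have m1 := h.mono ha.1 (H.one ha.1) hx (H.one hx) k.1
  have m2 := h.mono hx (H.one hx) hb.1 (H.one hb.1) k.2
  rw [ha.2] at m1
  rw [hb.2] at m2
  exact h.toRows.inj (H.an1 hx).2 H.v0 (by omega)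

/-- the cases of a long root -/
theorem LF.tri [Fintype J] (N : ∀ x, ¬ Spike F.Γ F.η x) :
    (∃ G : FD J, G.Γ = F.Γ ∧ G.η = F.η ∧ LF G v ∧ (CA G v ∨ CB G v)) ∨ Fun F.Γ F.f := by
  have R := H.rh
  have h := H.wf.toRows
  have ha : xL F v ∈ F.L 0 := h.l_mem _ _
  have hb : xR F v ∈ F.L 0 := h.l_mem _ _
  have ra : F.ρ (xL F v) = F.ρ v - 1 := h.rho _ _
  have rb : F.ρ (xR F v) = F.ρ v + 1 := h.rho _ _
  have fa : F.f (xL F v) = 0 := h.f_l _ _
  have fb : F.f (xR F v) = 0 := h.f_l _ _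
  have n3 := H.n3
  have z : (-1 : ℤ) = 0 - 1 := rfl
  have nv : ∀ r : Vx J, F.f r = -1 → r.1 ≠ v.1 := fun r hr =>
    (odd_orb h (by rw [R.root, hr]; rfl)).symm
  have sh : ∀ {j : ℤ} {x : Vx J}, x ∈ F.L j → tr F.w x ∈ F.L j ∧ F.ρ (tr F.w x) = F.ρ x + F.nn j :=
    fun hx => by simpa using h.rho_lw 1 hx
  by_cases c : ∃ p p', F.Γ.Adj (xL F v) p ∧ F.f p = -1 ∧ F.Γ.Adj (xR F v) p' ∧ F.f p' = -1 ∧
      F.ρ p < F.ρ p' ∧ F.ρ p' < F.ρ p + F.nn (-1)
  · obtain ⟨p, p', e, hp, e', hp', l⟩ := c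
    refine Or.inl ⟨FR.upd (FR.upd F (xL F v) p) (xR F v) p', rfl, rfl,
      (H.upd e (by omega) (nv p hp)).upd e' (by show F.f p' = F.f _ - 1; omega) (nv p' hp'),
      Or.inl ?_⟩
    have e1 : (FR.upd (FR.upd F (xL F v) p) (xR F v) p').an (xL F v) = p :=
      (upd_ne H.lr).trans upd_self
    have e2 : (FR.upd (FR.upd F (xL F v) p) (xR F v) p').an (xR F v) = p' := upd_self
    exact ⟨by show F.ρ _ < F.ρ _; erw [e1, e2]; exact l.1,
      by show F.ρ _ < F.ρ _ + F.nn _; erw [e1, e2]; exact l.2⟩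
  have two : ∀ p p', F.Γ.Adj (xL F v) p → F.f p = -1 → F.Γ.Adj (xR F v) p' → F.f p' = -1 →
      p' = p ∨ p' = tr F.w p := by
    intro p p' e hp e' hp'
    have l := par_l h z ha e hp
    have l' := par_l h z hb e' hp'
    have m1 := rm_dn h z l ha e l' hb e' (by omega)
    have m2 := rm_dn h z l' hb e' (sh l).1 (sh ha).1 (h.fine.inv _ _ _ e) (by rw [(sh ha).2]; omega)
    by_cases k : F.ρ p' = F.ρ p
    · exact Or.inl (h.inj l' l k)
    · refine Or.inr (h.inj l' (sh l).1 ?_)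
      by_contra k'
      rw [(sh l).2] at m2 k'
      exact c ⟨p, p', e, hp, e', hp', by omega, by omega⟩
  have orb : ∀ p p' : Vx J, F.Γ.Adj (xL F v) p → F.f p = -1 → F.Γ.Adj (xR F v) p' → F.f p' = -1 →
      p'.1 = p.1 := fun p p' e hp e' hp' => by
    rcases two p p' e hp e' hp' with rfl | rfl <;> rfl
  obtain ⟨ea, pa⟩ := H.par _ (R.d1.adj_orb H.sl.1)
  obtain ⟨eb, pb⟩ := H.par _ (R.d1.adj_orb H.sr.1)
  rw [fa] at pa
  rw [fb] at pb
  have ub : ∀ r r', F.Γ.Adj (xR F v) r → F.f r = -1 → F.Γ.Adj (xR F v) r' → F.f r' = -1 →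
      r = r' := fun r r' e hr e' hr' =>
    R.d1.nb_orb e e' ((orb _ _ ea pa e hr).trans (orb _ _ ea pa e' hr').symm)
  rcases two _ _ ea pa eb pb with k | k
  · obtain ⟨t, u, ht⟩ := R.kid H.sr (N _) ub
    obtain ⟨y0, -, y, hy, l, ky⟩ := H.kids
    have ay := (ky y hy).2 ⟨l, le_rfl⟩
    obtain ⟨n1, n2, n4⟩ := h.nx_mem hy
    have z1 : (0 : ℤ) = 1 - 1 := rfl
    have ad : F.Γ.Adj (F.nx y) (xR F v) := by
      have m1 := rm_up h z1 H.v0 hy (ay ▸ (H.an1 hy).1) hb ht u.1.symm (by omega)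
      have ty : t ≠ y := by
        rintro rfl
        exact H.sr.1.ne ((H.pure ht (by rw [ay]) u.1.symm hb).trans ay)
      by_cases c1 : F.ρ t = F.ρ (F.nx y)
      · exact h.inj ht n1 c1 ▸ u.1.symm
      have : F.ρ t ≠ F.ρ y := fun k => ty (h.inj ht hy k)
      obtain ⟨a1, a2⟩ := H.an1 n1
      have m2 := rm_dn h z1 a2 n1 a1 hb ht u.1.symm (by omega)
      have m3 := H.wf.mono hy (H.one hy) n1 (H.one n1) (by omega)
      have : F.ρ (F.an (F.nx y)) ≠ F.ρ v := fun k => by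
        have := (ky _ n1).1 (h.inj a2 H.v0 k)
        omega
      rw [ay] at m3
      exact h.inj a2 hb (by omega) ▸ a1
    have f1 := h.uw.lf 1 _ n1
    refine Or.inl ⟨FR.upd F (F.nx y) (xR F v), rfl, rfl,
      H.upd ad (by omega) (R.d1.adj_orb H.sr.1), Or.inr ⟨?_, y, hy, ?_, upd_self⟩⟩
    · exact (upd_ne (odd_orb h (by show F.f _ = F.f (xL F v) + 1; omega)).symm).trans
        (k.symm.trans (upd_ne (odd_orb h (by show F.f _ = F.f (xR F v) + 1; omega)).symm).symm)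
    · exact (upd_ne (R.d1.adj_orb n4)).trans ay
  · have key : ∀ x ∈ F.L 0, ∀ r : Vx J, F.Γ.Adj x r → F.f r = -1 → r.1 = (F.an (xL F v)).1 := by
      intro x hx r e hr
      obtain ⟨x1, x2⟩ := h.rho_lw (-((F.ρ x - F.ρ v) / F.nn 0)) hx
      have e1 := h.fine.inv ((-((F.ρ x - F.ρ v) / F.nn 0)) • F.w) _ _ e
      have r1 := R.per ((-((F.ρ x - F.ρ v) / F.nn 0)) • F.w) r
      rw [h.eta_w, hr, add_zero] at r1
      show (tr ((-((F.ρ x - F.ρ v) / F.nn 0)) • F.w) r).1 = _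
      have d1 := Int.emod_nonneg (F.ρ x - F.ρ v) (b := F.nn 0) (by omega)
      have d2 := Int.emod_lt_of_pos (F.ρ x - F.ρ v) (b := F.nn 0) (by omega)
      have d3 := Int.emod_add_ediv_mul (F.ρ x - F.ρ v) (F.nn 0)
      generalize tr ((-((F.ρ x - F.ρ v) / F.nn 0)) • F.w) r = r' at e1 r1
      generalize tr ((-((F.ρ x - F.ρ v) / F.nn 0)) • F.w) x = x' at e1 x1 x2
      have b1 : F.ρ v ≤ F.ρ x' := by rw [x2, neg_mul]; omega
      have b2 : F.ρ x' < F.ρ v + F.nn 0 := by rw [x2, neg_mul]; omega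
      have b3 : F.ρ x' ≠ F.ρ v := fun k => by
        rw [h.inj x1 H.v0 k] at e1
        rcases R.nb e1 with k | k <;> omega
      by_cases c1 : F.ρ x' = F.ρ (xR F v)
      · rw [h.inj x1 hb c1] at e1
        exact orb _ _ ea pa e1 r1
      by_cases c2 : F.ρ x' = F.ρ (tr F.w (xL F v))
      · rw [h.inj x1 (sh ha).1 c2] at e1
        have e2 := h.fine.inv (-F.w) _ _ e1
        rw [tr_neg] at e2
        have w0 := h.eta_w 1
        rw [one_smul] at w0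
        exact (orb _ _ e2 (by rw [R.per, map_neg]; omega) eb pb).symm.trans (orb _ _ ea pa eb pb)
      have l := par_l h z x1 e1 r1
      have la := par_l h z ha ea pa
      have lb := par_l h z hb eb pb
      have m1 := rm_dn h z lb hb eb l x1 e1 (by omega)
      have m2 := rm_dn h z l x1 e1 (sh la).1 (sh ha).1 (h.fine.inv _ _ _ ea) (by
        rw [(sh ha).2] at c2 ⊢; omega)
      rw [← k] at m2
      rw [h.inj l lb (by omega), k]
      rfl
    exact Or.inr fun x hx x' hx' r r' e hr e' hr' =>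
      (key x hx r e hr).trans (key x' hx' r' e' hr').symm

/-- in a funnel the root moves to a long root without funnel, or a side of the root is free -/
theorem LF.move (N : ∀ x, ¬ Spike F.Γ F.η x) (U : Fun F.Γ F.f) :
    (∃ y g, RH F.Γ F.η y g ∧ Long F.Γ F.η y ∧ ¬ Fun F.Γ g) ∨ CK F v := by
  have R := H.rh
  have D := R.d1
  have h := H.wf.toRows
  have ha : xL F v ∈ F.L 0 := h.l_mem _ _
  have hb : xR F v ∈ F.L 0 := h.l_mem _ _
  have ra : F.ρ (xL F v) = F.ρ v - 1 := h.rho _ _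
  have rb : F.ρ (xR F v) = F.ρ v + 1 := h.rho _ _
  have z1 : (0 : ℤ) = 1 - 1 := rfl
  obtain ⟨y, b, s, an⟩ := R.in_anc H.sl
  have fy := R.out s
  obtain ⟨t0, u0⟩ := R.out_child s
  have hy : y ∈ F.L 1 := fy ▸ u0.ll
  have an' : ∃ p, F.Γ.Adj (xL F v) p ∧ F.f p = -1 ∧ Anc F.Γ F.f y (tr b p) := by
    rcases an.cases_tail with e | ⟨c, h1, h2⟩
    · exact absurd (congrArg Prod.fst e).symm (odd_orb h (x := y) (y := xL F v)
        (by rw [fy, h.f_l]; rfl))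
    · have e := D.fine.inv (-b) _ _ h2.1.symm
      rw [tr_neg] at e
      have := h2.2.1
      rw [R.per, h.f_l] at this
      exact ⟨_, e, by rw [R.per, map_neg]; omega, by rwa [tr_neg']⟩
  obtain ⟨p, ep, fp, an'⟩ := an'
  have des : ∀ x ∈ F.L 0, x.1 ≠ v.1 → ∃ c, Anc F.Γ F.f y (tr c x) := by
    intro x hx n
    obtain ⟨e, hr⟩ := H.par x n
    have fx := h.uw.lf 0 x hx
    have o := U x hx _ ha _ _ e (by omega) ep fp
    refine ⟨-((F.an x).2 - p.2) + b, an'.tail ?_⟩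
    have e1 := D.fine.inv (-((F.an x).2 - p.2) + b) _ _ e.symm
    rw [← tr_tr, orb_neg o] at e1
    have e2 := R.per (-((F.an x).2 - p.2)) (F.an x)
    rw [orb_neg o] at e2
    refine ⟨e1, by rw [R.per, R.per, map_add]; omega, ?_⟩
    rw [R.per, fx]
    exact R.uu_tr _ (h.l_u hx)
  have pure : ∀ r ∈ F.L 0, F.Γ.Adj y r → r = v := by
    intro r hr e
    by_cases c : r.1 = v.1
    · exact D.nb_orb e s.1.symm c
    · obtain ⟨c, k⟩ := des r hr c
      exact absurd e.symm (R.nadj (by rw [fy, h.uw.lf 0 r hr]; rfl) k)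
  have ay : F.an y = v := pure _ (H.an1 hy).2 (H.an1 hy).1
  have kid : ∀ x ∈ F.L 0, Sg F.Γ F.η x v → ∃ z, Up1 F.Γ F.f x z ∧ z ∈ F.L 1 := fun x hx sx =>
    R.kid sx (N _) fun r r' e hr e' hr' => D.nb_orb e e' (U x hx x hx _ _ e hr e' hr')
  by_cases E : Long F.Γ F.η y
  · obtain ⟨g, hg⟩ := D.exists_h y
    have R' := RH.of D hg rfl
    have ge : ∀ u, F.f u - 1 ≤ g u := by
      intro u
      obtain ⟨a, e⟩ := R'.ex u
      have := R.dist (tr a y) u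
      rw [R.per] at this
      omega
    have key : ∀ x ∈ F.L 0, Sg F.Γ F.η x v → ∃ z ∈ LL F.Γ g 0, F.Γ.Adj z x ∧ g x = -1 := by
      intro x hx sx
      obtain ⟨z, u, hz⟩ := kid x hx sx
      obtain ⟨c, k⟩ := des x hx (D.adj_orb sx.1)
      have fx := h.uw.lf 0 x hx
      have d1 := R.anc_dist k
      have d2 := R'.le' c x
      have d3 := ge x
      have d4 := ge z
      have d5 := R'.lip _ _ u.1
      have fz := h.uw.lf 1 z hz
      rw [R.per] at d1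
      obtain ⟨t, ht, et⟩ := hz.1
      refine ⟨z, ⟨⟨t, fun m => ?_, et⟩, fun k => ?_⟩, u.1.symm, by omega⟩
      · obtain ⟨a, a1, a2⟩ := ht (m + 1)
        refine ⟨a, by have := ge a; omega, a2.up fun r hr => ?_⟩
        have := ge r
        simp only [Set.mem_ofPred_eq] at hr ⊢
        omega
      · have := PkUUP.u_ge k
        omega
    obtain ⟨z, a1, a2, a3⟩ := key _ ha H.sl
    obtain ⟨z', b1, b2, b3⟩ := key _ hb H.sr
    exact Or.inl ⟨y, g, R', E, fun k => H.lr (k z a1 z' b1 _ _ a2 a3 b2 b3)⟩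
  right
  obtain ⟨z, zv, sz, ez⟩ : ∃ z, F.Γ.Adj v z ∧ Sg F.Γ F.η z y ∧
      ∀ u, Sg F.Γ F.η u y → u = v ∨ u = z := by
    obtain ⟨a, a', e, k⟩ := (not_long E s).resolve_left (N y)
    rcases (k v).1 s with rfl | rfl
    · exact ⟨a', e, (k _).2 (Or.inr rfl), fun u hu => (k u).1 hu⟩
    · exact ⟨a, e.symm, (k _).2 (Or.inl rfl), fun u hu => ((k u).1 hu).symm⟩
  have fz : F.f z = 1 := by
    rcases R.nb zv with k | k
    · exact absurd (pure z (par_l h z1 hy sz.1.symm k.1) sz.1.symm) zv.ne'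
    · exact k.1
  have zU : z ∈ F.U 1 := h.uw.cl 1 y (h.l_u hy) z sz.1.symm fz.ge
  obtain ⟨r, hr, er, nr⟩ : ∃ r ∈ F.L 0, F.Γ.Adj z r ∧ r.1 ≠ v.1 := by
    obtain ⟨e, c, hc⟩ := sz
    have w := D.wit e hc
    obtain ⟨r, e1, d1⟩ := dist_step D.fine.pl (x := y) (y := tr c z) (n := (F.η c - 1).toNat)
      (by omega)
    have e2 := D.fine.inv (-c) _ _ e1.symm
    rw [tr_neg] at e2
    have l1 := R.dist y r
    refine ⟨_, h.uw.lan 1 z zU _ e2 (by rw [R.per, map_neg]; omega), e2, fun k => ?_⟩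
    have e3 : r = tr c v := by rw [← D.nb_orb e2 zv.symm k, tr_neg']
    have l2 := D.tri' r s.1
    have l3 := D.sl v c w.1
    rw [← e3] at l3
    omega
  by_cases zl : z ∈ F.L 1
  · have nz : (F.an z).1 ≠ v.1 := fun k => nr (H.pure zl k er hr ▸ k)
    rcases (h.adj_iff hy zl).1 sz.1.symm with k | k
    · have e : F.nx y = z := h.inj (h.nx_mem hy).1 zl (by rw [(h.nx_mem hy).2.1, k])
      exact ⟨y, hy, Or.inl ⟨ay, e ▸ nz, e ▸ zv⟩⟩
    · have e : F.nx z = y := h.inj (h.nx_mem zl).1 hy (by rw [(h.nx_mem zl).2.1, k])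
      exact ⟨z, zl, Or.inr ⟨e ▸ ay, nz, zv⟩⟩
  exfalso
  have zS : ({z} : Set (Vx J)) ⊆ F.St 1 := by
    rintro _ rfl
    refine ⟨zU, fun k => k.elim zl fun k => ?_⟩
    have := h.uw.ge _ _ k
    omega
  have side : ∀ u ∈ F.L 1, F.Γ.Adj u y → ∀ x ∈ F.L 0, F.Γ.Adj u x → x.1 = v.1 := by
    intro u hu e x hx e'
    by_contra n
    obtain ⟨c, k⟩ := des x hx n
    have fu := h.uw.lf 1 u hu
    have k1 := R.anc_tr (-c) k
    rw [tr_neg] at k1
    rcases ez u (R.sg_side e (by omega) (k1.tail ⟨e'.symm, by rw [fu, h.uw.lf 0 x hx]; rfl,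
      fu ▸ h.l_u hu⟩)) with rfl | rfl
    exacts [H.one hu rfl, zl hu]
  have yv : F.Γ.Adj y v := s.1.symm
  have rv : F.ρ r ≠ F.ρ v := fun k => nr (congrArg Prod.fst (h.inj hr H.v0 k))
  have ny : y ∈ Nb F.Γ {z} := ⟨z, rfl, sz.1.symm⟩
  have nr' : r ∈ Nb F.Γ {z} := ⟨z, rfl, er.symm⟩
  rcases lt_or_gt_of_ne rv with l | l
  · have hu := h.l_mem 1 (F.ρ y - 1)
    have ru := h.rho 1 (F.ρ y - 1)
    generalize F.l 1 (F.ρ y - 1) = u at hu ru
    have eu : F.Γ.Adj u y := (h.adj_iff hu hy).2 (by omega)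
    obtain ⟨a1, a2⟩ := H.an1 hu
    have l1 : F.ρ (F.an u) < F.ρ r := by
      by_contra c
      have : F.ρ r ≠ F.ρ (F.an u) := fun k => nr (h.inj hr a2 k ▸ side u hu eu _ a2 a1)
      exact (h.nc (j := 1) a2 hu a1.symm zS (isConn_single z) (Or.inl ⟨hr, by omega⟩)
        (Or.inr ⟨hy, by omega⟩)).2 ⟨nr', ny⟩
    obtain ⟨t, ut, ht⟩ := kid _ ha H.sl
    have m1 := rm_up h z1 ha ht ut.1.symm H.v0 hy yv (by omega)
    have m2 := rm_up h z1 a2 hu a1 ha ht ut.1.symm (by omega)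
    by_cases c : F.ρ t = F.ρ y
    · exact H.sl.1.ne (pure _ ha (h.inj ht hy c ▸ ut.1.symm))
    · exact D.adj_orb H.sl.1 (side u hu eu _ ha (h.inj ht hu (by omega) ▸ ut.1.symm))
  · obtain ⟨hu, ru, eu⟩ := h.nx_mem hy
    generalize F.nx y = u at hu ru eu
    obtain ⟨a1, a2⟩ := H.an1 hu
    have l1 : F.ρ r < F.ρ (F.an u) := by
      by_contra c
      have : F.ρ r ≠ F.ρ (F.an u) := fun k => nr (h.inj hr a2 k ▸ side u hu eu.symm _ a2 a1)
      exact (h.nc (j := 1) a2 hu a1.symm zS (isConn_single z) (Or.inr ⟨hy, by omega⟩)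
        (Or.inl ⟨hr, by omega⟩)).2 ⟨ny, nr'⟩
    obtain ⟨t, ut, ht⟩ := kid _ hb H.sr
    have m1 := rm_up h z1 H.v0 hy yv hb ht ut.1.symm (by omega)
    have m2 := rm_up h z1 hb ht ut.1.symm a2 hu a1 (by omega)
    by_cases c : F.ρ t = F.ρ y
    · exact H.sr.1.ne (pure _ hb (h.inj ht hy c ▸ ut.1.symm))
    · exact D.adj_orb H.sr.1 (side u hu eu.symm _ hb (h.inj ht hu (by omega) ▸ ut.1.symm))

end

/-- Without spikes some long root has a frame in one of the three cases. -/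
theorem long_cases [Fintype J] (hJ : Nonempty J) (hL : NL Γ) (hN : NJ Γ Set.univ)
    (ev : ∀ a, Even (η a)) (R : RH Γ η v f) (E : Long Γ η v) (N : NoSpike Γ η) :
    ∃ (F : FD J) (u : Vx J), F.Γ = Γ ∧ F.η = η ∧ Long Γ η u ∧ LF F u ∧
      (CA F u ∨ CB F u ∨ CK F u) := by
  have key : ∀ (u : Vx J) (g : Vx J → ℤ), RH Γ η u g → Long Γ η u →
      (∃ F : FD J, F.Γ = Γ ∧ F.η = η ∧ LF F u ∧ (CA F u ∨ CB F u)) ∨
        (Fun Γ g ∧ ∃ F : FD J, F.Γ = Γ ∧ F.η = η ∧ F.f = g ∧ LF F u) := by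
    intro u g R E
    obtain ⟨F, rfl, rfl, rfl, H⟩ := exists_lf hJ hL hN ev R E
    exact (H.tri fun x => (N x).1).imp id fun k => ⟨k, F, rfl, rfl, rfl, H⟩
  rcases key v f R E with ⟨F, a, b, H, k⟩ | ⟨U, F, rfl, rfl, rfl, H⟩
  · exact ⟨F, v, a, b, E, H, k.imp_right Or.inl⟩
  rcases H.move (fun x => (N x).1) U with ⟨y, g, R', E', n⟩ | k
  · obtain ⟨G, a, b, H', k⟩ := (key y g R' E').resolve_right fun k => n k.1
    exact ⟨G, y, a, b, E', H', k.imp_right Or.inl⟩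
  · exact ⟨F, v, rfl, rfl, E, H, Or.inr (Or.inr k)⟩

end Pool.Agent.P.MP_08fd93_co.FR
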