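import Pool.Agent.P.MP_08fd93_co.FR.Fun

/-! Depth one: the mirror image of the raised frame and the change of the parent map. -/

set_option autoImplicit false

namespace Pool.Agent.P.MP_08fd93_co.FR

open OV FZ

variable {J : Type} {Γ : SimpleGraph (Vx J)} {η : ℤ × ℤ →+ ℤ} {f : Vx J → ℤ} {G : VD J}
  {an an' : Vx J → Vx J} {v x y p : Vx J} {j : ℤ}

/-- The frame read from right to left. -/
def mir (G : VD J) : VD J :=
  ⟨⟨G.Γ, G.η, G.f, G.an, -G.w, fun j i => G.l j (-i), fun x => -G.ρ x, G.nn⟩, G.Pr, G.K, G.ch,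
    G.bt, G.xr, G.xl, G.hg⟩

theorem mir_rows (h : Rows G.toFD) : Rows (mir G).toFD := by
  have P := h.wp
  have U := h.uw
  refine ⟨⟨P.fine, P.ev, P.per, P.lip, neg_ne_zero.2 P.w0, fun a => (P.ker a).trans
    ⟨fun ⟨k, e⟩ => ⟨-k, ?_⟩, fun ⟨k, e⟩ => ⟨-k, ?_⟩⟩, P.gen, P.dn⟩,
    ⟨U.ge, U.cl, U.conn, U.low, U.big, U.mono, U.utr, U.ltr, U.str, U.lf, U.lu, U.bd, U.lan, U.lne,
      U.lowne, fun a b => ?_⟩, h.nj, fun j x => (h.mem j x).trans
      ⟨fun ⟨i, e⟩ => ⟨-i, ?_⟩, fun ⟨i, e⟩ => ⟨-i, e⟩⟩, fun j i => ?_, fun j i i' => ?_,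
      fun j i => ?_, h.n2, fun a j => ?_, h.blc, h.tch⟩
  · show a = -k • -G.w
    rw [e, neg_smul_neg]
  · have e : a = k • -G.w := e
    rw [e, smul_neg, neg_smul]
  · obtain ⟨S, h1, h2⟩ := U.band a b
    refine ⟨S, h1, fun x c d => ?_⟩
    obtain ⟨k, hk⟩ := h2 x c d
    exact ⟨-k, by show tr (-k • -G.w) x ∈ S; rwa [neg_smul_neg]⟩
  · show x = G.l j (- -i)
    rw [neg_neg, e]
  · show -G.ρ (G.l j (-i)) = i
    rw [h.rho, neg_neg]
  · exact (h.adj j (-i) (-i')).trans (by omega)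
  · show tr (-G.w) (G.l j (-i)) = G.l j (-(i + G.nn j))
    have := h.lw_int (-1) j (-i)
    rw [neg_smul, one_smul] at this
    rw [this]
    congr 1
    ring
  · obtain ⟨κ, hκ⟩ := h.ltr a j
    refine ⟨-κ, fun i => ?_⟩
    show tr a (G.l j (-i)) = G.l (j + G.η a) (-(i + -κ))
    rw [hκ]
    congr 1
    ring

theorem mir_vf (h : VFrm G) : VFrm (mir G) :=
  ⟨mir_rows h.toRows, h.atr, h.ptr, h.ktr,
    fun a x => ⟨(h.xtr a x).2.1, (h.xtr a x).1, (h.xtr a x).2.2⟩, h.kst, h.kn, h.kc, h.kp,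
    fun p c => (h.xo p c).symm, h.vr, h.vl, fun u hu t ht z hz e =>
      let ⟨a, b, c⟩ := h.vx u hu t ht z hz e
      ⟨a, neg_le_neg c, neg_le_neg b⟩, h.aa,
    fun j x hx px c => let ⟨a, b, c⟩ := h.pure j x hx px c; ⟨b, a, c⟩, h.pne⟩

theorem fr1_mir (H : Fr1 Γ η f v an G) : Fr1 Γ η f v an (mir G) :=
  ⟨mir_vf H.vf, H.eΓ, H.eη, H.ef, H.ea, H.eP, H.eK, H.eT, H.eV, H.eb⟩

theorem mir_nx (x : Vx J) : (mir G).nx x = G.l (G.f x) (G.ρ x - 1) := by
  show G.l (G.f x) (-(-G.ρ x + 1)) = _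
  congr 1
  ring

/-- The frame with another parent map. -/
def chg (G : VD J) (an : Vx J → Vx J) : VD J :=
  ⟨⟨G.Γ, G.η, G.f, an, G.w, G.l, G.ρ, G.nn⟩, G.Pr, G.K, G.ch, G.bt, G.xl, G.xr, G.hg⟩

/-- all parent maps agree on the vertices without parent -/
theorem an1_pure (R : RH Γ η v f) (A : An1 Γ f v an) (A' : An1 Γ f v an')
    (e : rais f v (an x) = rais f v x) : an' x = an x := by
  obtain ⟨n, k, -⟩ := (A.alt x).resolve_left (by omega)
  exact k_uniq R ((A'.alt x).resolve_left fun c => n ⟨_, A'.adj x, c⟩).2.1 k (A'.adj x) (A.adj x)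

theorem fr1_chg (H : Fr1 Γ η f v an G) (R : RH Γ η v f) (A : An1 Γ f v an) (A' : An1 Γ f v an') :
    Fr1 Γ η f v an' (chg G an') := by
  have h := H.vf
  have r := h.toRows
  have key : ∀ j, ∀ x ∈ G.L j, G.an x ∈ G.K → an' x = G.an x := fun j x hx c => by
    have a := (h.an_v hx (H.pr x) c).2
    have b := h.uw.lf j x hx
    rw [H.ef] at a b
    rw [H.ea] at a ⊢
    exact an1_pure R A A' (a.trans b.symm)
  have kV : ∀ u ∈ G.K, an' (G.ch u) = u := fun u hu => by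
    have e := (H.eV u hu).2
    exact (key _ _ (h.kc u hu).1 (e.symm ▸ hu)).trans e
  have back : ∀ j, ∀ x ∈ G.L j, an' x ∈ G.K → an' x = G.an x := fun j x hx c => by
    have b := h.uw.lf j x hx
    rcases A'.alt x with k | k
    · exact absurd c (h.l_nk (h.uw.lan j x (r.l_u hx) _ (H.eΓ ▸ A'.adj x) (by
        rw [H.ef] at b ⊢; omega)))
    · exact H.ea ▸ (an1_pure R A' A k.2.2).symm
  refine ⟨⟨⟨r.wp, r.uw, r.nj, r.mem, r.rho, r.adj, r.lw, r.n2, r.ltr, r.blc, r.tch⟩, A'.atr, h.ptr,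
    h.ktr, h.xtr, h.kst, h.kn, fun u hu => ⟨(h.kc u hu).1, (h.kc u hu).2.1, ?_⟩,
    fun u hu => h.kp u (H.eV u hu.1), h.xo, fun u hu => h.vl u (H.eV u hu.1),
    fun u hu => h.vr u (H.eV u hu.1), fun u hu => h.vx u (H.eV u hu.1),
    fun j x hx px => ⟨H.eΓ ▸ A'.adj x, ?_⟩, fun j x hx px c => ?_, h.pne⟩, H.eΓ, H.eη, H.ef, rfl,
    H.eP, H.eK, H.eT, fun u hu => ⟨hu, kV u hu⟩, H.eb⟩
  · show an' (G.ch u) ∈ G.T u
    rw [kV u hu]
    exact t_self hu
  · by_cases c : an' x ∈ G.K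
    · have e := back j x hx c
      exact Or.inr ⟨⟨c, kV _ c⟩, by
        show G.f (an' x) = j
        rw [e]
        exact (h.an_v hx px (e ▸ c)).2⟩
    · have b := h.uw.lf j x hx
      refine Or.inl (h.uw.lan j x (r.l_u hx) _ (H.eΓ ▸ A'.adj x) ?_)
      have := (A'.alt x).resolve_right fun k => c ((H.eK _).2 k.2.1)
      show G.f (an' x) < j
      rw [H.ef] at b ⊢
      omega
  · have e := back j x hx c
    have := h.pure j x hx px (e ▸ c)
    rw [← e] at this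
    exact this

open Classical in
/-- The parent of `x0` is changed to `p0`. -/
noncomputable def upa (an : Vx J → Vx J) (x0 p0 : Vx J) : Vx J → Vx J :=
  fun x => if x.1 = x0.1 then tr (x.2 - x0.2) p0 else an x

theorem upa_self : upa an x p x = p := by
  simp [upa, tr_zero]

theorem upa_ne (h : y.1 ≠ x.1) : upa an x p y = an y := if_neg h

theorem upa_orb (h : y.1 = x.1) : upa an x p y = tr (y.2 - x.2) p := if_pos h

theorem an1_upa (R : RH Γ η v f) (A : An1 Γ f v an) (e : Γ.Adj x p)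
    (hf : rais f v p = rais f v x - 1) : An1 Γ f v (upa an x p) := by
  refine ⟨fun a y => ?_, fun y => ?_, fun y => ?_⟩
  all_goals by_cases c : y.1 = x.1
  · rw [upa_orb c, upa_orb (y := tr a y) c, tr_sub]
  · rw [upa_ne c, upa_ne (y := tr a y) c, A.atr]
  · have a := R.d1.fine.inv (y.2 - x.2) _ _ e
    rwa [← orb_eq c, ← upa_orb (an := an) c] at a
  · rw [upa_ne c]
    exact A.adj y
  · have b := rais_per R (y.2 - x.2) x
    rw [← orb_eq c] at b
    rw [upa_orb c, rais_per R]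
    exact Or.inl (by omega)
  · rw [upa_ne c]
    exact A.alt y

theorem fr1_n3 (H : Fr1 Γ η f v an G) (R : RH Γ η v f) (j : ℤ) : 3 ≤ G.nn j := by
  have r := H.vf.toRows
  by_contra c
  have := r.n2 j
  have e1 : Γ.Adj (G.l j 1) (G.l j 0) := H.eΓ ▸ (r.adj j 1 0).2 (Or.inr rfl)
  have e2 : Γ.Adj (G.l j 1) (G.l j 2) := H.eΓ ▸ (r.adj j 1 2).2 (Or.inl rfl)
  have k := congrArg G.ρ (R.d1.nb_orb e1 e2 (by
    show (tr G.w (G.l j 0)).1 = _
    rw [r.lw, show 0 + G.nn j = 2 by omega]))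
  rw [r.rho, r.rho] at k
  omega

end Pool.Agent.P.MP_08fd93_co.FR
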