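import Pool.Agent.P.MP_08fd93_co.FN.D1
import Pool.Agent.P.MP_08fd93_co.FK.K9
import Pool.Agent.P.MP_08fd93_co.FT.T2

/-! Tails with a strong side: the plans when every edge of the row zero is good. -/

set_option autoImplicit false

namespace Pool.Agent.P.MP_08fd93_co.FR

open OV PkPrtP FB FZ FN FK FP2 TT TB

variable {J : Type} {G : TD J} {φ : Vx J → Vx J} {v z la lb lc ld s t u e x y : Vx J}
  {b : ℤ × ℤ} {D Y : Set J} {Q : Prop} {E : EJ J} {W : TX J}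

/-- A plan is known as soon as the tops in `Y` are right. -/
def Cl (G : TD J) (φ : Vx J → Vx J) (E : EJ J) (Y : Set J) : Prop :=
  ∀ R, Dir (FT G) (ed E) R → (∀ W : TX J, W.A = AE G E ∪ R → W.Fm = ∅ →
    ∀ e ∈ G.LA, e.1 ∈ Y → Top G φ E W e) → ∃ c, Col1 G.Γ ∅ c

section

variable (h : TQ G v z la lb lc ld) (H : FA.LB (FT G) (XT G) G.Pr φ b)
include h H

/-- The rows one and two are chosen, the pin `u` of the row two starts one flow. -/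
theorem cs_sys (hu : u ∈ G.L 2) (nu : ¬ Chd G u) : ∃ x ∈ G.L 0, ¬ Chd G x ∧
    (G.η b = 2 → x.1 = u.1) ∧ ∀ A B Y, FA.Rw (FT G) 1 A → FA.Rw (FT G) 2 B → B.Pn ⊆ {u.1} →
      Lk (FT G) (Ar (FT G) φ (K1 G φ)) 1 A.Pn B Y → ∃ E, FA.Pin (FT G) E 0 {x.1} ∧
        FA.Agr (FT G) E 1 A ∧ FA.Agr (FT G) E 2 B ∧
          Sy (FT G) (Ar (FT G) φ (K1 G φ)) E (RowO (FT G) 1 ∪ Y) := by
  have hF := H.lay
  have b2 := H.b2
  have l0 : ∀ S A Y, Lk (FT G) (Ar (FT G) φ (K1 G φ)) 0 S A (RowO (FT G) 1 ∪ Y) := fun S A Y =>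
    (lk_row (S := S)).mono subset_rfl Set.subset_union_left
  by_cases c : (FT G).η b = 2
  · refine ⟨tr (-b) u, (hF.ltr b _ _).1 (by rwa [tr_neg', c]), fun k => nu ((chd_tr h _ u).1 k),
      fun _ => rfl, fun A B Y r1 r2 pn lk => ?_⟩
    have r0 := r2.mv hF (-b)
    rw [map_neg, c, add_neg_cancel] at r0
    obtain ⟨E, a0, a1, k⟩ := sy_two H (ar_inv hF H.ph) c r0 r1 (l0 _ _ Y)
      (lk.mono subset_rfl Set.subset_union_right)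
    have a2 := a0.mv hF b
    rw [c, zero_add] at a2
    exact ⟨E, fun y hy m => pn (a0.pin y hy m), a1, a2, k⟩
  obtain ⟨m, hm⟩ : ∃ m : ℕ, (FT G).η b = m + 1 := ⟨((FT G).η b - 1).toNat, by omega⟩
  obtain ⟨g, g1, -, fin⟩ := sy_flow1 (K := K1 G φ) H (k0 := 2) hm (by omega)
    (C := fun _ _ => True) hu trivial fun k _ _ s _ _ =>
      let ⟨y, a, n, _⟩ := H.off (k + 1 : ℕ) (φ s) (φ s)
      ⟨y, a, n, trivial⟩
  obtain ⟨p, p1, p2⟩ := H.wrap hm (by exact_mod_cast H.up g1)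
  obtain ⟨x, x1, x2, x3⟩ := H.off 0 p (G.xl z)
  refine ⟨x, x1, fun k => x3 (h.chd_iff.1 k).2, fun k => absurd k c, fun A B Y r1 r2 pn lk => ?_⟩
  obtain ⟨E, a, -, -, k⟩ := fin
    (fun k => Nat.casesOn k (FA.r1 x p) fun k => Nat.casesOn k A fun _ => B) (RowO (FT G) 1 ∪ Y)
    (by rintro (_ | _ | _ | k) c; exacts [H.rw1 x1 ⟨p, p1, rfl⟩ x2, r1, r2, by omega]) pn
    (by
      rintro (_ | _ | k) c
      exacts [l0 _ _ Y, lk.mono subset_rfl Set.subset_union_right, by omega])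
    (lk1 (B := FA.r1 x p) hF H.ph (hF.la g1) (Or.inr (Or.inl p2.symm)))
  exact ⟨E, FA.r1_pn x p ▸ (a 0 (by omega)).pin, a 1 (by omega), a 2 le_rfl, k⟩

variable (col : ∀ (E : EJ J) (W : TX J), TK G φ z E W → ∃ c, Col1 G.Γ ∅ c)
  (C : Cert G φ s t D Q)
include col C

theorem cs_cl (hx : x ∈ G.L 0) (xD : x.1 ∈ D) (p0 : FA.Pin (FT G) E 0 {x.1}) (ps : s.1 ∈ E.Pn)
    (kt : t.1 ∈ E.Sk) (pt : t.1 ∈ E.Ps ∨ (Nw G φ E t ∧ (Q → x.1 = (φ t).1)))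
    (S : Sy (FT G) (Ar (FT G) φ (K1 G φ)) E (RowO (FT G) 1 ∪ Y)) : Cl G φ E Y := by
  intro R dR top
  obtain ⟨fl, jv, fa, fd, fb, fc, row⟩ := C.row x hx xD
  obtain ⟨a1, b1, c1, d1, -⟩ := h.ord
  have nc : G.xl z ≠ G.xr z → (G.xl z).1 ∉ E.Pn := fun n m =>
    C.nc x hx xD (h.chd_iff.2 ⟨n, (p0 _ h.feet.1.1 m).symm⟩)
  refine col E ⟨fl, jv, .no, AE G E ∪ R, ∅, ∅, ∅⟩ ⟨S.dis, fun _ k => k.elim, fun _ k => k.elim,
    fun j => (S.rw j).ne.imp (fun ⟨m, a, c⟩ => ⟨m, a, c, id⟩) fun c => ⟨c, fun _ _ => id⟩,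
    ori_dir H.lay (fun j => (S.rw j).alt) dR, Or.inl fa, fb.imp_right Or.inl,
    fc.imp_right Or.inl, Or.inl fd,
    fun n => ⟨fun c => nc n (Or.inl c), nofun, nofun, fun c => by rcases c with c | c <;> cases c⟩,
    keepL_a fa, keepR_d fd, tops h H.ph S (fun n c => nc n (Or.inr c))
      (fun _ => Or.inl ⟨_, a1, rfl⟩) (fun _ => Or.inl ⟨_, b1, rfl⟩) (fun _ => Or.inl ⟨_, c1, rfl⟩)
      (fun _ => Or.inl ⟨_, d1, rfl⟩) fun e he m => ?_⟩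
  exact m.elim (row E _ rfl rfl ps (Or.inl ⟨p0, kt, pt⟩) e he) (top _ rfl rfl e he)

variable (all : ∀ g ∈ G.L 0, g.1 ∈ D ∨ Chd G g)
include all

/-- one flow -/
theorem cs_one (k : (φ s).1 ≠ (φ t).1 ∨ Chd G (φ t)) : ∃ c, Col1 G.Γ ∅ c := by
  have hF := H.lay
  have s2 : φ s ∈ G.L 2 := H.up (k := 1) C.hs
  have t2 : φ t ∈ G.L 2 := H.up (k := 1) C.ht
  obtain ⟨u, u1, u2, u3, u4⟩ : ∃ u ∈ G.L 2, ¬ Chd G u ∧ u.1 ≠ (φ s).1 ∧
      (¬ Chd G (φ t) → u = φ t) := by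
    by_cases c : Chd G (φ t)
    · obtain ⟨u, a, n, n'⟩ := H.off 2 (φ s) (φ t)
      exact ⟨u, a, fun o => n' ((h.chd_iff.1 o).2.trans (h.chd_iff.1 c).2.symm), n,
        fun o => absurd c o⟩
    · exact ⟨_, t2, c, (k.resolve_right c).symm, fun _ => rfl⟩
  obtain ⟨x, x1, x2, x3, sys⟩ := cs_sys h H u1 u2
  obtain ⟨E, p0, a1, a2, S⟩ := sys (FA.r1 s t) (FA.r1 u (φ s)) ∅ (H.rw1 C.hs ⟨t, C.ht, rfl⟩ C.ne)
    (H.rw1 u1 ⟨_, s2, rfl⟩ u3) (FA.r1_pn _ _).subset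
    (FA.r1_pn s t ▸ lk1 hF H.ph (hF.la C.hs) (Or.inr (Or.inl rfl)))
  refine cs_cl h H col C x1 ((all x x1).resolve_right x2) p0 (Or.inl ((a1 s C.hs).1.2 rfl))
    ((a1 t C.ht).2.1.2 rfl) (Or.inr ⟨Or.inl ⟨1, sta_pin ?_⟩, fun q => ?_⟩) S ∅ Dir.empty
    fun _ _ _ _ _ m => m.elim
  · by_cases c : Chd G (φ t)
    exacts [Or.inr c, Or.inl (Or.inl ((a2 _ t2).1.2 (u4 c ▸ rfl)))]
  · obtain ⟨⟨a, q1⟩, q2⟩ := C.hq q
    have d : (FT G).η b ∣ 2 := q1 ▸ H.bd a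
    exact u4 q2 ▸ x3 (le_antisymm (Int.le_of_dvd (by decide) d) H.b2)

/-- two pins under one edge -/
theorem cs_two (k : (φ s).1 = (φ t).1) (n : ¬ Chd G (φ s)) : ∃ c, Col1 G.Γ ∅ c := by
  have hF := H.lay
  have hφ := H.ph
  have R := h.rows
  have s2 : φ s ∈ G.L 2 := H.up (k := 1) C.hs
  have sl := R.la s2
  have f2 : G.f (φ s) = 2 := hF.lf _ _ s2
  obtain ⟨n1, -, -⟩ := R.nx_mem s2
  have par : ∀ y ∈ G.L 1, (φ s).1 ≠ y.1 := fun y hy e => by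
    have := R.wp.per ((φ s).2 - y.2) y
    rw [← FZ.orb_eq e, f2, R.uw.lf _ _ hy] at this
    obtain ⟨r, hr⟩ := R.wp.ev ((φ s).2 - y.2)
    omega
  have nch : ∀ y ∈ G.L 1, ¬ Chd G y := fun y hy c => by
    have e := (h.chd_iff.1 c).2
    have := R.wp.per (y.2 - (G.xl z).2) (G.xl z)
    rw [← FZ.orb_eq e, R.uw.lf _ _ h.feet.1.1, R.uw.lf _ _ hy] at this
    obtain ⟨r, hr⟩ := R.wp.ev (y.2 - (G.xl z).2)
    omega
  obtain ⟨p, p1, p2, p3⟩ : ∃ p ∈ G.L 1, p.1 = t.1 ∧ φ p = φ s := by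
    have e : φ (tr ((φ s).2 - (φ t).2) t) = φ s := by
      rw [hφ.eqv _ _ (R.la C.ht)]
      exact (FZ.orb_eq k).symm
    have l := (hF.la_tr ((φ s).2 - (φ t).2) t).2 (R.la C.ht)
    have := hφ.lev hF l
    rw [e, show (FT G).f (φ s) = 2 from f2] at this
    exact ⟨tr ((φ s).2 - (φ t).2) t, (show (FT G).f (tr ((φ s).2 - (φ t).2) t) = 1 by omega) ▸ l,
      rfl, e⟩
  have m1 := pe_row h.st hφ (R.la C.hs) rfl (nch s C.hs)
  have m2 := pe_row h.st hφ (R.la p1) p3 (nch p p1)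
  obtain ⟨a1, b1, c1, d1, -⟩ := h.ord
  have key : ∀ u ∈ G.L 2, ¬ Chd G u → ∀ B, FA.Rw (FT G) 2 B → B.Pn ⊆ {u.1} → ∃ E,
      FA.Agr (FT G) E 2 B ∧ Cl G φ E {(φ s).1} ∧ Nw G φ E (φ s) ∧
        ∀ fl, SST G (Pin G E) fl (φ s) ⊆ {s(s, G.nx s), s(p, G.nx p)} := fun u u1 u2 B r pn => by
    obtain ⟨x, x1, x2, -, sys⟩ := cs_sys h H u1 u2
    obtain ⟨E, p0, e1, e2, S⟩ := sys (FA.r2 s t t) B {(φ s).1}
      (H.rw2 C.hs ⟨t, C.ht, rfl⟩ C.ne C.ne) r pn (lk2 hF hφ (R.la C.hs) (R.la C.ht) (Or.inl rfl)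
        (Or.inl k.symm) fun _ => Or.inr (Or.inl rfl))
    have ps : s.1 ∈ E.Pn := Or.inl ((e1 s C.hs).1.2 rfl)
    have pt : t.1 ∈ E.Ps := (e1 t C.ht).2.2.2 rfl
    refine ⟨E, e2, cs_cl h H col C x1 ((all x x1).resolve_right x2) p0 ps
      ((e1 t C.ht).2.1.2 rfl) (Or.inl pt) S, nw_of h.st hφ sl fun g g1 g2 g3 => ?_, fun fl => ?_⟩
    · obtain ⟨y, y1, y2, -⟩ := Per.pre hF hφ g1 g3
      have i1 := hφ.lev hF g1
      have i2 := hφ.lev hF y1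
      rw [g2, show (FT G).f (φ s) = 2 from f2] at i1
      rw [y2] at i2
      have y0 : y ∈ G.L 0 := (show (FT G).f y = 0 by omega) ▸ y1
      have := C.arr y y0 (all y y0)
      rw [y2] at this
      exact TT.sta_pn (this.elim (fun o => o ▸ ps) fun o => o ▸ Or.inr pt)
    · refine TB.ss_row h hφ e1.pin s2 (fun g g1 g2 g3 _ => ?_)
        (fun _ _ q => absurd (by rw [q]; rfl) (par _ a1))
        (fun _ _ q => absurd (by rw [q]; rfl) (par _ b1))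
        (fun _ _ q => absurd (by rw [q]; rfl) (par _ c1))
        fun _ _ q => absurd (by rw [q]; rfl) (par _ d1)
      rcases g2 with o | o
      exacts [Or.inl (by rw [hφ.inj1 (R.la g1) o g3]),
        Or.inr (by rw [hφ.inj1 (R.la g1) (o.trans p2.symm) (g3.trans p3.symm)]; rfl)]
  rcases Int.even_or_odd (G.nn 2) with ev | od
  · obtain ⟨E, a, cl, -, sub⟩ := key _ s2 n _ (FA.rw_p {(φ s).1} ev) (FA.rp_pn _).subset
    have pn : φ s ∈ Pin G E := Or.inl (Or.inr ((a _ s2).2.2.2 rfl))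
    obtain ⟨X', P, r, o, O⟩ := h.st.eb_ex sl m1 m2
    have fin : ∀ W : TX J, Py G E W (φ s) r → ∀ e ∈ G.LA, e.1 ∈ ({(φ s).1} : Set J) →
        Top G φ E W e := fun W py e _ m => (Tq.orb h hφ sl (Eq.symm m) (Tq.spt
      (Or.inr (Or.inr (Or.inl ⟨sta_pin pn, _, X', P, r, sub _, py, O⟩))))).top
    rcases o with o | o
    · refine cl {y | ∃ c, y ∈ G.L (2 + G.η c)} ⟨?_, ?_, ?_⟩ fun W w _ => fin W
        (Or.inr (Or.inl ⟨o, w ▸ Or.inr ⟨0, by rwa [map_zero, add_zero]⟩, Or.inl n, Or.inl pn⟩))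
      · rintro c y ⟨c', m⟩
        exact ⟨c' + c, by rw [map_add, ← add_assoc]; exact (hF.ltr c _ y).2 m⟩
      · rintro j y hy y' hy' ⟨c, m⟩
        exact ⟨c, ((hF.lf _ _ hy).symm.trans (hF.lf _ _ m)) ▸ hy'⟩
      · rintro y ⟨c, m⟩ o
        exact (a.mv hF c y m).2.1.1 o
    · refine cl ∅ Dir.empty fun W w _ => fin W
        (Or.inr (Or.inr ⟨o, ?_, Or.inl n, Or.inl pn⟩))
      rw [w]
      rintro (⟨i, m, -⟩ | m)
      · have := (sh_mem hF (G.nx (φ s)) i).1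
        rw [hF.lf _ _ n1] at this
        exact (a _ this).2.1.1 m
      · exact m
  · obtain ⟨u, u1, u2, u3, u4⟩ : ∃ u ∈ G.L 2, ¬ Chd G u ∧ u.1 ≠ (φ s).1 ∧
        (¬ Chd G (G.nx (φ s)) → u = G.nx (φ s)) := by
      by_cases c : Chd G (G.nx (φ s))
      · obtain ⟨u, a, o, o'⟩ := H.off 2 (φ s) (G.xl z)
        exact ⟨u, a, fun q => o' (h.chd_iff.1 q).2, o, fun q => absurd c q⟩
      · exact ⟨_, n1, c, (H.three s2).2.1, fun _ => rfl⟩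
    obtain ⟨E, a, cl, nw, sub⟩ := key u u1 u2 _ (H.rw1 u1 ⟨_, s2, rfl⟩ u3) (FA.r1_pn _ _).subset
    refine cl ∅ Dir.empty fun W _ w e _ m => (Tq.orb h hφ sl (Eq.symm m) (Tq.spt (Or.inr (Or.inr
      (Or.inr (Or.inr (Or.inr (Or.inl ⟨⟨_, m1, _, m2, sub _⟩, Or.inr ⟨Or.inr ⟨f2 ▸ od,
        fun y hy => ⟨(a y (f2 ▸ hy)).2.1.1, w ▸ id⟩⟩, f2 ▸ even_two,
        (vt_pin (R.la n1) ?_).1, nw⟩⟩)))))))).top
    by_cases c : Chd G (G.nx (φ s))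
    exacts [Or.inr c, Or.inl (Or.inl ((a _ n1).1.2 (u4 c ▸ rfl)))]

end

theorem cs_of (col : ∀ (J : Type) [Fintype J] (G : TD J) (φ : Vx J → Vx J)
    (v z la lb lc ld : Vx J) (E : EJ J) (Y : TX J), TQ G v z la lb lc ld → PH (FT G) G.Pr φ →
      TK G φ z E Y → ∃ c, Col1 G.Γ ∅ c) : S_CS := by
  rintro J _ G φ v z la lb lc ld h - hφ ⟨s, t, D, Q, C, all⟩
  obtain ⟨b, H⟩ := tq_lb h hφ
  have cl := fun E W => col J G φ v z la lb lc ld E W h hφ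
  by_cases c : (φ s).1 ≠ (φ t).1 ∨ Chd G (φ t)
  · exact cs_one h H cl C all c
  · rw [not_or, not_not] at c
    exact cs_two h H cl C all c.1 fun o => c.2 (TB.chd_orb h c.1 o)

end Pool.Agent.P.MP_08fd93_co.FR
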