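import Pool.Agent.P.MP_08fd93_co.FN.D2
import Pool.Agent.P.MP_08fd93_co.FR.St1
import Pool.Agent.P.MP_08fd93_co.FP.P1

/-! Short tails: both neighbours of the children on the row see the head. -/

set_option autoImplicit false

namespace Pool.Agent.P.MP_08fd93_co.FR

open OV PkPrtP FB FZ FN FK FP2 TT TB FP

variable {J : Type} {G : TD J} {φ : Vx J → Vx J} {v z la lb lc ld l g x y : Vx J}

/-- The edges of the row zero under the two side edges. -/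
def DV (G : TD J) (φ : Vx J → Vx J) (la ld : Vx J) : Set J :=
  {i | ∃ y ∈ G.L 0, y.1 = i ∧ ¬ Chd G y ∧ (φ y = la ∨ φ y = ld)}

section

variable (h : TQ G v z la lb lc ld) (hφ : PH (FT G) G.Pr φ)
include h hφ

theorem vv_rep (hg : g ∈ G.L 0) (hl : l ∈ G.L 1) (e : (φ g).1 = l.1) :
    ∃ y ∈ G.L 0, y.1 = g.1 ∧ φ y = l := by
  have hF := h.st.lay
  have q : φ (tr (l.2 - (φ g).2) g) = l := by
    rw [hφ.eqv _ _ (hF.la hg)]
    exact (FZ.orb_eq e.symm).symm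
  have m := (hF.la_tr (l.2 - (φ g).2) g).2 (hF.la hg)
  have := hφ.lev hF m
  rw [q, hF.lf _ _ hl] at this
  exact ⟨tr (l.2 - (φ g).2) g, (show (FT G).f (tr (l.2 - (φ g).2) g) = 0 by omega) ▸ m, rfl, q⟩

/-- the chord lies under the right top edge -/
theorem phi_chd (n : G.xl z ≠ G.xr z) : φ (G.xl z) = ld := by
  have R := h.rows
  obtain ⟨⟨f0, -⟩, -, f2, -⟩ := h.feet
  obtain ⟨p1, -, p2⟩ := h.phi hφ f0
  have d1 := h.ord.2.2.2.1
  obtain ⟨n1, n2, -⟩ := R.nx_mem d1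
  have m := (h.st.tf.mono d1 (h.st.pr _) n1 (h.st.pr _) (by omega)).resolve_left h.hd.1.2.2
  rw [(h.x_nk h.hd.2).2, f2.resolve_left n.symm, (R.nx_mem f0).2.1] at m
  exact R.inj p1 d1 (le_antisymm
    (h.st.phi_le hφ h.hd.1.1 (by rwa [R.uw.lf _ _ d1]) (by omega)) (p2 le_rfl))

variable (c : LC G v z la) (a : G.Γ.Adj la v) (d : G.an ld = v) (a' : G.Γ.Adj (G.nx ld) v)
include c a d a'

theorem vv_cert : Cert G φ la ld (DV G φ la ld) False := by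
  have R := h.rows
  have hF := h.st.lay
  have hP := hF.fine.pl
  obtain ⟨a1, b1, c1, d1, l1, -, l3, -⟩ := h.ord
  obtain ⟨n1, n2, -⟩ := R.nx_mem a1
  obtain rfl : lb = la := R.inj b1 a1 (by have := ((h.an_iff n1).1 c.kid).1; omega)
  obtain rfl : lc = ld := R.inj c1 d1 (by have := ((h.an_iff d1).1 d).2; omega)
  have ne : lb.1 ≠ lc.1 := fun e => c.rung (by
    rw [FZ.orb_eq e, h.st.tf.atr, d]
    exact h.st.tf.vtr _ _ h.vV)
  have off : ∀ g ∈ G.L 0, g.1 ∉ DV G φ lb lc → ¬ Chd G g → (φ g).1 ≠ lb.1 ∧ (φ g).1 ≠ lc.1 :=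
    fun g hg n k => ⟨fun e => let ⟨y, y1, y2, y3⟩ := vv_rep h hφ hg a1 e
      n ⟨y, y1, y2, fun o => k (TB.chd_orb h y2 o), Or.inl y3⟩,
      fun e => let ⟨y, y1, y2, y3⟩ := vv_rep h hφ hg d1 e
      n ⟨y, y1, y2, fun o => k (TB.chd_orb h y2 o), Or.inr y3⟩⟩
  refine ⟨a1, d1, ne, ⟨_, c.a0 h, _, c.a0 h, rfl, (c.phi h hφ (c.a0 h) le_rfl c.lt).symm.imp_right
    Or.inl⟩, fun x _ ⟨y, _, e, n, _⟩ o => n (TB.chd_orb h e.symm o), fun g hg n k =>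
    (off g hg n k).1, fun g hg k => ?_, False.elim, ?_⟩
  · rcases k with ⟨y, y1, e, -, k⟩ | k
    · rw [← hφ.fst (R.la y1) e]
      exact k.imp (congrArg _) (congrArg _)
    · obtain ⟨n, e⟩ := h.chd_iff.1 k
      exact Or.inr (phi_chd h hφ n ▸ hφ.fst (R.la hg) e)
  rintro x - ⟨y, y1, e, n, k⟩
  obtain ⟨p1, p2, p3, p4⟩ := h.pe
  obtain ⟨jv, f, f', j1, j2, m, m', k1, k2⟩ : ∃ jv : Jb, ∃ f f', (φ y = lc ∨ jv = .b) ∧
      (φ y = lb ∨ jv = .c) ∧ f ∈ PE G.Γ (Bd G lb).X ∧ f' ∈ PE G.Γ (Bd G lc).X ∧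
      (φ y = lb → f = s(y, G.nx y) ∧ f' = s(v, z)) ∧
      (φ y = lc → f = s(v, z) ∧ f' = s(y, G.nx y)) := by
    rcases k with k | k
    exacts [⟨.b, _, _, Or.inr rfl, Or.inl k, pe_row h.st hφ (R.la y1) k n, p3, fun _ => ⟨rfl, rfl⟩,
        fun o => absurd (congrArg _ (k.symm.trans o)) ne⟩,
      ⟨.c, _, _, Or.inl k, Or.inr rfl, p2, pe_row h.st hφ (R.la y1) k n,
        fun o => absurd (congrArg _ (o.symm.trans k)) ne, fun _ => ⟨rfl, rfl⟩⟩]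
  refine ⟨⟨True, φ y = lc, φ y = lb, True⟩, jv, trivial, trivial, j1, j2,
    fun E Y ex _ ps alt => tops_of h hφ ?_⟩
  obtain ⟨g, P, g1, t1⟩ : ∃ g : Vx J, FA.Pin (FT G) E 0 {y.1, g.1} ∧ (g.1 = y.1 ∨ (g ∈ G.L 0 ∧
      ((φ g).1 ≠ lb.1 ∧ (φ g).1 ≠ lc.1) ∧ (φ g).1 ∈ E.Sk)) ∧
      (lc.1 ∈ E.Ps ∨ (lc.1 ∈ E.Sk ∧ Nw G φ E lc)) := by
    rcases alt with ⟨P, s, o⟩ | ⟨g, g1, g2, g3, P, s, o⟩
    exacts [⟨y, fun u hu q => Or.inl ((P u hu q).trans e.symm), Or.inl rfl,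
      o.imp_right fun o => ⟨s, o.1⟩⟩, ⟨g, e ▸ P, Or.inr ⟨g1, off g g1 g2 g3, s⟩, Or.inl o⟩]
  have z0 : ∀ {l : Vx J} {b : ℤ × ℤ}, l = tr b l → b = 0 := fun {l b} q =>
    tr_eq_tr (q.symm.trans (tr_zero l).symm)
  have pin : ∀ u ∈ G.L 0, u.1 ∈ ({y.1, g.1} : Set J) → φ u = lb ∨ φ u = lc → u.1 = y.1 :=
    fun u hu q o => q.elim id fun q => g1.elim q.trans fun r => by
      have := hφ.fst (R.la hu) q
      rcases o with o | o
      exacts [absurd (o ▸ this).symm r.2.1.1, absurd (o ▸ this).symm r.2.1.2]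
  have uni : ∀ u ∈ G.L 0, u.1 = y.1 → φ u = lb ∨ φ u = lc → u = y := fun u hu q o => by
    have := hφ.fst (R.la hu) q
    refine hφ.inj1 (R.la hu) q ?_
    rcases o with o | o <;> rcases k with k | k <;> rw [o, k] at this ⊢
    exacts [absurd this ne, absurd this.symm ne]
  have sL : SST G (Pin G E) Y.x lb ⊆ {s(z, G.xl z), f} := ex ▸ TB.ss_row h hφ P a1
    (fun u hu q o _ => by
      obtain rfl := uni u hu (pin u hu q (Or.inl o)) (Or.inl o)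
      exact Or.inr (k1 o).1.symm)
    (fun _ _ q => by rw [z0 q, tr_zero, tr_zero]; exact Or.inl rfl)
    (fun o _ q => by rw [z0 q, tr_zero, tr_zero]; exact Or.inr (k2 o).1.symm)
    (fun _ _ q => absurd (by rw [q]; rfl) ne) fun _ _ q => absurd (by rw [q]; rfl) ne
  have sR : SST G (Pin G E) Y.x lc ⊆ {s(z, G.xr z), f'} := ex ▸ TB.ss_row h hφ P d1
    (fun u hu q o _ => by
      obtain rfl := uni u hu (pin u hu q (Or.inr o)) (Or.inr o)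
      exact Or.inr (k2 o).2.symm)
    (fun _ _ q => absurd (by rw [q]; rfl) ne.symm) (fun _ _ q => absurd (by rw [q]; rfl) ne.symm)
    (fun o _ q => by rw [z0 q, tr_zero, tr_zero]; exact Or.inr (k1 o).2.symm)
    fun _ _ q => by rw [z0 q, tr_zero, tr_zero]; exact Or.inl rfl
  rintro _ ⟨e, he, rfl⟩
  by_cases eL : lb.1 = e.1
  · exact ⟨lb, R.la a1, eL, tq_free sL (TB.sta_pn ps) (oxV hP (all_T _ _ hP) (h.st.bd_disc (R.la a1))
      (h.st.bd_st (R.la a1)) (Or.inr (c.b h ▸ a.symm)) p1 m)⟩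
  by_cases eR : lc.1 = e.1
  · have D := h.st.bd_disc (R.la d1)
    have av : G.Γ.Adj (G.an lc) (G.nx lc) := d ▸ a'.symm
    refine ⟨lc, R.la d1, eR, t1.elim (fun o => tq_free sR (TB.sta_pn (Or.inr o))
      (oxV hP (all_T _ _ hP) D (h.st.bd_st (R.la d1)) (Or.inl av) p4 m')) fun o =>
      Tq.spt (spt_sp h.st (Or.inl o.1) o.2 sR ⟨p4, m', _, Or.inr D.py.hb, _, D.px.ha, _, D.px.hb,
        av.symm, D.rb.symm, fun u q => ?_⟩)⟩
    have := q.elim (PE.ends p4) (PE.ends m')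
    exact ⟨D.px.lo u this, D.px.hi u this⟩
  refine ⟨e, R.la he, rfl, ?_⟩
  have key : ∀ T, (∀ u ∈ G.L 0, u.1 = g.1 → φ u = e → e.1 ∈ E.Sk → s(u, G.nx u) ∈ T) →
      SST G (Pin G E) Y.x e ⊆ T := fun T o => TB.ss_row h hφ P he
    (fun u hu q r _ => by
      have w : u.1 ≠ y.1 := fun w => by
        have := hφ.fst (R.la hu) w
        rcases k with k | k <;> rw [r, k] at this
        exacts [eL this.symm, eR this.symm]
      have q := q.resolve_left w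
      exact o u hu q r (r ▸ hφ.fst (R.la hu) q ▸ (g1.resolve_left fun i => w (q.trans i)).2.2))
    (fun _ _ q => absurd (by rw [q]; rfl) eL) (fun _ _ q => absurd (by rw [q]; rfl) eL)
    (fun _ _ q => absurd (by rw [q]; rfl) eR) fun _ _ q => absurd (by rw [q]; rfl) eR
  by_cases o : ∃ u ∈ G.L 0, u.1 = g.1 ∧ φ u = e ∧ e.1 ∈ E.Sk
  · obtain ⟨u, -, u2, u3, u4⟩ := o
    exact tq_one (key {s(u, G.nx u)} fun w hw q r _ => by
      rw [hφ.inj1 (R.la hw) (q.trans u2.symm) (r.trans u3.symm)]; rfl) (Or.inl u4)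
  · exact Or.inl (key _ fun u a1 a2 a3 a4 => o ⟨u, a1, a2, a3, a4⟩)

end

theorem vv (cs : S_CS) (cx : S_CX) : S_VV := by
  rintro J _ G φ v z la lb lc ld h s hφ ⟨c, a, d, -, a'⟩
  have C := vv_cert h hφ c a d a'
  by_cases k : ∀ g ∈ G.L 0, g.1 ∈ DV G φ la ld ∨ Chd G g
  · exact cs J G φ v z la lb lc ld h s hφ ⟨_, _, _, _, C, k⟩
  · simp only [not_forall, not_or] at k
    obtain ⟨g, g1, g2⟩ := k
    exact cx J G φ v z la lb lc ld h s hφ ⟨_, _, _, _, C, g, g1, g2⟩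

theorem cs : S_CS := cs_of fun _ _ _ _ _ _ _ _ _ _ _ _ h hφ H => H.col h hφ

theorem leaf_vv : S_VV := vv cs cx

end Pool.Agent.P.MP_08fd93_co.FR
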