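import Pool.Agent.P.MP_08fd93_co.FR.Ear0
import Pool.Agent.P.MP_08fd93_co.FT.NT
import Pool.Agent.P.MP_08fd93_co.FZ.E3
import Pool.Agent.P.MP_08fd93_co.FZ.Asm

/-! Depth one: an ear among ears. -/

set_option autoImplicit false

namespace Pool.Agent.P.MP_08fd93_co.FR

open OV FZ PkDNP

variable {J : Type} {G : VD J} {f : Vx J → ℤ} {v l r g x y z p p' : Vx J} {φ : Vx J → Vx J}
  {j : ℤ}

/-- The raised frame of an ear among ears. -/
structure EF (G : VD J) (f : Vx J → ℤ) (v : Vx J) : Prop where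
  hG : Good G.Γ
  hN : Nrm (OV.DL G.Γ)
  R : RH G.Γ G.η v f
  E : Ear G.Γ G.η v
  A : AllEar G.Γ G.η
  a1 : An1 G.Γ f v G.an
  H : Fr1 G.Γ G.η f v G.an G

theorem EF.mir (h : EF G f v) : EF (mir G) f v :=
  ⟨h.hG, h.hN, h.R, h.E, h.A, h.a1, fr1_mir h.H⟩

theorem EF.chg (h : EF G f v) {an : Vx J → Vx J} (A : An1 G.Γ f v an) : EF (chg G an) f v :=
  ⟨h.hG, h.hN, h.R, h.E, h.A, A, fr1_chg h.H h.R h.a1 A⟩

/-- an edge under a translate of the edge at the right foot -/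
theorem phi_off (h : ER G v l r) (hφ : FK.PH (FN.FL G) G.Pr φ) (hg : g ∈ G.L j)
    (e : (φ g).1 = (G.xr v).1) : ∃ b, G.η b = j + 1 ∧ G.ρ (tr b (G.an (G.xr v))) ≤ G.ρ g ∧
      G.ρ g < G.ρ (tr b (G.an (G.nx (G.xr v)))) := by
  have V := h.sv.vf
  obtain ⟨a1, a2, a3⟩ := h.phi hφ hg
  have f1 := h.rows.uw.lf _ _ a1
  rw [orb_eq e] at f1 a2 a3
  rw [h.rows.wp.per, h.rows.uw.lf _ _ h.xr0.1, zero_add] at f1
  rw [V.atr, (V.xtr _ _).1, (h.an0 h.xr0.1).2.2] at a2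
  rw [h.rows.nx_tr _ h.xr0.1, V.atr, (V.xtr _ _).1, (h.an0 (h.rows.nx_mem h.xr0.1).1).2.2] at a3
  exact ⟨_, f1, a2, a3⟩

section

variable (h : EF G f v)
include h

theorem EF.rows : Rows G.toFD := h.H.vf.toRows

theorem EF.er : ∃ l r, ER G v l r := by
  obtain ⟨l, l1, l2, l3⟩ := ((FN.sv_of h.H h.R (Or.inr h.E)).side_ex h.H.vk).2
  rw [h.H.fv h.R] at l1
  exact ⟨l, er_of h.hG h.H h.R h.E l1 l3 (l3 ▸ l2.2.2)⟩

theorem EF.ph : ∃ φ, FK.PH (FN.FL G) G.Pr φ :=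
  FK.ph_ex (FN.sv_of h.H h.R (Or.inr h.E)).lay h.H.vf.pne

theorem EF.lf (hx : x ∈ G.L j) : f x = j :=
  (h.H.nk (h.H.vf.l_nk hx)).symm.trans (h.rows.uw.lf j x hx)

theorem EF.rf (hx : x ∈ G.L j) : rais f v x = j := h.H.ef ▸ h.rows.uw.lf j x hx

theorem EF.xl : G.xl v ∈ G.L 0 := ((h.H.flat h.R).1 (h.H.foot0 h.R).1).1

theorem EF.xr : G.xr v ∈ G.L 0 := ((h.H.flat h.R).1 (h.H.foot0 h.R).2.1).1

theorem EF.ear : G.ρ (G.xr v) = G.ρ (G.xl v) + 1 ∧ G.Γ.Adj (G.xl v) (G.xr v) :=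
  h.H.ear h.R h.E h.H.vk

/-- the parents of the vertices of the row zero -/
theorem EF.par (hx : x ∈ G.L 0) (e : G.Γ.Adj x p) (hp : f p = -1) : p ∈ G.L (-1) := by
  have n : p ∉ G.K := fun k => by
    obtain ⟨a, rfl⟩ := h.H.k_tr k
    rw [h.R.per, h.R.root] at hp
    obtain ⟨m, hm⟩ := h.rows.wp.ev a
    omega
  exact par_l h.rows (j := 0) rfl hx e ((h.H.nk n).trans hp)

theorem EF.o1 : (G.nx (G.xr v)).1 ≠ (G.xr v).1 ∧ (G.nx (G.xr v)).1 ≠ (G.xl v).1 := by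
  obtain ⟨n1, n2, n3⟩ := h.rows.nx_mem h.xr
  refine ⟨(h.R.d1.adj_orb n3).symm, fun k => ?_⟩
  have := congrArg G.ρ (h.R.d1.nb_orb n3 h.ear.2.symm k)
  have := h.ear.1
  omega

/-- a vertex of the row one that sees the root and its left foot -/
theorem EF.zl (hz : z ∈ G.L 1) (zv : G.Γ.Adj v z) (zx : G.Γ.Adj z (G.xl v)) :
    G.an (G.nx z) = v := by
  have fv := h.H.fv h.R
  obtain ⟨a, ha, b, hb, l, -, k⟩ := h.H.kids h.H.vk
  rw [fv] at ha hb k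
  have ea := (k a ha).2 ⟨le_rfl, l⟩
  have eb := (k b hb).2 ⟨l, le_rfl⟩
  obtain ⟨n1, n2, -⟩ := h.rows.nx_mem hz
  have nz : G.an z ≠ v := fun c =>
    (h.H.vf.pure 1 z hz (h.H.pr z) (c.symm ▸ h.H.vk)).1 (c.symm ▸ zx)
  by_cases c : G.ρ z < G.ρ a
  · by_cases c1 : G.ρ (G.nx z) = G.ρ a
    · rwa [h.rows.inj n1 ha c1]
    · exact h.H.link_btw h.H.vk fv hz ha zv.symm (ea ▸ h.a1.adj a) n1 (by omega) (by omega)
  · have : G.ρ b < G.ρ z := by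
      by_contra c1
      exact nz ((k z hz).2 ⟨by omega, by omega⟩)
    refine absurd zx.symm ((h.H.vf.brg hb (h.H.pr b) (Or.inr rfl)).nc h.rows (E := ∅)
      (Set.empty_subset _) Set.finite_empty isConn_empty (Set.empty_disjoint _)
      (Or.inl ⟨h.xl, ?_⟩) (Or.inr ⟨hz, this⟩)).1
    rw [eb]
    exact h.ear.1 ▸ lt_add_one _

/-- One flow. -/
theorem EF.colA [Fintype J] (hz : z ∈ G.L 1) (zv : G.Γ.Adj v z) (zx : G.Γ.Adj z (G.xl v))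
    (hp : p ∈ G.L (-1)) (ep : G.Γ.Adj (G.xr v) p) (hp' : p' ∈ G.L (-1))
    (ep' : G.Γ.Adj (G.nx (G.xr v)) p')
    (q2 : ∀ b, G.η b = 2 → G.ρ (tr b p) ≤ G.ρ z → G.ρ (tr b p') ≤ G.ρ z)
    (q4 : (∀ b, G.η b ≠ 2) → G.ρ p' + 2 ≤ G.ρ p + G.nn (-1)) : ∃ c, Col1 G.Γ ∅ c := by
  have r := h.rows
  have n1 := (r.nx_mem h.xr).1
  have A1 := an1_upa h.R (an1_upa h.R (an1_upa h.R h.a1 ep (by rw [h.rf hp, h.rf h.xr]; rfl)) ep'
    (by rw [h.rf hp', h.rf n1]; rfl)) zx (by rw [h.rf hz, h.rf h.xl]; rfl)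
  have o : ∀ x ∈ G.L 0, x.1 ≠ z.1 := fun x hx =>
    (odd_orb r (by rw [r.uw.lf _ _ hz, r.uw.lf _ _ hx]; rfl)).symm
  set an := upa (upa (upa G.an (G.xr v) p) (G.nx (G.xr v)) p') z (G.xl v)
  have e1 : an z = G.xl v := upa_self
  have e2 : an (G.nx (G.xr v)) = p' := (upa_ne (o _ n1)).trans upa_self
  have e3 : an (G.xr v) = p := (upa_ne (o _ h.xr)).trans ((upa_ne h.o1.1.symm).trans upa_self)
  have h' := h.chg A1
  obtain ⟨t, H⟩ := er_of h'.hG h'.H h'.R h'.E hz (h'.zl hz zv zx)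
    (fun k => (h.H.foot0 h.R).1.1.ne (e1.symm.trans k))
  obtain ⟨φ, hφ⟩ := h'.ph
  have key : ∀ j, ∀ g ∈ G.L j, (φ g).1 = (G.xr v).1 → ∃ b, G.η b = j + 1 ∧
      G.ρ (tr b p) ≤ G.ρ g ∧ G.ρ g < G.ρ (tr b p') := fun j g hg e =>
    e2 ▸ e3 ▸ phi_off H hφ hg e
  refine H.colA hφ zv e1 ?_
  by_cases c : ∃ b, G.η b = 2
  · refine Or.inl ⟨c, fun k => ?_⟩
    obtain ⟨b, b1, b2, b3⟩ := key 1 z hz k
    exact absurd (q2 b b1 b2) (not_le.2 b3)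
  · have c : ∀ b, G.η b ≠ 2 := fun b k => c ⟨b, k⟩
    have q := q4 c
    have n2 := r.n2 (-1)
    have off : ∀ i, G.ρ p - 2 ≤ i → i < G.ρ p → (φ (G.l (-1) i)).1 ≠ (G.xr v).1 := by
      intro i i1 i2 k
      obtain ⟨b, b1, b2, b3⟩ := key _ _ (r.l_mem (-1) i) k
      obtain ⟨m, rfl⟩ := (r.wp.ker b).1 b1
      rw [(r.rho_lw m hp).2, r.rho] at b2
      rw [(r.rho_lw m hp').2, r.rho] at b3
      rcases le_or_gt 0 m with c | c <;> nlinarith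
    exact Or.inr ⟨c, _, r.l_mem (-1) (G.ρ p - 2), _, r.l_mem (-1) (G.ρ p - 1),
      h.R.d1.adj_orb ((r.adj _ _ _).2 (Or.inl (by ring))), off _ le_rfl (by omega),
      off _ (by omega) (by omega)⟩

/-- Two flows. -/
theorem EF.colB [Fintype J] (hg : g ∈ G.L (-1)) (eg : G.Γ.Adj (G.xr v) g)
    (ep : G.Γ.Adj (G.xr v) (G.nx g)) (ep' : G.Γ.Adj (G.nx (G.xr v)) (G.nx g)) :
    ∃ c, Col1 G.Γ ∅ c := by
  have r := h.rows
  have n1 := (r.nx_mem h.xr).1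
  have hp := (r.nx_mem hg).1
  have A1 := an1_upa h.R (an1_upa h.R h.a1 ep (by rw [h.rf hp, h.rf h.xr]; rfl)) ep'
    (by rw [h.rf hp, h.rf n1]; rfl)
  set an := upa (upa G.an (G.xr v) (G.nx g)) (G.nx (G.xr v)) (G.nx g)
  have e2 : an (G.nx (G.xr v)) = G.nx g := upa_self
  have e3 : an (G.xr v) = G.nx g := (upa_ne h.o1.1.symm).trans upa_self
  have h' := h.chg A1
  obtain ⟨l, t, H⟩ := h'.er
  obtain ⟨φ, hφ⟩ := h'.ph
  refine ER.colB (G := FR.chg G an) H hφ (g := g) ⟨hg, Or.inr ⟨e3.symm, eg⟩⟩ fun y hy k => ?_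
  obtain ⟨b, -, b2, b3⟩ := phi_off H hφ hy k
  have b2 : G.ρ (tr b (an (G.xr v))) ≤ G.ρ y := b2
  have b3 : G.ρ y < G.ρ (tr b (an (G.nx (G.xr v)))) := b3
  rw [e3] at b2
  rw [e2] at b3
  omega

/-- a vertex under the row zero sees at most an edge of the row -/
theorem EF.see (hx : x ∈ G.St 0) (hy : y ∈ G.L 0) (hz : z ∈ G.L 0) (ey : G.Γ.Adj x y)
    (ez : G.Γ.Adj x z) : G.ρ z ≤ G.ρ y + 1 := by
  by_contra c
  obtain ⟨l, t, H⟩ := h.er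
  obtain ⟨n1, n2, -⟩ := h.rows.nx_mem hy
  obtain ⟨a1, a2, -⟩ := H.an0 n1
  exact (h.rows.nc (j := 0) a1 n1 a2.symm (E := {x}) (by rintro _ rfl; exact hx) (isConn_single x)
    (Or.inr ⟨hy, by omega⟩) (Or.inr ⟨hz, by omega⟩)).2 ⟨⟨x, rfl, ey.symm⟩, ⟨x, rfl, ez.symm⟩⟩

/-- a parent of the right foot sees a neighbour of the foot on the row -/
theorem EF.side (ep : G.Γ.Adj (G.xr v) p) (hp : f p = -1) :
    G.Γ.Adj (G.nx (G.xr v)) p ∨ G.Γ.Adj (G.xl v) p := by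
  have R := h.R
  have D := R.d1
  have r := h.rows
  have s := (h.H.foot0 R).2.1
  have f0 := R.inn s
  have sp := R.par_sg s ep hp
  obtain ⟨x, ex, sx, -⟩ := h.A.out2 D sp
  have l1 := R.lip _ _ sx.1
  have l2 := R.lip _ _ ex.symm
  by_cases c : f x = -1
  · exact absurd sp (h.A.nt D h.hN sx (R.par_sg s ex c))
  have fx : f x = 0 := by omega
  by_cases xl : x ∈ G.L 0
  · obtain ⟨n1, n2, -⟩ := r.nx_mem h.xr
    have := h.ear.1
    rcases (r.adj_iff h.xr xl).1 ex with k | k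
    · exact Or.inl (r.inj xl n1 (by omega) ▸ sx.1.symm)
    · exact Or.inr (r.inj xl h.xl (by omega) ▸ sx.1.symm)
  exfalso
  have xk : x ∉ G.K := fun k => by
    rw [D.nb_orb ex s.1 ((h.H.eK x).1 k)] at sx
    rcases R.nb sx.1.symm with k | k <;> omega
  have gx : G.f x = 0 := (h.H.nk xk).trans fx
  have xU : x ∈ UU G.Γ f 0 := uu_side (R.root_uu s).2 ex.symm f0.ge fx.ge
  have xS : x ∈ G.St 0 := by
    rcases r.l_nb h.xr ex with k | k | k | k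
    · have := r.uw.lf _ _ k
      omega
    · exact k
    · exact absurd k xl
    · have := r.uw.ge _ _ k
      omega
  have out : ∀ u, Sg G.Γ G.η x u → u ∈ G.L 0 := by
    intro u su
    have l3 := R.lip _ _ su.1
    by_cases c1 : f u = f x + 1
    · exact absurd (fx ▸ h.H.row_of_up ⟨su.1, c1, R.sg_uu su c1⟩ xk) xl
    obtain ⟨e, b, hb⟩ := su
    have w := D.wit e hb
    have l4 := R.dist u (tr b x)
    rw [R.per] at l4
    have fu : f u = 0 := by omega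
    have uk : u ∉ G.K := fun k => by
      obtain ⟨a, rfl⟩ := h.H.k_tr k
      rw [R.per, R.root, zero_add] at fu
      have e' := D.fine.inv (-a) _ _ e.symm
      rw [tr_neg] at e'
      have m := ((h.H.flat R).1 (R.sg0 e' (by rw [R.per, map_neg]; omega))).1
      have := (r.uw.ltr a 0 _).2 m
      rw [tr_neg', fu] at this
      exact xl this
    have an : Anc G.Γ f u (tr b x) := R.anc _ _ _ rfl (by rw [R.per]; omega) (by
      rw [R.per, fx]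
      exact R.uu_tr b xU)
    obtain ⟨t, h1, -⟩ := an.child (by rw [R.per]; omega)
    exact fu ▸ h.H.row_of_up h1 uk
  obtain ⟨u, su⟩ := sx.out D
  obtain ⟨u', eu, su', -⟩ := h.A.out2 D su
  have m := out u su
  have m' := out u' su'
  have a1 := h.see xS m h.xr su.1 ex.symm
  have a2 := h.see xS h.xr m ex.symm su.1
  have a3 := h.see xS m' h.xr su'.1 ex.symm
  have a4 := h.see xS h.xr m' ex.symm su'.1
  have a5 := (r.adj_iff m m').1 eu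
  have : Sg G.Γ G.η x (G.xr v) := by
    by_cases c : G.ρ u = G.ρ (G.xr v)
    · exact r.inj m h.xr c ▸ su
    · exact r.inj m' h.xr (by omega) ▸ su'
  exact h.A.nt D h.hN sx this sp

/-- two parents of the right foot -/
theorem EF.two [Fintype J] (ep : G.Γ.Adj (G.xr v) p) (hp : f p = -1) (ep' : G.Γ.Adj (G.xr v) p')
    (hp' : f p' = -1) (e : G.Γ.Adj p p') : ∃ c, Col1 G.Γ ∅ c := by
  have r := h.rows
  wlog l : G.ρ p' = G.ρ p + 1 generalizing p p'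
  · exact this ep' hp' ep hp e.symm
      (((r.adj_iff (h.par h.xr ep hp) (h.par h.xr ep' hp')).1 e).resolve_left l)
  have m := h.par h.xr ep hp
  have m' := h.par h.xr ep' hp'
  obtain rfl : p' = G.nx p := r.inj m' (r.nx_mem m).1 (l.trans (r.nx_mem m).2.1.symm)
  refine h.colB m ep ep' ((h.side ep' hp').resolve_right fun k => ?_)
  have := rm_dn r (j := 0) rfl m' h.xl k m h.xr ep (h.ear.1 ▸ lt_add_one _)
  omega

/-- The left foot has one parent `p`, and the child `z` begins a chain to a flat neighbour. -/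
def ZL (G : VD J) (f : Vx J → ℤ) (v x p z : Vx J) : Prop :=
  (∀ r, (G.Γ.Adj x r ∧ f r = -1) ↔ r = p) ∧ z ∈ G.L 1 ∧ G.Γ.Adj v z ∧ G.Γ.Adj z x ∧
    ∃ t w c, Up1 G.Γ f z t ∧ G.Γ.Adj w x ∧ f w = 0 ∧ Anc G.Γ f t (tr c w)

theorem EF.dich (s : Sg G.Γ G.η x v) : (∃ p p', G.Γ.Adj x p ∧ f p = -1 ∧ G.Γ.Adj x p' ∧
    f p' = -1 ∧ G.Γ.Adj p p') ∨ ∃ p z, ZL G f v x p z := by
  have R := h.R
  have N := h.A.noLong R.d1
  obtain ⟨p, p', e, k⟩ := N.par R s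
  rcases e with rfl | e
  swap
  · exact Or.inl ⟨p, p', ((k p).2 (Or.inl rfl)).1, ((k p).2 (Or.inl rfl)).2,
      ((k p').2 (Or.inr rfl)).1, ((k p').2 (Or.inr rfl)).2, e⟩
  have a := (k p).2 (Or.inl rfl)
  obtain ⟨w, e, sw, -⟩ := h.A.in2 R.d1 (R.par_sg s a.1 a.2)
  obtain ⟨w0, z, t, c, h1, h2, h3, -, h5, h6⟩ := (R.in_in' (fun x s z s' => N.out R.d1 s s') s
    sw).resolve_left fun c => e.ne' (or_self_iff.1 ((k w).1 ⟨sw.1.symm, c⟩))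
  exact Or.inr ⟨p, z, fun r => (k r).trans or_self_iff,
    h3 ▸ h.H.row_of_up h5 fun c => (k_nb R rfl h2).1 ((h.H.eK z).1 c), h2, h1.1.symm,
    t, w, c, h5, sw.1, w0, h6⟩

/-- the left side edge is not under a translate of the edge at the right foot -/
theorem EF.gap (Z : ZL G f v (G.xl v) p z) (u : ∀ r, G.Γ.Adj (G.xr v) r → f r = -1 → r = p)
    (ep : G.Γ.Adj (G.xr v) p) (hp' : p' ∈ G.L (-1)) (ep' : G.Γ.Adj (G.nx (G.xr v)) p')
    (m : ∀ r ∈ G.L (-1), G.Γ.Adj (G.nx (G.xr v)) r → G.ρ p' ≤ G.ρ r) {b : ℤ × ℤ} (hb : G.η b = 2)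
    (l : G.ρ (tr b p) ≤ G.ρ z) : G.ρ (tr b p') ≤ G.ρ z := by
  by_contra l'
  have R := h.R
  have D := R.d1
  have r := h.rows
  obtain ⟨k, hz, -, zx, t, w, c, h1, h2, h3, h4⟩ := Z
  have a := (k p).2 rfl
  have hp := h.par h.xl a.1 a.2
  have fz := h.lf hz
  obtain ⟨n1, n2, n3⟩ := r.nx_mem h.xr
  obtain ⟨κ, hκ⟩ := r.rho_tr b (-1)
  obtain ⟨μ, hμ⟩ := r.rho_tr b 0
  rw [hb] at hκ hμ
  have q : tr b p ∈ G.L 1 := (hκ p hp).1
  have q' : tr b p' ∈ G.L 1 := (hκ p' hp').1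
  have y : tr b (G.xr v) ∈ G.L 2 := (hμ _ h.xr).1
  have y' : tr b (G.nx (G.xr v)) ∈ G.L 2 := (hμ _ n1).1
  have e := D.fine.inv b _ _ ep
  have e' := D.fine.inv b _ _ ep'
  have ry := (hμ _ h.xr).2
  have ry' := (hμ _ n1).2
  have ne : z ≠ tr b p := fun c => by
    have d1 := D.g3 (G.xl v) b (by rintro rfl; simp at hb)
    have d2 := D.tri (G.xl v) (c ▸ D.fine.inv b _ _ a.1.symm)
    rw [dist_adj zx.symm] at d2
    omega
  have lt : G.ρ (tr b p) < G.ρ z := lt_of_le_of_ne l fun c => ne (r.inj hz q c.symm)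
  have ends : ∀ x ∈ G.L 2, G.ρ (tr b (G.xr v)) ≤ G.ρ x → G.ρ x ≤ G.ρ (tr b (G.nx (G.xr v))) →
      x = tr b (G.xr v) ∨ x = tr b (G.nx (G.xr v)) := fun x hx l1 l2 => by
    by_cases c : G.ρ x = G.ρ (tr b (G.xr v))
    exacts [Or.inl (r.inj hx y c), Or.inr (r.inj hx y' (by omega))]
  have ft : f t = 2 := by rw [h1.2.1, fz]; rfl
  have tk : t ∉ G.K := fun c => by
    obtain ⟨a, rfl⟩ := h.H.k_tr c
    exact R.npar a ⟨z, h1.1.symm, by omega⟩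
  by_cases tl : t ∈ G.L 2
  · have fb : f (tr (-b) z) = -1 := by rw [R.per, map_neg]; omega
    rcases ends t tl (rm_up r (j := 2) rfl q y e hz tl h1.1.symm lt)
      (rm_up r (j := 2) rfl hz tl h1.1.symm q' y' e' (by omega)) with rfl | rfl
    all_goals
      have e1 := D.fine.inv (-b) _ _ h1.1.symm
      rw [tr_neg] at e1
    · exact ne (by rw [← u _ e1 fb, tr_neg'])
    · have m1 := h.par n1 e1 fb
      have m2 := m _ m1 e1
      have m3 := (hκ _ m1).2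
      have m4 := (hκ _ hp').2
      rw [tr_neg'] at m3
      omega
  obtain rfl : t = tr c w := by
    rcases h4.cases_head with k | ⟨s, k, -⟩
    · exact k
    · exact absurd (ft ▸ h.H.row_of_up k tk) tl
  have hc : G.η c = 2 := by rwa [R.per, h3, zero_add] at ft
  have gt : G.f (tr c w) = 2 := (h.H.nk tk).trans ft
  have xc : tr c (G.xl v) ∈ G.L 2 := by simpa [hc] using (r.uw.ltr c 0 _).2 h.xl
  have ec := D.fine.inv c _ _ h2
  have tS : ({tr c w} : Set (Vx J)) ⊆ G.St 2 := by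
    rintro _ rfl
    rcases r.l_nb xc ec.symm with k | k | k | k
    · have := r.uw.lf _ _ k
      omega
    · exact k
    · exact absurd k tl
    · have := r.uw.ge _ _ k
      omega
  have b1 : tr c (G.xl v) ∈ Nb G.Γ {tr c w} := ⟨_, rfl, ec.symm⟩
  have b2 : z ∈ Nb G.Γ {tr c w} := ⟨_, rfl, h1.1⟩
  rcases ends _ xc (not_lt.1 fun k => (r.nc (j := 2) q y e.symm tS (isConn_single _)
      (Or.inr ⟨xc, k⟩) (Or.inl ⟨hz, lt⟩)).2 ⟨b1, b2⟩)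
    (not_lt.1 fun k => (r.nc (j := 2) q' y' e'.symm tS (isConn_single _)
      (Or.inl ⟨hz, by omega⟩) (Or.inr ⟨xc, k⟩)).2 ⟨b2, b1⟩) with k | k
  · exact D.adj_orb h.ear.2 (congrArg Prod.fst k :)
  · exact h.o1.2 (congrArg Prod.fst k :).symm

/-- one parent on both sides -/
theorem EF.one [Fintype J] (Z : ZL G f v (G.xl v) p z) (Z' : ZL G f v (G.xr v) p' y) :
    (∃ c, Col1 G.Γ ∅ c) ∨ (p = p' ∧ (∀ b, G.η b ≠ 2) ∧
      G.ρ p + G.nn (-1) ≤ G.ρ (G.an (G.nx (G.xr v))) + 1) := by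
  have r := h.rows
  have a := (Z'.1 p').2 rfl
  have hp := h.par h.xr a.1 a.2
  obtain ⟨l, t, H⟩ := h.er
  have n3 := H.n3 (-1)
  obtain ⟨n1, n2, -⟩ := r.nx_mem h.xr
  rcases h.side a.1 a.2 with k | k
  · exact Or.inl (h.colA Z.2.1 Z.2.2.1 Z.2.2.2.1 hp a.1 hp k (fun _ _ c => c) fun _ => by omega)
  obtain rfl : p' = p := (Z.1 p').1 ⟨k, a.2⟩
  obtain ⟨a1, a2, -⟩ := H.an0 n1
  by_cases c : ∃ b, G.η b = 2
  · obtain ⟨q, hq, mq⟩ := Set.exists_min_image {q | q ∈ G.L (-1) ∧ G.Γ.Adj (G.nx (G.xr v)) q} G.ρ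
      ((r.fine.lf _).subset fun _ k => k.2) ⟨_, a1, a2⟩
    exact Or.inl (h.colA Z.2.1 Z.2.2.1 Z.2.2.2.1 hp a.1 hq.1 hq.2 (fun b hb => h.gap Z
      (fun s e fs => (Z'.1 s).1 ⟨e, fs⟩) a.1 hq.1 hq.2 (fun s hs e => mq s ⟨hs, e⟩) hb)
      fun n => (c.elim n).elim)
  have c : ∀ b, G.η b ≠ 2 := fun b k => c ⟨b, k⟩
  by_cases c1 : G.ρ (G.an (G.nx (G.xr v))) + 2 ≤ G.ρ p' + G.nn (-1)
  · exact Or.inl (h.colA Z.2.1 Z.2.2.1 Z.2.2.2.1 hp a.1 a1 a2 (fun b hb => absurd hb (c b))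
      fun _ => c1)
  · exact Or.inr ⟨rfl, c, by omega⟩

theorem EF.col [Fintype J] : ∃ c, Col1 G.Γ ∅ c := by
  have r := h.rows
  obtain ⟨s, s', -⟩ := h.H.foot0 h.R
  rcases h.dich s' with ⟨p, p', a, b, c, d, e⟩ | ⟨p', y, Z'⟩
  · exact h.two a b c d e
  rcases h.dich s with ⟨p, p', a, b, c, d, e⟩ | ⟨p, z, Z⟩
  · exact h.mir.two a b c d e
  refine (h.one Z Z').elim id fun ⟨_, _, k⟩ => (h.mir.one Z' Z).elim id fun ⟨e, _, k'⟩ => ?_
  exfalso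
  obtain ⟨l, t, H⟩ := h.er
  have n3 := H.n3 (-1)
  have n0 := H.n3 0
  obtain ⟨n1, n2, -⟩ := r.nx_mem h.xr
  obtain ⟨m1, m2, -⟩ := h.mir.rows.nx_mem h.xl
  have k' : -G.ρ p' + G.nn (-1) ≤ -G.ρ (G.an ((FR.mir G).nx (G.xl v))) + 1 := k'
  generalize (FR.mir G).nx (G.xl v) = x at m1 m2 k'
  have m1 : x ∈ G.L 0 := m1
  have m2 : -G.ρ x = -G.ρ (G.xl v) + 1 := m2
  obtain ⟨w1, -, w2, w3, -⟩ := h.H.vf.shift m1 (h.H.pr x) 1
  have ear := h.ear.1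
  have := (h.H.vf.mono' n1 (h.H.pr _) w1 (h.H.pr _) (by omega)).1
  rw [w3, (H.an0 n1).2.2, (H.an0 m1).2.2, zero_sub] at this
  subst e
  omega

end

/-- An ear among ears. -/
theorem ear : S_Ear := by
  intro J _ Γ η v f hJ hG hN ev _ R k
  obtain ⟨x, _, -, E⟩ := id k.1
  have s := (E x).2 (Or.inl rfl)
  obtain ⟨an, A⟩ := exists_an1 R s
  obtain ⟨G, H⟩ := exists_fr1 hJ hG.nl hN ev R s A
  obtain rfl := H.eΓ
  obtain rfl := H.eη
  obtain rfl := H.ea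
  exact EF.col ⟨hG, (all_Nrm J _ hJ hG).2, R, k.1, k.2, A, H⟩

end Pool.Agent.P.MP_08fd93_co.FR
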