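import Pool.Agent.P.MP_08fd93_co.FD.G2
import Pool.Agent.P.MP_08fd93_co.FA.Sp0

/-! Depth one: the move of the root back to the foot of a spike. -/

set_option autoImplicit false

namespace Pool.Agent.P.MP_08fd93_co.FR

open OV FZ FN FK FD FA

variable {J : Type} {Γ : SimpleGraph (Vx J)} {η : ℤ × ℤ →+ ℤ} {f f' : Vx J → ℤ} {G G' : VD J}
  {an an' : Vx J → Vx J} {v u x y z p t : Vx J}

/-- The foot `u` of `v` does not see the row one; `u` and its neighbours on the row zero see only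
`p` on the row below. -/
structure Bk (Γ : SimpleGraph (Vx J)) (η : ℤ × ℤ →+ ℤ) (G : VD J) (v u p : Vx J) : Prop where
  s : Sg Γ η u v
  no : ∀ z ∈ G.L 1, ¬ Γ.Adj u z
  one : ∀ x ∈ G.L 0, x = u ∨ Γ.Adj u x → ∀ y ∈ G.L (-1), Γ.Adj x y → y = p

theorem uu_step (hx : x ∈ UU Γ f 0) (fx : 0 ≤ f x) (e : Γ.Adj x y) (fy : 0 ≤ f y) :
    y ∈ UU Γ f 0 := fun k =>
  let ⟨w, hw, c⟩ := hx k
  ⟨w, hw, (Conn.step (A := {w | 0 ≤ f w}) fy fx e.symm).trans c⟩

variable (H : Fr1 Γ η f v an G) (R : RH Γ η v f)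
include H R

theorem k_odd (hk : x ∈ G.K) : G.f x ≠ 0 := by
  obtain ⟨a, rfl⟩ := H.k_tr hk
  obtain ⟨m, hm⟩ := H.vf.wp.ev a
  rw [H.vf.wp.per, H.fv R]
  omega

theorem an_zero (hx : x ∈ G.L 0) : G.an x ∉ G.K ∧ G.an x ∈ G.L (-1) ∧ Γ.Adj x (G.an x) := by
  have n : G.an x ∉ G.K := fun k => k_odd H R k (H.vf.an_v hx (H.pr _) k).2
  exact ⟨n, H.vf.an_l hx (H.pr _) n, H.eΓ ▸ (H.vf.aa _ _ hx (H.pr _)).1⟩

variable (B : Bk Γ η G v u p)
include B

theorem Bk.an_eq (hx : x ∈ G.L 0) (e : x = u ∨ Γ.Adj u x) : G.an x = p :=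
  B.one x hx e _ (an_zero H R hx).2.1 (an_zero H R hx).2.2

/-- a vertex of height zero for both roots is a translate of the foot -/
theorem Bk.same (R' : RH Γ η u f') (h0 : f y = 0) (h1 : f' y = 0) (hy : y ∈ UU Γ f 0) :
    y.1 = u.1 := by
  obtain ⟨a, ha⟩ := R'.ex y
  have fu : f (tr a u) = η a := by rw [R.per, R.inn B.s, zero_add]
  have k := R.anc _ (tr a u) y rfl (by omega) (h0 ▸ hy)
  rcases k.cases_head with e | ⟨z, e, k⟩
  · rw [← e]
    rfl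
  exfalso
  have fz := e.2.1
  rcases k.cases_head with c | ⟨z', c, -⟩
  · obtain ⟨m, hm⟩ := H.vf.wp.ev a
    rw [H.eη] at hm
    rw [c] at fz
    omega
  have l := H.row_of_up c fun q => by
    have := (k_nb R ((H.eK z).1 q) e.1.symm).2
    omega
  have l' := (H.vf.uw.ltr (-a) _ z).2 l
  have e' := R.d1.fine.inv (-a) _ _ e.1
  rw [tr_neg] at e'
  rw [H.eη, map_neg, show f z + -η a = 1 by omega] at l'
  exact B.no _ l' e'

/-- a neighbour of the foot has no parent other than `p` -/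
theorem Bk.par (e : Γ.Adj u z) (h0 : f z = 0) (zt : Γ.Adj z t) (ft : f t = -1) : t = p := by
  have V := H.vf
  have r := V.toRows
  have u0 := ((H.flat R).1 B.s).1
  have nz : z ∉ G.K := fun k => by
    have := (k_nb R ((H.eK z).1 k) zt).2
    omega
  have nt : t ∉ G.K := fun k => k_odd H R k (by rw [H.ef, rais_k ((H.eK t).1 k)]; omega)
  have fz : G.f z = 0 := (H.nk nz).trans h0
  have zu : z ∈ G.U 0 := r.uw.cl 0 u (r.l_u u0) z (H.eΓ ▸ e) fz.ge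
  have tl : t ∈ G.L (-1) := r.uw.lan 0 z zu t (H.eΓ ▸ zt) (by rw [H.nk nt]; omega)
  rcases r.l_nb u0 (H.eΓ ▸ e) with m | m | m | m
  · have := r.uw.lf _ _ m
    omega
  · have m : z ∈ G.S 0 := ⟨m, nz⟩
    have nu : u ∈ Nb G.Γ (G.Cp 0 z) := cpv_nb (H.eΓ ▸ e.symm)
    have nt : t ∈ Nb G.Γ (G.Cp 0 z) := cpv_nb (H.eΓ ▸ zt)
    have ft : ∀ x ∈ G.L 0, Γ.Adj u x → G.Ft x p := fun x hx a =>
      Or.inl (by rw [(V.xo _ (an_zero H R hx).1).1, B.an_eq H R hx (Or.inr a)])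
    have pl : p ∈ G.L (-1) := B.an_eq H R u0 (Or.inl rfl) ▸ (an_zero H R u0).2.1
    have ad : ∀ i, i = G.ρ u + 1 ∨ G.ρ u = i + 1 → Γ.Adj u (G.l 0 i) := fun i hi =>
      H.eΓ ▸ (r.adj_iff u0 (r.l_mem 0 i)).2 (by rwa [r.rho])
    rcases lt_trichotomy (G.ρ t) (G.ρ p) with q | q | q
    · exact (V.side (r.l_mem 0 (G.ρ u - 1)) (H.pr _) (ft _ (r.l_mem _ _) (ad _ (by omega))) m nt nu
        (Or.inl ⟨tl, q⟩) (Or.inr (Or.inl ⟨u0, by rw [r.rho]; omega⟩))).elim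
    · exact r.inj tl pl q
    · exact (V.side (r.l_mem 0 (G.ρ u + 1)) (H.pr _) (ft _ (r.l_mem _ _) (ad _ (by omega))) m nu nt
        (Or.inr (Or.inl ⟨u0, by rw [r.rho]; omega⟩)) (Or.inl ⟨tl, q⟩)).elim
  · exact B.one z m (Or.inr e) t tl zt
  · have := r.uw.ge _ _ m
    omega

theorem Bk.sg (x : Vx J) : Sg Γ η x u ↔ x = p := by
  have u0 := ((H.flat R).1 B.s).1
  obtain ⟨a1, a2, a3⟩ := an_zero H R u0
  constructor
  · intro s
    obtain ⟨f', -, R'⟩ := exists_rh R.d1 u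
    have h0 := R'.inn s
    have h1 := hts R' R B.s x
    by_cases c : f x = 0
    · exact absurd (B.same H R R' c h0 (uu_step (R.root_uu B.s).2 (R.inn B.s).ge s.1.symm c.ge))
        (k_nb R' rfl s.1.symm).1
    · have nk : x ∉ G.K := fun k =>
        k_odd H R k (by rw [H.ef, rais_k ((H.eK x).1 k)]; omega)
      exact B.one u u0 (Or.inl rfl) x (H.vf.uw.lan 0 u (H.vf.toRows.l_u u0) x (H.eΓ ▸ s.1.symm)
        (by rw [H.nk nk]; omega)) s.1.symm
  · rintro rfl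
    rw [← B.an_eq H R u0 (Or.inl rfl)]
    exact R.par_sg B.s a3 ((H.nk a1).symm.trans (H.vf.uw.lf _ _ a2))

theorem back_spike : Spike Γ η u := ⟨p, B.sg H R⟩

/-- The back move: no frame at the foot has a hub. -/
theorem back_free (R' : RH Γ η u f') (H' : Fr1 Γ η f' u an' G') : HR G' ∧ HL G' := by
  have h := sv_of H' R' (Or.inl (back_spike H R B))
  have o : ∀ t ∈ G'.K, t.1 = u.1 := fun t k => (H'.eK t).1 k
  obtain ⟨s1, s2, -⟩ := H'.foot0 R'
  have e1 := (B.sg H R _).1 s1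
  have e2 := (B.sg H R _).1 s2
  have key : ∀ z, G'.Γ.Adj z u → z ∉ G'.L (G'.f u - 1) → ∀ t ∈ G'.L (G'.f u - 1),
      G'.Γ.Adj z t → t = p := by
    intro z zu nz t ht zt
    rw [H'.eΓ] at zu zt
    have nk := H'.vf.l_nk ht
    have ft : f' t = 0 := by
      rw [← H'.nk nk, H'.vf.uw.lf _ _ ht, H'.fv R']
      rfl
    have fz : f' z = 1 := ((R'.nb zu.symm).resolve_left fun k =>
      nz ((B.sg H R z).1 k.2 ▸ e1 ▸ (h.foot H'.vk).1.1)).1
    have h1 := hts R' R B.s z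
    have h2 := hts R' R B.s t
    have h3 := R.lip _ _ zt.symm
    by_cases c : f t = 0
    · exact absurd ((H'.eK t).2 (B.same H R R' c ft (uu_step (uu_step (R.root_uu B.s).2
        (R.inn B.s).ge zu.symm (by omega)) (by omega) zt c.ge))) nk
    · exact B.par H R zu.symm (by omega) zt (by omega)
  exact ⟨hr_one h H'.vk o fun z a b t c d => by rw [key z a b t c d, e2],
    hl_one h H'.vk o fun z a b t c d => by rw [key z a b t c d, e1]⟩

omit H R B in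
/-- The back move gives the colouring. -/
theorem back_col [Fintype J] (hF : S_Free) (D : SD1 Γ η f v an G)
    (no : ∀ z ∈ G.L 1, ¬ Γ.Adj (G.xl v) z)
    (one : ∀ x ∈ G.L 0, x = G.xl v ∨ Γ.Adj (G.xl v) x → ∀ y ∈ G.L (-1), Γ.Adj x y → y = p) :
    ∃ c, Col1 Γ ∅ c := by
  have B : Bk Γ η G v (G.xl v) p := ⟨(D.H.foot0 D.R).1, no, one⟩
  obtain ⟨f', -, R'⟩ := exists_rh D.R.d1 (G.xl v)
  obtain ⟨an', G', D'⟩ := sd1_ex D.hJ D.hG D.hN D.ev R' (back_spike D.H D.R B)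
  exact hF J Γ η f' _ an' G' D' (Or.inl (back_free D.H D.R B R' D'.H).1)

end Pool.Agent.P.MP_08fd93_co.FR
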