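import Pool.Agent.P.MP_08fd93_co.FR.Sig
import Pool.Agent.P.MP_08fd93_co.FZ2.Root

/-! Depth one: the root with its height function, from the data of `root3`. -/

set_option autoImplicit false

namespace Pool.Agent.P.MP_08fd93_co.FR

open OV FZ PkDNP

variable {J : Type} {Γ : SimpleGraph (Vx J)} {η : ℤ × ℤ →+ ℤ}

theorem d1_of [Fintype J] (hJ : Nonempty J) (hG : Good Γ)
    (h : ∀ a, a ≠ 0 → η a + 1 ≤ (OV.DL Γ a : ℤ)) : D1 Γ η := by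
  obtain ⟨hF, hN⟩ := all_Nrm J Γ hJ hG
  refine ⟨hF, fun x a ha => ?_, fun x a ha => (hN.ge a ha).trans (dl_le a x)⟩
  have h1 := h a ha
  have h2 := dl_le (Γ := Γ) a x
  omega

/-- The root of depth one: long, or a spike without long vertices, or an ear among ears. -/
theorem root1 [Fintype J] (hJ : Nonempty J) (hG : Good Γ) (hev : ∀ a, Even (η a))
    (h : ∀ a, a ≠ 0 → η a + 1 ≤ (OV.DL Γ a : ℤ)) {c : ℤ × ℤ} (hc : c ≠ 0)
    (e : (OV.DL Γ c : ℤ) = η c + 1) :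
    ∃ (θ : ℤ × ℤ →+ ℤ) (v : Vx J) (f : Vx J → ℤ), (∀ a, Even (θ a)) ∧
      IsH Γ θ {v} (fun _ => 0) f ∧ RH Γ θ v f ∧
      (Long Γ θ v ∨ (Spike Γ θ v ∧ NoLong Γ θ) ∨ (Ear Γ θ v ∧ AllEar Γ θ)) := by
  have H := d1_of hJ hG h
  obtain ⟨x, hx⟩ := dl_ex (Γ := Γ) hJ c
  obtain ⟨z, hz⟩ := H.start (x := x) hc (by rw [hx, e])
  obtain ⟨θ, hθ, v, k⟩ := root_cases H ⟨x, z, hz⟩
  have H' : D1 Γ θ := by
    rcases hθ with rfl | rfl
    exacts [H, H.neg]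
  obtain ⟨f, hf⟩ := H'.exists_h v
  refine ⟨θ, v, f, fun a => ?_, hf, RH.of H' hf rfl, k⟩
  rcases hθ with rfl | rfl
  exacts [hev a, (hev a).neg]

end Pool.Agent.P.MP_08fd93_co.FR
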