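import Pool.Agent.P.MP_08fd93_co.FZ.Ht

/-! Depth one: the edges on closed walks of slack one, the shapes of a root and its choice. -/

set_option autoImplicit false

namespace Pool.Agent.P.MP_08fd93_co.FR

open OV FZ

variable {J : Type} {Γ : SimpleGraph (Vx J)} {η : ℤ × ℤ →+ ℤ} {h f : Vx J → ℤ}
  {v x y z p : Vx J}

/-- All closed walks of nonzero class have slack at least one and length at least three. -/
structure D1 (Γ : SimpleGraph (Vx J)) (η : ℤ × ℤ →+ ℤ) : Prop where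
  fine : Fine Γ
  sl : ∀ x a, a ≠ 0 → η a + 1 ≤ (Γ.dist x (tr a x) : ℤ)
  g3 : ∀ x a, a ≠ 0 → 3 ≤ Γ.dist x (tr a x)

/-- The edge from `y` to `x` lies on a closed walk of slack one. -/
def Sg (Γ : SimpleGraph (Vx J)) (η : ℤ × ℤ →+ ℤ) (y x : Vx J) : Prop :=
  Γ.Adj y x ∧ ∃ b, (Γ.dist x (tr b y) : ℤ) = η b

/-- One incoming edge. -/
def Spike (Γ : SimpleGraph (Vx J)) (η : ℤ × ℤ →+ ℤ) (x : Vx J) : Prop :=
  ∃ u, ∀ y, Sg Γ η y x ↔ y = u

/-- Two incoming edges that form a triangle. -/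
def Ear (Γ : SimpleGraph (Vx J)) (η : ℤ × ℤ →+ ℤ) (x : Vx J) : Prop :=
  ∃ p p', Γ.Adj p p' ∧ ∀ y, Sg Γ η y x ↔ y = p ∨ y = p'

/-- All other vertices with an incoming edge. -/
def Long (Γ : SimpleGraph (Vx J)) (η : ℤ × ℤ →+ ℤ) (x : Vx J) : Prop :=
  (∃ y, Sg Γ η y x) ∧ ¬ Spike Γ η x ∧ ¬ Ear Γ η x

/-- No vertex is long, in both directions. -/
def NoLong (Γ : SimpleGraph (Vx J)) (η : ℤ × ℤ →+ ℤ) : Prop :=
  ∀ x, ¬ Long Γ η x ∧ ¬ Long Γ (-η) x

/-- All vertices on closed walks of slack one are ears, in both directions. -/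
def AllEar (Γ : SimpleGraph (Vx J)) (η : ℤ × ℤ →+ ℤ) : Prop :=
  ∀ x, (∃ y, Sg Γ η y x) → Ear Γ η x ∧ Ear Γ (-η) x

theorem D1.neg (H : D1 Γ η) : D1 Γ (-η) := by
  refine ⟨H.fine, fun x a ha => ?_, H.g3⟩
  have := H.sl (tr a x) (-a) (neg_ne_zero.2 ha)
  rw [tr_neg, map_neg, SimpleGraph.dist_comm] at this
  simpa using this

theorem D1.le (H : D1 Γ η) (x : Vx J) (a : ℤ × ℤ) : η a ≤ (Γ.dist x (tr a x) : ℤ) := by
  by_cases ha : a = 0
  · subst ha
    simp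
  · have := H.sl x a ha
    omega

theorem D1.exists_h (H : D1 Γ η) (v : Vx J) : ∃ f, IsH Γ η {v} (fun _ => 0) f :=
  FZ.exists_h H.fine H.le (Set.finite_singleton v) (Set.singleton_nonempty v) _

theorem D1.tri (H : D1 Γ η) (x : Vx J) (e : Γ.Adj y z) : Γ.dist x z ≤ Γ.dist x y + 1 := by
  have := dist_tri H.fine.pl x y z
  rwa [dist_adj e] at this

theorem D1.tri' (H : D1 Γ η) (x : Vx J) (e : Γ.Adj y z) : Γ.dist y x ≤ Γ.dist z x + 1 := by
  have := dist_tri H.fine.pl y z x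
  rw [dist_adj e] at this
  omega

/-- the first step of a shortest walk -/
theorem D1.first (H : D1 Γ η) {n : ℕ} (e : Γ.dist x y = n + 1) :
    ∃ z, Γ.Adj x z ∧ Γ.dist z y = n := by
  rw [SimpleGraph.dist_comm] at e
  obtain ⟨z, h1, h2⟩ := dist_step H.fine.pl e
  exact ⟨z, h1.symm, SimpleGraph.dist_comm.trans h2⟩

theorem Sg.rev (H : D1 Γ η) (s : Sg Γ η y x) : Sg Γ (-η) x y := by
  obtain ⟨e, b, hb⟩ := s
  refine ⟨e.symm, -b, ?_⟩
  rw [← H.fine.dist_tr b, tr_neg', SimpleGraph.dist_comm, hb]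
  simp

theorem sg_neg (H : D1 Γ η) : Sg Γ (-η) x y ↔ Sg Γ η y x :=
  ⟨fun s => by simpa using s.rev H.neg, fun s => s.rev H⟩

theorem Sg.tr (H : D1 Γ η) (a : ℤ × ℤ) (s : Sg Γ η y x) : Sg Γ η (tr a y) (tr a x) := by
  obtain ⟨e, b, hb⟩ := s
  exact ⟨H.fine.inv a _ _ e, b, by rw [tr_comm, H.fine.dist_tr, hb]⟩

/-- the class of the closed walk is not zero and has height at least two -/
theorem D1.wit (H : D1 Γ η) (e : Γ.Adj y x) {b : ℤ × ℤ} (hb : (Γ.dist x (tr b y) : ℤ) = η b) :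
    b ≠ 0 ∧ 2 ≤ η b := by
  have h0 : b ≠ 0 := by
    rintro rfl
    rw [tr_zero, dist_adj e.symm] at hb
    simp at hb
  have h1 := H.g3 y b h0
  have h2 := H.tri' (tr b y) e
  exact ⟨h0, by omega⟩

/-- a short walk back closes up to a walk of slack one -/
theorem D1.sg (H : D1 Γ η) (e : Γ.Adj y x) {b : ℤ × ℤ} (h0 : b ≠ 0)
    (hb : (Γ.dist x (tr b y) : ℤ) ≤ η b) : Sg Γ η y x := by
  have h1 := H.sl y b h0
  have h2 := H.tri' (tr b y) e
  exact ⟨e, b, by omega⟩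

theorem Sg.asymm (H : D1 Γ η) (s : Sg Γ η y x) : ¬ Sg Γ η x y := by
  rintro ⟨e', b', hb'⟩
  obtain ⟨e, b, hb⟩ := s
  have w := H.wit e hb
  have w' := H.wit e' hb'
  have h1 := dist_tri H.fine.pl x (Pool.Agent.P.MP_08fd93_co.tr b y)
    (Pool.Agent.P.MP_08fd93_co.tr b (Pool.Agent.P.MP_08fd93_co.tr b' x))
  rw [H.fine.dist_tr, tr_tr] at h1
  have h2 := H.sl x (b' + b) fun k => by
    have := congrArg η k
    rw [map_add, map_zero] at this
    omega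
  rw [map_add] at h2
  omega

/-- an incoming edge continues -/
theorem Sg.out (H : D1 Γ η) (s : Sg Γ η y x) : ∃ z, Sg Γ η x z := by
  obtain ⟨e, b, hb⟩ := s
  have w := H.wit e hb
  obtain ⟨z, e1, d1⟩ := H.first (x := x) (y := Pool.Agent.P.MP_08fd93_co.tr b y)
    (n := (η b - 1).toNat) (by omega)
  have := H.tri z (H.fine.inv b _ _ e)
  exact ⟨z, H.sg e1 w.1 (by omega)⟩

theorem Sg.inn (H : D1 Γ η) (s : Sg Γ η y x) : ∃ z, Sg Γ η z y := by
  obtain ⟨z, hz⟩ := (s.rev H).out H.neg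
  exact ⟨z, (sg_neg H).1 hz⟩

theorem D1.start (H : D1 Γ η) {c : ℤ × ℤ} (hc : c ≠ 0)
    (hx : (Γ.dist x (tr c x) : ℤ) = η c + 1) : ∃ z, Sg Γ η x z := by
  have := H.g3 x c hc
  obtain ⟨z, e1, d1⟩ := H.first (x := x) (y := tr c x) (n := (η c).toNat) (by omega)
  exact ⟨z, H.sg e1 hc (by omega)⟩

/-- The choice of the root. -/
theorem root_cases (H : D1 Γ η) (hx : ∃ x z, Sg Γ η x z) :
    ∃ η', (η' = η ∨ η' = -η) ∧ ∃ v, Long Γ η' v ∨ (Spike Γ η' v ∧ NoLong Γ η') ∨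
      (Ear Γ η' v ∧ AllEar Γ η') := by
  by_cases c1 : ∃ v, Long Γ η v
  · obtain ⟨v, hv⟩ := c1
    exact ⟨η, Or.inl rfl, v, Or.inl hv⟩
  by_cases c2 : ∃ v, Long Γ (-η) v
  · obtain ⟨v, hv⟩ := c2
    exact ⟨-η, Or.inr rfl, v, Or.inl hv⟩
  have n1 : ∀ v, ¬ Long Γ η v := fun v k => c1 ⟨v, k⟩
  have n2 : ∀ v, ¬ Long Γ (-η) v := fun v k => c2 ⟨v, k⟩
  by_cases c3 : ∃ v, Spike Γ η v
  · obtain ⟨v, hv⟩ := c3
    exact ⟨η, Or.inl rfl, v, Or.inr (Or.inl ⟨hv, fun x => ⟨n1 x, n2 x⟩⟩)⟩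
  by_cases c4 : ∃ v, Spike Γ (-η) v
  · obtain ⟨v, hv⟩ := c4
    exact ⟨-η, Or.inr rfl, v, Or.inr (Or.inl ⟨hv, fun x => ⟨n2 x, by rw [neg_neg]; exact n1 x⟩⟩)⟩
  have A : AllEar Γ η := by
    rintro x ⟨y, hy⟩
    obtain ⟨z, hz⟩ := hy.out H
    constructor
    · by_contra k
      exact n1 x ⟨⟨y, hy⟩, fun k' => c3 ⟨x, k'⟩, k⟩
    · by_contra k
      exact n2 x ⟨⟨z, hz.rev H⟩, fun k' => c4 ⟨x, k'⟩, k⟩
  obtain ⟨x, z, hz⟩ := hx
  exact ⟨η, Or.inl rfl, z, Or.inr (Or.inr ⟨(A z ⟨x, hz⟩).1, A⟩)⟩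

/-- The same choice with the spikes first. -/
theorem root_cases' (H : D1 Γ η) (hx : ∃ x z, Sg Γ η x z) :
    ∃ η', (η' = η ∨ η' = -η) ∧ ∃ v, Spike Γ η' v ∨
      (Long Γ η' v ∧ ∀ x, ¬ Spike Γ η' x ∧ ¬ Spike Γ (-η') x) ∨ (Ear Γ η' v ∧ AllEar Γ η') := by
  by_cases c3 : ∃ v, Spike Γ η v
  · obtain ⟨v, hv⟩ := c3
    exact ⟨η, Or.inl rfl, v, Or.inl hv⟩
  by_cases c4 : ∃ v, Spike Γ (-η) v
  · obtain ⟨v, hv⟩ := c4
    exact ⟨-η, Or.inr rfl, v, Or.inl hv⟩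
  obtain ⟨η', e, v, k⟩ := root_cases H hx
  have n : ∀ x, ¬ Spike Γ η' x ∧ ¬ Spike Γ (-η') x := by
    intro x
    rcases e with rfl | rfl
    · exact ⟨fun k => c3 ⟨x, k⟩, fun k => c4 ⟨x, k⟩⟩
    · exact ⟨fun k => c4 ⟨x, k⟩, fun k => c3 ⟨x, by rwa [neg_neg] at k⟩⟩
  rcases k with k | k | k
  exacts [⟨η', e, v, Or.inr (Or.inl ⟨k, n⟩)⟩, ⟨η', e, v, Or.inl k.1⟩, ⟨η', e, v, Or.inr (Or.inr k)⟩]

/-! ### Heights measured from one root -/

/-- The height function of the root `v`. -/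
structure RH (Γ : SimpleGraph (Vx J)) (η : ℤ × ℤ →+ ℤ) (v : Vx J) (f : Vx J → ℤ) : Prop where
  d1 : D1 Γ η
  le : ∀ a x, f x ≤ η a + Γ.dist (tr a v) x
  ex : ∀ x, ∃ a, f x = η a + Γ.dist (tr a v) x
  per : ∀ a x, f (tr a x) = f x + η a
  lip : ∀ x y, Γ.Adj x y → f y ≤ f x + 1

theorem RH.of (H : D1 Γ η) (hf : IsH Γ η {v} h f) (h0 : h v = 0) : RH Γ η v f := by
  refine ⟨H, fun a x => ?_, fun x => ?_, hf.per H.fine, hf.lip H.fine⟩
  · have := hf.le (r := v) rfl a x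
    omega
  · obtain ⟨r, rfl, a, e⟩ := (hf x).1
    exact ⟨a, by omega⟩

theorem RH.root (R : RH Γ η v f) : f v = 0 := by
  have h1 := R.le 0 v
  rw [tr_zero, SimpleGraph.dist_self, map_zero] at h1
  obtain ⟨a, e⟩ := R.ex v
  have := R.d1.neg.le v a
  rw [SimpleGraph.dist_comm] at e
  simp only [AddMonoidHom.neg_apply] at this
  omega

theorem RH.le' (R : RH Γ η v f) (b : ℤ × ℤ) (x : Vx J) : f x + η b ≤ Γ.dist v (tr b x) := by
  have := R.le 0 (tr b x)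
  rwa [tr_zero, map_zero, R.per, zero_add] at this

theorem RH.ex' (R : RH Γ η v f) (x : Vx J) : ∃ b, f x + η b = Γ.dist v (tr b x) := by
  obtain ⟨a, e⟩ := R.ex x
  refine ⟨-a, ?_⟩
  rw [← R.d1.fine.dist_tr a, tr_neg', map_neg]
  omega

theorem RH.dist (R : RH Γ η v f) (x y : Vx J) : f y ≤ f x + Γ.dist x y := by
  obtain ⟨a, e⟩ := R.ex x
  have h1 := R.le a y
  have h2 := dist_tri R.d1.fine.pl (tr a v) x y
  omega

/-- the neighbours of the root -/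
theorem RH.nb (R : RH Γ η v f) (e : Γ.Adj v y) :
    (f y = 0 ∧ Sg Γ η y v) ∨ (f y = 1 ∧ ¬ Sg Γ η y v) := by
  have h1 := R.lip _ _ e
  rw [R.root] at h1
  by_cases s : Sg Γ η y v
  · refine Or.inl ⟨?_, s⟩
    obtain ⟨-, b, hb⟩ := s
    have h2 := R.le' b y
    obtain ⟨b', h3⟩ := R.ex' y
    by_cases h0 : b' = 0
    · rw [h0, map_zero] at h3
      omega
    · have h4 := R.d1.sl y b' h0
      have h5 := R.d1.tri' (tr b' y) e.symm
      omega
  · refine Or.inr ⟨?_, s⟩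
    obtain ⟨b', h3⟩ := R.ex' y
    by_cases h0 : b' = 0
    · rw [h0, map_zero, tr_zero, dist_adj e] at h3
      omega
    · by_contra k
      exact s (R.d1.sg e.symm h0 (by omega))

theorem RH.inn (R : RH Γ η v f) (s : Sg Γ η x v) : f x = 0 :=
  ((R.nb s.1.symm).resolve_right fun k => k.2 s).1

theorem RH.out (R : RH Γ η v f) (s : Sg Γ η v y) : f y = 1 :=
  ((R.nb s.1).resolve_left fun k => s.asymm R.d1 k.2).1

theorem RH.sg0 (R : RH Γ η v f) (e : Γ.Adj v x) (h0 : f x = 0) : Sg Γ η x v :=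
  ((R.nb e).resolve_right fun k => by omega).2

/-- a vertex without a parent is a translate of the root -/
theorem RH.par (R : RH Γ η v f) (x : Vx J) : Hp Γ f x ∨ ∃ a, x = tr a v := by
  obtain ⟨a, e⟩ := R.ex x
  rcases hd : Γ.dist (tr a v) x with _ | m
  · exact Or.inr ⟨a, (dist_zero R.d1.fine.pl hd).symm⟩
  · obtain ⟨y, ey, hy⟩ := dist_step R.d1.fine.pl hd
    have h1 := R.le a y
    have h2 := R.lip y x ey
    exact Or.inl ⟨y, ey.symm, by omega⟩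

theorem RH.npar (R : RH Γ η v f) (a : ℤ × ℤ) : ¬ Hp Γ f (tr a v) := by
  rw [Hp.tr R.d1.fine R.per]
  rintro ⟨y, e, hy⟩
  rw [R.root] at hy
  rcases R.nb e with k | k <;> omega

theorem RH.ntr (R : RH Γ η v f) (e : Γ.Adj v x) (a : ℤ × ℤ) : x ≠ tr a v := by
  rintro rfl
  by_cases h0 : a = 0
  · rw [h0, tr_zero] at e
    exact e.ne rfl
  · have := R.d1.g3 v a h0
    rw [dist_adj e] at this
    omega

theorem RH.nb_par (R : RH Γ η v f) (e : Γ.Adj v x) : Hp Γ f x :=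
  (R.par x).resolve_right fun ⟨a, k⟩ => R.ntr e a k

/-- the parents of a flat neighbour of the root are starts of incoming edges -/
theorem RH.par_sg (R : RH Γ η v f) (s : Sg Γ η x v) (e : Γ.Adj x p) (hp : f p = -1) :
    Sg Γ η p x := by
  obtain ⟨b, hb⟩ := R.ex' p
  have h0 : b ≠ 0 := by
    rintro rfl
    rw [map_zero] at hb
    omega
  have := R.d1.tri' (tr b p) s.1
  exact R.d1.sg e.symm h0 (by omega)

theorem RH.climb (R : RH Γ η v f) {j : ℤ} : ∀ (m : ℕ) (z t : Vx J), Γ.dist z t = m → j ≤ f z →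
    j - 1 + m ≤ f t → Conn Γ {u | j ≤ f u} z t := by
  intro m
  induction m with
  | zero =>
    intro z t d _ _
    rw [dist_zero R.d1.fine.pl d]
    exact Conn.rfl'
  | succ m ih =>
    intro z t d hz ht
    obtain ⟨z', e, d'⟩ := R.d1.first d
    have h1 := R.dist z' t
    have h2 : j ≤ f z' := by push_cast at ht; omega
    exact (Conn.step (A := {u | j ≤ f u}) hz h2 e).trans (ih z' t d' h2 (by push_cast at ht; omega))

/-- a vertex joined above `j` to a higher translate of itself lies in the upper part -/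
theorem RH.uu (R : RH Γ η v f) {j : ℤ} {b : ℤ × ℤ} (hb : 0 < η b)
    (hc : Conn Γ {u | j ≤ f u} z (tr b z)) : z ∈ UU Γ f j := by
  have key : ∀ n : ℕ, Conn Γ {u | j ≤ f u} z (tr ((n : ℤ) • b) z) := by
    intro n
    induction n with
    | zero =>
      rw [Nat.cast_zero, zero_smul, tr_zero]
      exact Conn.rfl'
    | succ n ih =>
      refine hc.trans ?_
      have := R.d1.fine.conn_tr b (B := {u | j ≤ f u}) (fun u hu => by
        simp only [Set.mem_ofPred_eq, R.per] at hu ⊢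
        omega) ih
      rwa [tr_tr, ← add_one_zsmul, ← Nat.cast_succ] at this
  intro t
  refine ⟨_, ?_, key (t - f z).natAbs⟩
  rw [R.per, map_zsmul, smul_eq_mul]
  have h0 : (0 : ℤ) ≤ ((t - f z).natAbs : ℤ) := Int.natCast_nonneg _
  have h1 : ((t - f z).natAbs : ℤ) ≤ ((t - f z).natAbs : ℤ) * η b := by nlinarith
  omega

/-- the end of a rising edge of slack one lies in the upper part -/
theorem RH.sg_uu (R : RH Γ η v f) (s : Sg Γ η x z) (hz : f z = f x + 1) : z ∈ UU Γ f (f z) := by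
  obtain ⟨e, b, hb⟩ := s
  have w := R.d1.wit e hb
  refine R.uu (b := b) (by omega) ((R.climb _ z (tr b x) rfl le_rfl (by rw [R.per]; omega)).trans
    (Conn.step ?_ ?_ (R.d1.fine.inv b _ _ e)))
  all_goals
    show f z ≤ f _
    rw [R.per]
    omega

theorem RH.out_uu (R : RH Γ η v f) (s : Sg Γ η v y) : y ∈ UU Γ f 1 := by
  have := R.sg_uu s (by rw [R.out s, R.root]; rfl)
  rwa [R.out s] at this

theorem RH.root_uu (R : RH Γ η v f) (s : Sg Γ η x v) : v ∈ UU Γ f 0 ∧ x ∈ UU Γ f 0 := by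
  obtain ⟨y, hy⟩ := s.out R.d1
  have k : ∀ a b, a ∈ UU Γ f 0 → Γ.Adj b a → f a = 0 ∨ f a = 1 → f b = 0 → b ∈ UU Γ f 0 := by
    intro a b ha e h1 h2 t
    obtain ⟨z, hz, hc⟩ := ha t
    exact ⟨z, hz, (Conn.step (A := {u | 0 ≤ f u}) h2.ge (by show 0 ≤ f a; omega) e).trans hc⟩
  have y0 : y ∈ UU Γ f 0 := fun t => by
    obtain ⟨z, hz, hc⟩ := R.out_uu hy t
    exact ⟨z, hz, hc.up fun u hu => by
      simp only [Set.mem_ofPred_eq] at hu ⊢
      omega⟩
  have v0 := k y v y0 hy.1 (Or.inr (R.out hy)) R.root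
  exact ⟨v0, k v x v0 s.1 (Or.inl R.root) (R.inn s)⟩

/-- `b` is a child of `a` in the upper part of its level. -/
def Up1 (Γ : SimpleGraph (Vx J)) (f : Vx J → ℤ) (a b : Vx J) : Prop :=
  Γ.Adj a b ∧ f b = f a + 1 ∧ b ∈ UU Γ f (f b)

/-- `a` is an ancestor of `b`. -/
def Anc (Γ : SimpleGraph (Vx J)) (f : Vx J → ℤ) : Vx J → Vx J → Prop :=
  Relation.ReflTransGen (Up1 Γ f)

theorem RH.anc (R : RH Γ η v f) : ∀ (m : ℕ) (z t : Vx J), Γ.dist z t = m → f z + m ≤ f t →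
    t ∈ UU Γ f (f t) → Anc Γ f z t := by
  intro m
  induction m with
  | zero =>
    intro z t d _ _
    rw [dist_zero R.d1.fine.pl d]
    exact Relation.ReflTransGen.refl
  | succ m ih =>
    intro z t d hz ht
    obtain ⟨t', e, d'⟩ := dist_step R.d1.fine.pl d
    have h1 := R.dist z t'
    have h2 := R.lip _ _ e
    have h3 : f t = f t' + 1 := by push_cast at hz; omega
    refine Relation.ReflTransGen.tail (ih z t' d' (by push_cast at hz; omega) fun k => ?_)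
      ⟨e, h3, ht⟩
    obtain ⟨u, hu, hc⟩ := ht k
    exact ⟨u, hu, (Conn.step (A := {u | f t' ≤ f u}) (le_refl (f t')) (by show f t' ≤ f t; omega)
      e).trans (hc.up fun u hu => by
        simp only [Set.mem_ofPred_eq] at hu ⊢
        omega)⟩

theorem RH.uu_tr (R : RH Γ η v f) (a : ℤ × ℤ) {j : ℤ} (hx : x ∈ UU Γ f j) :
    tr a x ∈ UU Γ f (j + η a) := by
  intro t
  obtain ⟨y, hy, hc⟩ := hx (t - η a)
  refine ⟨tr a y, by rw [R.per]; omega, R.d1.fine.conn_tr a (fun z hz => ?_) hc⟩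
  simp only [Set.mem_ofPred_eq, R.per] at hz ⊢
  omega

/-- the end of an outgoing edge of the root is an ancestor of a flat neighbour of a translate -/
theorem RH.out_anc (R : RH Γ η v f) (s : Sg Γ η v y) :
    ∃ x b, Sg Γ η x v ∧ 2 ≤ η b ∧ Anc Γ f y (tr b x) := by
  have f1 := R.out s
  obtain ⟨e, b, hb⟩ := s
  have w := R.d1.wit e hb
  obtain ⟨z, ez, dz⟩ := dist_step R.d1.fine.pl (x := y) (y := tr b v) (n := (η b - 1).toNat)
    (by omega)
  have e1 := R.d1.fine.inv (-b) _ _ ez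
  rw [tr_neg] at e1
  have t := R.d1.tri' z e
  have s1 : Sg Γ η (tr (-b) z) v := R.d1.sg e1 w.1 (by rw [tr_neg']; omega)
  have f0 := R.inn s1
  refine ⟨_, b, s1, w.2, R.anc (η b - 1).toNat _ _ (by rw [tr_neg']; exact dz)
    (by rw [R.per]; omega) ?_⟩
  rw [R.per, f0]
  exact R.uu_tr b (R.root_uu s1).2

/-- conversely the ancestors at height one next to the root -/
theorem RH.sg_of_anc (R : RH Γ η v f) (e : Γ.Adj v y) (hy : f y = 1) (s : Sg Γ η x v) {b : ℤ × ℤ}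
    (a : Anc Γ f y (tr b x)) : Sg Γ η v y := by
  have key : ∀ t, Anc Γ f y t → (Γ.dist y t : ℤ) ≤ f t - f y := by
    intro t ht
    induction ht with
    | refl => simp
    | tail _ k ih =>
      have := R.d1.tri y k.1
      have := k.2.1
      omega
  have h1 := key _ a
  rw [R.per, R.inn s] at h1
  have h2 := R.d1.tri y (R.d1.fine.inv b _ _ s.1)
  refine R.d1.sg e (b := b) ?_ (by omega)
  rintro rfl
  rw [map_zero] at h1
  omega

/-- An incoming edge of a flat neighbour `x` of the root comes from a parent, or `x` has a child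
that sees the root, as soon as the outgoing edges of the flat neighbours lie in triangles. -/
theorem RH.in_in (R : RH Γ η v f)
    (two : ∀ x, Sg Γ η x v → ∀ z, Sg Γ η x z → z = v ∨ Γ.Adj v z) (s : Sg Γ η x v)
    (sp : Sg Γ η p x) :
    f p = -1 ∨ ∃ z, Sg Γ η x z ∧ Γ.Adj v z ∧ f z = 1 ∧ z ∈ UU Γ f 1 := by
  have H := R.d1
  have f0 := R.inn s
  obtain ⟨e, b, hb⟩ := sp
  have w := H.wit e hb
  have l1 := R.lip _ _ e
  have l2 := R.le' b p
  by_cases hp : f p = -1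
  · exact Or.inl hp
  right
  obtain ⟨z, e1, d1⟩ := H.first (x := x) (y := tr b p) (n := (η b - 1).toNat) (by omega)
  have t1 := H.tri z (H.fine.inv b _ _ e)
  have s1 : Sg Γ η x z := H.sg e1 w.1 (by omega)
  rcases two x s z s1 with rfl | a
  · omega
  rcases R.nb a with k | k
  · exfalso
    obtain ⟨z2, e2, d2⟩ := H.first (x := z) (y := tr b p) (n := (η b - 2).toNat) (by omega)
    have t2 := H.tri z2 (H.fine.inv b _ _ e)
    have t3 := H.tri z2 (H.fine.inv b _ _ e1)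
    rcases two z k.2 z2 (H.sg e2 w.1 (by omega)) with rfl | a2
    · omega
    · have := H.tri' (tr b p) a2
      omega
  · have := R.sg_uu s1 (by omega)
    rw [k.1] at this
    exact ⟨z, s1, a, k.1, this⟩

theorem Ear.adj (E : Ear Γ η x) (s : Sg Γ η y x) (s' : Sg Γ η z x) : z = y ∨ Γ.Adj y z := by
  obtain ⟨p, p', e, k⟩ := E
  rcases (k _).1 s with rfl | rfl <;> rcases (k _).1 s' with rfl | rfl
  exacts [Or.inl rfl, Or.inr e, Or.inr e.symm, Or.inl rfl]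

theorem Spike.eq (E : Spike Γ η x) (s : Sg Γ η y x) (s' : Sg Γ η z x) : z = y := by
  obtain ⟨u, k⟩ := E
  rw [(k _).1 s, (k _).1 s']

theorem not_long (n : ¬ Long Γ η x) (s : Sg Γ η y x) : Spike Γ η x ∨ Ear Γ η x := by
  by_contra k
  exact n ⟨⟨y, s⟩, fun a => k (Or.inl a), fun a => k (Or.inr a)⟩

theorem not_long_adj (n : ¬ Long Γ η x) (s : Sg Γ η y x) (s' : Sg Γ η z x) :
    z = y ∨ Γ.Adj y z :=
  (not_long n s).elim (fun k => Or.inl (k.eq s s')) fun k => k.adj s s'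

theorem AllEar.noLong (H : D1 Γ η) (A : AllEar Γ η) : NoLong Γ η := by
  refine fun x => ⟨fun k => k.2.2 (A x k.1).1, fun k => k.2.2 (A x ?_).2⟩
  obtain ⟨y, hy⟩ := k.1
  exact ((sg_neg H).1 hy).inn H

/-- without long vertices the outgoing edges of a vertex lie in a triangle -/
theorem NoLong.out (H : D1 Γ η) (N : NoLong Γ η) (s : Sg Γ η x y) (s' : Sg Γ η x z) :
    z = y ∨ Γ.Adj y z := not_long_adj (N x).2 (s.rev H) (s'.rev H)

/-- without long vertices a flat neighbour of the root has one parent or two adjacent parents -/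
theorem NoLong.par (R : RH Γ η v f) (N : NoLong Γ η) (s : Sg Γ η x v) :
    ∃ p p', (p = p' ∨ Γ.Adj p p') ∧ ∀ r, (Γ.Adj x r ∧ f r = -1) ↔ r = p ∨ r = p' := by
  obtain ⟨p, e, hp⟩ := R.nb_par s.1.symm
  rw [R.inn s, zero_sub] at hp
  have sp := R.par_sg s e hp
  by_cases c : ∃ p', p' ≠ p ∧ Γ.Adj x p' ∧ f p' = -1
  · obtain ⟨p', n, e', hp'⟩ := c
    have sp' := R.par_sg s e' hp'
    refine ⟨p, p', Or.inr ((not_long_adj (N x).1 sp sp').resolve_left n), fun r => ⟨fun k => ?_, ?_⟩⟩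
    · have sr := R.par_sg s k.1 k.2
      rcases not_long (N x).1 sp with E | ⟨a, a', -, E⟩
      · exact Or.inl (E.eq sp sr)
      · rcases (E _).1 sp with h1 | h1 <;> rcases (E _).1 sp' with h2 | h2 <;>
          rcases (E _).1 sr with h3 | h3 <;> simp_all
    · rintro (rfl | rfl)
      exacts [⟨e, hp⟩, ⟨e', hp'⟩]
  · refine ⟨p, p, Or.inl rfl, fun r => ⟨fun k => ?_, ?_⟩⟩
    · by_contra n
      exact c ⟨r, fun a => n (Or.inl a), k⟩
    · rintro (rfl | rfl) <;> exact ⟨e, hp⟩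

/-- all ears: the two outgoing edges of the root -/
theorem AllEar.out (R : RH Γ η v f) (A : AllEar Γ η) (s : Sg Γ η x v) :
    ∃ y y', Γ.Adj y y' ∧ ∀ z, Sg Γ η v z ↔ z = y ∨ z = y' := by
  obtain ⟨y, y', e, k⟩ := (A v ⟨x, s⟩).2
  exact ⟨y, y', e, fun z => (sg_neg R.d1).symm.trans (k z)⟩

/-- all ears: a flat neighbour of the root has two adjacent parents, or one parent and a child
that sees the root -/
theorem AllEar.par (R : RH Γ η v f) (A : AllEar Γ η) (s : Sg Γ η x v) :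
    (∃ p p', Γ.Adj p p' ∧ ∀ r, (Γ.Adj x r ∧ f r = -1) ↔ r = p ∨ r = p') ∨
      ((∃ p, ∀ r, (Γ.Adj x r ∧ f r = -1) ↔ r = p) ∧
        ∃ z, Sg Γ η x z ∧ Γ.Adj v z ∧ f z = 1 ∧ z ∈ UU Γ f 1) := by
  have N := A.noLong R.d1
  obtain ⟨p, p', e, k⟩ := N.par R s
  rcases e with rfl | e
  swap
  · exact Or.inl ⟨p, p', e, k⟩
  refine Or.inr ⟨⟨p, fun r => (k r).trans or_self_iff⟩, ?_⟩
  obtain ⟨a, a', ea, E⟩ := (A x (s.inn R.d1)).1
  have two : ∀ x, Sg Γ η x v → ∀ z, Sg Γ η x z → z = v ∨ Γ.Adj v z :=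
    fun x s z s' => N.out R.d1 s s'
  have sa := (E a).2 (Or.inl rfl)
  have sa' := (E a').2 (Or.inr rfl)
  rcases R.in_in two s sa with h1 | h1
  · rcases R.in_in two s sa' with h2 | h2
    · have e1 := or_self_iff.1 ((k a).1 ⟨sa.1.symm, h1⟩)
      have e2 := or_self_iff.1 ((k a').1 ⟨sa'.1.symm, h2⟩)
      exact absurd (e1.trans e2.symm) ea.ne
    · exact h2
  · exact h1

end Pool.Agent.P.MP_08fd93_co.FR
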