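import Pool.Agent.P.MP_08fd93_co.FR.Sig

/-! Depth one: descent to the children of the root and the child used for the cut. -/

set_option autoImplicit false

namespace Pool.Agent.P.MP_08fd93_co.FR

open OV FZ

variable {J : Type} {Γ : SimpleGraph (Vx J)} {η : ℤ × ℤ →+ ℤ} {f : Vx J → ℤ}
  {v x y z p : Vx J}

theorem RH.anc_dist (R : RH Γ η v f) (a : Anc Γ f y z) : (Γ.dist y z : ℤ) = f z - f y := by
  have h1 := R.dist y z
  have h2 : (Γ.dist y z : ℤ) ≤ f z - f y := by
    induction a with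
    | refl => simp
    | tail _ k ih =>
      have := R.d1.tri y k.1
      have := k.2.1
      have := ih (R.dist _ _)
      omega
  omega

theorem RH.anc_tr (R : RH Γ η v f) (b : ℤ × ℤ) (a : Anc Γ f y z) : Anc Γ f (tr b y) (tr b z) := by
  induction a with
  | refl => exact Relation.ReflTransGen.refl
  | tail _ k ih =>
    refine ih.tail ⟨R.d1.fine.inv b _ _ k.1, by rw [R.per, R.per, k.2.1]; ring, ?_⟩
    rw [R.per]
    exact R.uu_tr b k.2.2

/-- no vertex is a proper ancestor of one of its translates -/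
theorem RH.acyc (R : RH Γ η v f) {b : ℤ × ℤ} (a : Anc Γ f x (tr b x)) : b = 0 := by
  by_contra h0
  have h1 := R.anc_dist a
  have h2 := R.d1.sl x b h0
  rw [R.per] at h1
  omega

/-- a child of `x` is not an ancestor of a translate of `x` -/
theorem RH.nadj (R : RH Γ η v f) {b : ℤ × ℤ} (hy : f y = f x + 1) (a : Anc Γ f y (tr b x)) :
    ¬ Γ.Adj x y := by
  intro e
  have h1 := R.anc_dist a
  have h2 := R.d1.tri' (tr b x) e
  rw [R.per] at h1
  have h3 := R.d1.sl x b (by
    rintro rfl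
    rw [map_zero] at h1
    omega)
  omega

/-- a parent of a vertex of the upper part -/
theorem RH.up1 (hx : x ∈ UU Γ f (f x)) (e : Γ.Adj x p) (hp : f p = f x - 1) :
    Up1 Γ f p x ∧ p ∈ UU Γ f (f p) := by
  refine ⟨⟨e.symm, by omega, hx⟩, fun k => ?_⟩
  obtain ⟨u, hu, hc⟩ := hx k
  exact ⟨u, hu, (Conn.step (A := {u | f p ≤ f u}) (le_refl (f p)) (by show f p ≤ f x; omega)
    e.symm).trans (hc.up fun u hu => by
      simp only [Set.mem_ofPred_eq] at hu ⊢
      omega)⟩

/-- every vertex of the upper part of its level descends from a child of a translate of the root -/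
theorem RH.desc (R : RH Γ η v f) (hx : x ∈ UU Γ f (f x)) (n : ∀ a, x ≠ tr a v) :
    ∃ a y, Γ.Adj v y ∧ f y = 1 ∧ y ∈ UU Γ f 1 ∧ Anc Γ f (tr a y) x := by
  obtain ⟨a, e⟩ := R.ex x
  have key : ∀ (m : ℕ) (x : Vx J), x ∈ UU Γ f (f x) → Γ.dist (tr a v) x = m + 1 →
      f x = η a + (m + 1) → ∃ y, Γ.Adj (tr a v) y ∧ f y = η a + 1 ∧ y ∈ UU Γ f (f y) ∧
        Anc Γ f y x := by
    intro m
    induction m with
    | zero =>
      intro x hx d h
      exact ⟨x, SimpleGraph.dist_eq_one_iff_adj.1 d, by simpa using h, hx,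
        Relation.ReflTransGen.refl⟩
    | succ m ih =>
      intro x hx d h
      obtain ⟨p, ep, dp⟩ := dist_step R.d1.fine.pl d
      have h1 := R.le a p
      have h2 := R.lip _ _ ep
      have h3 : f p = f x - 1 := by push_cast at h; omega
      obtain ⟨u1, u2⟩ := RH.up1 hx ep.symm h3
      obtain ⟨y, y1, y2, y3, y4⟩ := ih p u2 dp (by push_cast at h; omega)
      exact ⟨y, y1, y2, y3, y4.tail u1⟩
  rcases hd : Γ.dist (tr a v) x with _ | m
  · exact absurd (dist_zero R.d1.fine.pl hd).symm (n a)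
  · obtain ⟨y, y1, y2, y3, y4⟩ := key m x hx hd (by rw [e, hd]; push_cast; ring)
    have e1 := R.d1.fine.inv (-a) _ _ y1
    rw [tr_neg] at e1
    have u := R.uu_tr (-a) y3
    rw [map_neg, y2, show η a + 1 + -η a = 1 by ring] at u
    exact ⟨a, tr (-a) y, e1, by rw [R.per, map_neg]; omega, u, by rwa [tr_neg']⟩

/-- every flat neighbour of the root descends from the end of an outgoing edge -/
theorem RH.in_anc (R : RH Γ η v f) (s : Sg Γ η x v) :
    ∃ y b, Sg Γ η v y ∧ Anc Γ f y (tr b x) := by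
  obtain ⟨a, y, e, h1, -, k⟩ := R.desc (x := x) (by rw [R.inn s]; exact (R.root_uu s).2)
    (R.ntr s.1.symm)
  have k' := R.anc_tr (-a) k
  rw [tr_neg] at k'
  exact ⟨y, -a, R.sg_of_anc e h1 s k', k'⟩

/-- a neighbour of `y` on the same level that descends from a translate of `y` -/
theorem RH.sg_side (e : Γ.Adj z y) (R : RH Γ η v f) (hz : f z = f y) {a : ℤ × ℤ}
    (k : Anc Γ f (tr a y) z) : Sg Γ η z y := by
  have h1 := R.anc_dist k
  refine ⟨e, -a, ?_⟩
  rw [← R.d1.fine.dist_tr a, tr_neg', h1, R.per, map_neg]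
  omega

/-- without long vertices such a neighbour of the end of an outgoing edge sees the root -/
theorem NoLong.side (R : RH Γ η v f) (N : NoLong Γ η) (s : Sg Γ η v y) (e : Γ.Adj z y)
    (hz : f z = 1) {a : ℤ × ℤ} (k : Anc Γ f (tr a y) z) : Γ.Adj v z := by
  refine (not_long_adj (N y).1 s (R.sg_side e (by rw [hz, R.out s]) k)).resolve_left ?_
  rintro rfl
  rw [R.root] at hz
  omega

/-- spike: the ends of the outgoing edges are ancestors of the flat neighbour and do not see it -/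
theorem Spike.cut (R : RH Γ η v f) (E : Spike Γ η v) (s : Sg Γ η x v) (t : Sg Γ η v y) :
    (∃ b, 2 ≤ η b ∧ Anc Γ f y (tr b x)) ∧ ¬ Γ.Adj x y := by
  obtain ⟨x', b, s', hb, k⟩ := R.out_anc t
  obtain rfl := E.eq s s'
  exact ⟨⟨b, hb, k⟩, R.nadj (by rw [R.out t, R.inn s]; rfl) k⟩

/-- two flat neighbours: the end of some outgoing edge sees neither of them -/
theorem Ear.cut (R : RH Γ η v f) (E : Ear Γ η v) :
    ∃ y, Sg Γ η v y ∧ ∀ x, Sg Γ η x v → ¬ Γ.Adj x y := by
  obtain ⟨p, p', -, E⟩ := E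
  have s := (E p).2 (Or.inl rfl)
  have s' := (E p').2 (Or.inr rfl)
  obtain ⟨y, b, t, k⟩ := R.in_anc s
  obtain ⟨y', b', t', k'⟩ := R.in_anc s'
  have n : ¬ Γ.Adj p y := R.nadj (by rw [R.out t, R.inn s]; rfl) k
  have n' : ¬ Γ.Adj p' y' := R.nadj (by rw [R.out t', R.inn s']; rfl) k'
  by_cases c : Γ.Adj p' y
  · by_cases c' : Γ.Adj p y'
    · exfalso
      have u : Up1 Γ f (tr b' p') (tr b' y) := ⟨R.d1.fine.inv b' _ _ c, by
        rw [R.per, R.per, R.out t, R.inn s']; ring, by
        rw [R.per, R.out t]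
        exact R.uu_tr b' (R.out_uu t)⟩
      have k2 := R.anc_tr b' k
      rw [tr_tr] at k2
      exact R.nadj (by rw [R.out t', R.inn s]; rfl) ((k'.tail u).trans k2) c'
    · refine ⟨y', t', fun x hx => ?_⟩
      rcases (E x).1 hx with rfl | rfl
      exacts [c', n']
  · refine ⟨y, t, fun x hx => ?_⟩
    rcases (E x).1 hx with rfl | rfl
    exacts [n, c]

/-- a vertex with a child in the upper part lies on its level line -/
theorem Up1.ll (k : Up1 Γ f x y) : x ∈ LL Γ f (f x) := by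
  refine ⟨⟨y, k.2.1 ▸ k.2.2, k.1⟩, fun h => ?_⟩
  obtain ⟨u, hu, hc⟩ := h (f x + 1)
  rcases Relation.ReflTransGen.cases_head hc with e | ⟨z, hz, _⟩
  · subst e
    omega
  · have : f x + 1 ≤ f x := hz.1
    omega

end Pool.Agent.P.MP_08fd93_co.FR
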